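import Pool.Agent.TH405.CW.All
import Pool.Agent.TH497.PW.IntFlow

/-! Nowhere-zero flows modulo five and integer five-flows for carving width at most seven. -/

set_option autoImplicit false

open Finset

namespace Pool.Agent.TH405.CW

open Pool.Agent.TH497.PW in
theorem int_five (V E : Type) [Fintype V] [DecidableEq V] [Fintype E] [DecidableEq E]
    (s t : E → V) (T : Tr V) (hT : T.set = Set.univ) (hN : T.Nodup) (hW : T.Width s t 7)
    (hbr : ∀ Z : Set V, (cut s t Z).card ≠ 1) :
    ∃ F : E → ℤ, (∀ e, 1 ≤ |F e| ∧ |F e| ≤ 4) ∧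
      ∀ v, ∑ e, F e * ((if s e = v then 1 else 0) - (if t e = v then 1 else 0)) = 0 := by
  obtain ⟨f, hf1, hf2⟩ := main_flow 7 classes7 tables7 s t T hN hW
    (fun e => by rw [hT]; exact ⟨Set.mem_univ _, Set.mem_univ _⟩) hbr
  refine int_flow s t ⟨f, hf1, fun v => ?_⟩
  have h := hf2 v (by rw [hT]; exact Set.mem_univ _)
  unfold bd at h
  rw [← h]
  refine Finset.sum_congr rfl fun e _ => ?_
  unfold ic
  congr

end Pool.Agent.TH405.CW
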