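import Pool.Agent.TH405.CW.Glue

/-! The classes. -/

set_option autoImplicit false
set_option maxRecDepth 100000

namespace Pool.Agent.TH405.CW

theorem cl3_0 : clchk 3 0 = true := by decide +kernel
theorem a3_0 : allP (au 3 0) (auchk 3 0) = true := by decide +kernel

theorem class3 : ClassOK 3 := by
  refine ⟨by decide, fun i hi => ?_⟩
  have hi' : i < 1 := hi
  interval_cases i
  · exact clchk_ok cl3_0
theorem cl4_0 : clchk 4 0 = true := by decide +kernel
theorem a4_0 : allP (au 4 0) (auchk 4 0) = true := by decide +kernel

theorem class4 : ClassOK 4 := by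
  refine ⟨by decide, fun i hi => ?_⟩
  have hi' : i < 1 := hi
  interval_cases i
  · exact clchk_ok cl4_0
theorem cl5_0 : clchk 5 0 = true := by decide +kernel
theorem a5_0 : allP (au 5 0) (auchk 5 0) = true := by decide +kernel
theorem cl5_1 : clchk 5 1 = true := by decide +kernel
theorem a5_1 : allP (au 5 1) (auchk 5 1) = true := by decide +kernel

theorem class5 : ClassOK 5 := by
  refine ⟨by decide, fun i hi => ?_⟩
  have hi' : i < 2 := hi
  interval_cases i
  · exact clchk_ok cl5_0
  · exact clchk_ok cl5_1
theorem cl6_0 : clchk 6 0 = true := by decide +kernel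
theorem a6_0 : allP (au 6 0) (auchk 6 0) = true := by decide +kernel
theorem cl6_1 : clchk 6 1 = true := by decide +kernel
theorem a6_1 : allP (au 6 1) (auchk 6 1) = true := by decide +kernel
theorem cl6_2 : clchk 6 2 = true := by decide +kernel
theorem a6_2 : allP (au 6 2) (auchk 6 2) = true := by decide +kernel
theorem cl6_3 : clchk 6 3 = true := by decide +kernel
theorem a6_3 : allP (au 6 3) (auchk 6 3) = true := by decide +kernel

theorem class6 : ClassOK 6 := by
  refine ⟨by decide, fun i hi => ?_⟩
  have hi' : i < 4 := hi
  interval_cases i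
  · exact clchk_ok cl6_0
  · exact clchk_ok cl6_1
  · exact clchk_ok cl6_2
  · exact clchk_ok cl6_3
theorem cl7_0 : clchk 7 0 = true := by decide +kernel
theorem a7_0 : allP (au 7 0) (auchk 7 0) = true := by decide +kernel
theorem cl7_1 : clchk 7 1 = true := by decide +kernel
theorem a7_1 : allP (au 7 1) (auchk 7 1) = true := by decide +kernel
theorem cl7_2 : clchk 7 2 = true := by decide +kernel
theorem a7_2 : allP (au 7 2) (auchk 7 2) = true := by decide +kernel
theorem cl7_3 : clchk 7 3 = true := by decide +kernel
theorem a7_3 : allP (au 7 3) (auchk 7 3) = true := by decide +kernel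
theorem cl7_4 : clchk 7 4 = true := by decide +kernel
theorem a7_4 : allP (au 7 4) (auchk 7 4) = true := by decide +kernel
theorem cl7_5 : clchk 7 5 = true := by decide +kernel
theorem a7_5 : allP (au 7 5) (auchk 7 5) = true := by decide +kernel
theorem cl7_6 : clchk 7 6 = true := by decide +kernel
theorem a7_6 : allP (au 7 6) (auchk 7 6) = true := by decide +kernel
theorem cl7_7 : clchk 7 7 = true := by decide +kernel
theorem a7_7 : allP (au 7 7) (auchk 7 7) = true := by decide +kernel
theorem cl7_8 : clchk 7 8 = true := by decide +kernel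
theorem a7_8 : allP (au 7 8) (auchk 7 8) = true := by decide +kernel

theorem class7 : ClassOK 7 := by
  refine ⟨by decide, fun i hi => ?_⟩
  have hi' : i < 9 := hi
  interval_cases i
  · exact clchk_ok cl7_0
  · exact clchk_ok cl7_1
  · exact clchk_ok cl7_2
  · exact clchk_ok cl7_3
  · exact clchk_ok cl7_4
  · exact clchk_ok cl7_5
  · exact clchk_ok cl7_6
  · exact clchk_ok cl7_7
  · exact clchk_ok cl7_8

end Pool.Agent.TH405.CW
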