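import Pool.Agent.TH405.CW.Chk
import Pool.Agent.TH405.CW.Dat

/-! Evaluation of gluings. -/

set_option autoImplicit false
set_option maxRecDepth 100000

namespace Pool.Agent.TH405.CW

theorem m3_3_1_0_0 : mainC 3 3 4 2 4 4 16 16 (XLf 3 1 1) (tl 3 3 1 0)
    (YLf 3 1 0 0) = true := by decide +kernel
theorem m4_3_1_0_0 : mainC 4 3 5 3 4 16 16 64 (XLf 4 1 1) (tl 4 3 1 0)
    (YLf 3 1 0 0) = true := by decide +kernel
theorem m4_3_2_0_0 : mainC 4 3 3 2 16 4 4 64 (XLf 4 2 1) (tl 4 3 2 0)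
    (YLf 3 2 0 0) = true := by decide +kernel
theorem m4_4_1_0_0 : mainC 4 4 6 3 4 16 64 64 (XLf 4 1 1) (tl 4 4 1 0)
    (YLf 4 1 0 0) = true := by decide +kernel
theorem m4_4_2_0_0 : mainC 4 4 4 2 16 4 16 64 (XLf 4 2 1) (tl 4 4 2 0)
    (YLf 4 2 0 0) = true := by decide +kernel
theorem m5_3_1_0_0 : mainC 5 3 6 4 4 64 16 256 (XLf 5 1 2) (tl 5 3 1 0)
    (YLf 3 1 0 0) = true := by decide +kernel
theorem m5_3_2_0_0 : mainC 5 3 4 3 16 16 4 256 (XLf 5 2 2) (tl 5 3 2 0)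
    (YLf 3 2 0 0) = true := by decide +kernel
theorem m5_4_1_0_0 : mainC 5 4 7 4 4 64 64 256 (XLf 5 1 2) (tl 5 4 1 0)
    (YLf 4 1 0 0) = true := by decide +kernel
theorem m5_4_2_0_0 : mainC 5 4 5 3 16 16 16 256 (XLf 5 2 2) (tl 5 4 2 0)
    (YLf 4 2 0 0) = true := by decide +kernel
theorem m5_4_3_0_0 : mainC 5 4 3 2 64 4 4 256 (XLf 5 3 2) (tl 5 4 3 0)
    (YLf 4 3 0 0) = true := by decide +kernel
theorem m5_5_2_0_0 : mainC 5 5 6 3 16 16 64 256 (XLf 5 2 1) (tl 5 5 2 0)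
    (YLf 5 2 0 0) = true := by decide +kernel
theorem m5_5_2_1_0 : mainC 5 5 6 3 16 16 64 256 (XLf 5 2 2) (tl 5 5 2 1)
    (YLf 5 2 1 0) = true := by decide +kernel
theorem m5_5_3_0_0 : mainC 5 5 4 2 64 4 16 256 (XLf 5 3 1) (tl 5 5 3 0)
    (YLf 5 3 0 0) = true := by decide +kernel
theorem m5_5_3_1_0 : mainC 5 5 4 2 64 4 16 256 (XLf 5 3 2) (tl 5 5 3 1)
    (YLf 5 3 1 0) = true := by decide +kernel
theorem m6_3_1_0_0 : mainC 6 3 7 5 4 256 16 1024 (XLf 6 1 4) (tl 6 3 1 0)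
    (YLf 3 1 0 0) = true := by decide +kernel
theorem m6_3_2_0_0 : mainC 6 3 5 4 16 64 4 1024 (XLf 6 2 4) (tl 6 3 2 0)
    (YLf 3 2 0 0) = true := by decide +kernel
theorem m6_4_2_0_0 : mainC 6 4 6 4 16 64 16 1024 (XLf 6 2 4) (tl 6 4 2 0)
    (YLf 4 2 0 0) = true := by decide +kernel
theorem m6_4_3_0_0 : mainC 6 4 4 3 64 16 4 1024 (XLf 6 3 4) (tl 6 4 3 0)
    (YLf 4 3 0 0) = true := by decide +kernel
theorem m6_5_3_0_0 : mainC 6 5 5 3 64 16 16 1024 (XLf 6 3 4) (tl 6 5 3 0)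
    (YLf 5 3 0 0) = true := by decide +kernel
theorem m6_5_3_1_0 : mainC 6 5 5 3 64 16 16 1024 (XLf 6 3 4) (tl 6 5 3 1)
    (YLf 5 3 1 0) = true := by decide +kernel
theorem m6_5_4_0_0 : mainC 6 5 3 2 256 4 4 1024 (XLf 6 4 4) (tl 6 5 4 0)
    (YLf 5 4 0 0) = true := by decide +kernel
theorem m6_5_4_1_0 : mainC 6 5 3 2 256 4 4 1024 (XLf 6 4 4) (tl 6 5 4 1)
    (YLf 5 4 1 0) = true := by decide +kernel
theorem m6_6_4_0_0 : mainC 6 6 4 2 256 4 16 1024 (XLf 6 4 1) (tl 6 6 4 0)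
    (YLf 6 4 0 0) = true := by decide +kernel
theorem m6_6_4_1_0 : mainC 6 6 4 2 256 4 16 1024 (XLf 6 4 2) (tl 6 6 4 1)
    (YLf 6 4 1 0) = true := by decide +kernel
theorem m6_6_4_2_0 : mainC 6 6 4 2 256 4 16 1024 (XLf 6 4 3) (tl 6 6 4 2)
    (YLf 6 4 2 0) = true := by decide +kernel
theorem m6_6_4_3_0 : mainC 6 6 4 2 256 4 16 1024 (XLf 6 4 4) (tl 6 6 4 3)
    (YLf 6 4 3 0) = true := by decide +kernel

end Pool.Agent.TH405.CW
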