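import Pool.Agent.TH405.CW.Chk
import Pool.Agent.TH405.CW.Dat

/-! Evaluation of gluings. -/

set_option autoImplicit false
set_option maxRecDepth 100000

namespace Pool.Agent.TH405.CW

theorem m6_5_2_0_0 : mainC 6 5 7 4 16 64 64 1024 (XLf 6 2 4) (tl 6 5 2 0)
    (YLf 5 2 0 0) = true := by decide +kernel
theorem m6_5_2_1_0 : mainC 6 5 7 4 16 64 64 1024 (XLf 6 2 4) (tl 6 5 2 1)
    (YLf 5 2 1 0) = true := by decide +kernel

end Pool.Agent.TH405.CW
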