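import Pool.Agent.TH405.CW.Chk
import Pool.Agent.TH405.CW.Dat

/-! Evaluation of gluings. -/

set_option autoImplicit false
set_option maxRecDepth 100000

namespace Pool.Agent.TH405.CW

theorem m6_6_3_0_0 : mainC 6 6 6 3 64 16 64 1024 (XLf 6 3 1) (tl 6 6 3 0)
    (YLf 6 3 0 0) = true := by decide +kernel
theorem m6_6_3_1_0 : mainC 6 6 6 3 64 16 64 1024 (XLf 6 3 2) (tl 6 6 3 1)
    (YLf 6 3 1 0) = true := by decide +kernel
theorem m6_6_3_2_0 : mainC 6 6 6 3 64 16 64 1024 (XLf 6 3 3) (tl 6 6 3 2)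
    (YLf 6 3 2 0) = true := by decide +kernel
theorem m6_6_3_3_0 : mainC 6 6 6 3 64 16 64 1024 (XLf 6 3 4) (tl 6 6 3 3)
    (YLf 6 3 3 0) = true := by decide +kernel

end Pool.Agent.TH405.CW
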