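import Pool.Agent.TH405.CW.Chk
import Pool.Agent.TH405.CW.Dat

/-! Evaluation of gluings. -/

set_option autoImplicit false
set_option maxRecDepth 100000

namespace Pool.Agent.TH405.CW

theorem m7_7_4_3_0 : mainC 7 7 6 3 256 16 64 4096 (XLf 7 4 4) (tl 7 7 4 3)
    (YLf 7 4 3 0) = true := by decide +kernel

end Pool.Agent.TH405.CW
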