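import Pool.Agent.TH405.CW.Chk
import Pool.Agent.TH405.CW.Dat

/-! Evaluation of gluings. -/

set_option autoImplicit false
set_option maxRecDepth 100000

namespace Pool.Agent.TH405.CW

theorem m7_7_5_0_0 : mainC 7 7 4 2 1024 4 16 4096 (XLf 7 5 1) (tl 7 7 5 0)
    (YLf 7 5 0 0) = true := by decide +kernel
theorem m7_7_5_1_0 : mainC 7 7 4 2 1024 4 16 4096 (XLf 7 5 2) (tl 7 7 5 1)
    (YLf 7 5 1 0) = true := by decide +kernel
theorem m7_7_5_2_0 : mainC 7 7 4 2 1024 4 16 4096 (XLf 7 5 3) (tl 7 7 5 2)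
    (YLf 7 5 2 0) = true := by decide +kernel

end Pool.Agent.TH405.CW
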