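import Pool.Agent.TH405.CW.Acl

/-! Renumberings. -/

set_option autoImplicit false
set_option maxRecDepth 100000

namespace Pool.Agent.TH405.CW

theorem xr7_2_0 : XReach 7 2 0 (wx 7 2 0) :=
  xreach_of (allP_mem a7_0) (by decide +kernel) (by decide +kernel)
theorem xr7_2_1 : XReach 7 2 1 (wx 7 2 1) :=
  xreach_of (allP_mem a7_1) (by decide +kernel) (by decide +kernel)
theorem xr7_2_2 : XReach 7 2 2 (wx 7 2 2) :=
  xreach_of (allP_mem a7_2) (by decide +kernel) (by decide +kernel)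
theorem xr7_2_3 : XReach 7 2 3 (wx 7 2 3) :=
  xreach_of (allP_mem a7_3) (by decide +kernel) (by decide +kernel)
theorem xr7_2_4 : XReach 7 2 4 (wx 7 2 4) :=
  xreach_of (allP_mem a7_4) (by decide +kernel) (by decide +kernel)
theorem xr7_2_5 : XReach 7 2 5 (wx 7 2 5) :=
  xreach_of (allP_mem a7_5) (by decide +kernel) (by decide +kernel)
theorem xr7_2_6 : XReach 7 2 6 (wx 7 2 6) :=
  xreach_of (allP_mem a7_6) (by decide +kernel) (by decide +kernel)
theorem xr7_2_7 : XReach 7 2 7 (wx 7 2 7) :=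
  xreach_of (allP_mem a7_7) (by decide +kernel) (by decide +kernel)
theorem xr7_2_8 : XReach 7 2 8 (wx 7 2 8) :=
  xreach_of (allP_mem a7_8) (by decide +kernel) (by decide +kernel)
theorem xr7_2 : ∀ i < 9, XReach 7 2 i (wx 7 2 i) := by
  intro i hi
  interval_cases i
  · exact xr7_2_0
  · exact xr7_2_1
  · exact xr7_2_2
  · exact xr7_2_3
  · exact xr7_2_4
  · exact xr7_2_5
  · exact xr7_2_6
  · exact xr7_2_7
  · exact xr7_2_8

theorem xr7_3_0 : XReach 7 3 0 (wx 7 3 0) :=
  xreach_of (allP_mem a7_0) (by decide +kernel) (by decide +kernel)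
theorem xr7_3_1 : XReach 7 3 1 (wx 7 3 1) :=
  xreach_of (allP_mem a7_1) (by decide +kernel) (by decide +kernel)
theorem xr7_3_2 : XReach 7 3 2 (wx 7 3 2) :=
  xreach_of (allP_mem a7_2) (by decide +kernel) (by decide +kernel)
theorem xr7_3_3 : XReach 7 3 3 (wx 7 3 3) :=
  xreach_of (allP_mem a7_3) (by decide +kernel) (by decide +kernel)
theorem xr7_3_4 : XReach 7 3 4 (wx 7 3 4) :=
  xreach_of (allP_mem a7_4) (by decide +kernel) (by decide +kernel)
theorem xr7_3_5 : XReach 7 3 5 (wx 7 3 5) :=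
  xreach_of (allP_mem a7_5) (by decide +kernel) (by decide +kernel)
theorem xr7_3_6 : XReach 7 3 6 (wx 7 3 6) :=
  xreach_of (allP_mem a7_6) (by decide +kernel) (by decide +kernel)
theorem xr7_3_7 : XReach 7 3 7 (wx 7 3 7) :=
  xreach_of (allP_mem a7_7) (by decide +kernel) (by decide +kernel)
theorem xr7_3_8 : XReach 7 3 8 (wx 7 3 8) :=
  xreach_of (allP_mem a7_8) (by decide +kernel) (by decide +kernel)
theorem xr7_3 : ∀ i < 9, XReach 7 3 i (wx 7 3 i) := by
  intro i hi
  interval_cases i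
  · exact xr7_3_0
  · exact xr7_3_1
  · exact xr7_3_2
  · exact xr7_3_3
  · exact xr7_3_4
  · exact xr7_3_5
  · exact xr7_3_6
  · exact xr7_3_7
  · exact xr7_3_8


end Pool.Agent.TH405.CW
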