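import Pool.Agent.TH405.CW.Acl

/-! Renumberings. -/

set_option autoImplicit false
set_option maxRecDepth 100000

namespace Pool.Agent.TH405.CW

theorem yr7_5_3 : YReach 7 5 3 (wyc 7 5 3).flatten :=
  yreach_of (by decide) (by decide) (allP_mem a7_3) (by decide +kernel) (by decide +kernel)
theorem yr7_5_4 : YReach 7 5 4 (wyc 7 5 4).flatten :=
  yreach_of (by decide) (by decide) (allP_mem a7_4) (by decide +kernel) (by decide +kernel)
theorem yr7_5_5 : YReach 7 5 5 (wyc 7 5 5).flatten :=
  yreach_of (by decide) (by decide) (allP_mem a7_5) (by decide +kernel) (by decide +kernel)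

end Pool.Agent.TH405.CW
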