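import Pool.Agent.TH405.CW.Acl

/-! Renumberings. -/

set_option autoImplicit false
set_option maxRecDepth 100000

namespace Pool.Agent.TH405.CW

theorem xr7_4_0 : XReach 7 4 0 (wx 7 4 0) :=
  xreach_of (allP_mem a7_0) (by decide +kernel) (by decide +kernel)
theorem xr7_4_1 : XReach 7 4 1 (wx 7 4 1) :=
  xreach_of (allP_mem a7_1) (by decide +kernel) (by decide +kernel)
theorem xr7_4_2 : XReach 7 4 2 (wx 7 4 2) :=
  xreach_of (allP_mem a7_2) (by decide +kernel) (by decide +kernel)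
theorem xr7_4_3 : XReach 7 4 3 (wx 7 4 3) :=
  xreach_of (allP_mem a7_3) (by decide +kernel) (by decide +kernel)
theorem xr7_4_4 : XReach 7 4 4 (wx 7 4 4) :=
  xreach_of (allP_mem a7_4) (by decide +kernel) (by decide +kernel)
theorem xr7_4_5 : XReach 7 4 5 (wx 7 4 5) :=
  xreach_of (allP_mem a7_5) (by decide +kernel) (by decide +kernel)
theorem xr7_4_6 : XReach 7 4 6 (wx 7 4 6) :=
  xreach_of (allP_mem a7_6) (by decide +kernel) (by decide +kernel)
theorem xr7_4_7 : XReach 7 4 7 (wx 7 4 7) :=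
  xreach_of (allP_mem a7_7) (by decide +kernel) (by decide +kernel)
theorem xr7_4_8 : XReach 7 4 8 (wx 7 4 8) :=
  xreach_of (allP_mem a7_8) (by decide +kernel) (by decide +kernel)
theorem xr7_4 : ∀ i < 9, XReach 7 4 i (wx 7 4 i) := by
  intro i hi
  interval_cases i
  · exact xr7_4_0
  · exact xr7_4_1
  · exact xr7_4_2
  · exact xr7_4_3
  · exact xr7_4_4
  · exact xr7_4_5
  · exact xr7_4_6
  · exact xr7_4_7
  · exact xr7_4_8

theorem xr7_5_0 : XReach 7 5 0 (wx 7 5 0) :=
  xreach_of (allP_mem a7_0) (by decide +kernel) (by decide +kernel)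
theorem xr7_5_1 : XReach 7 5 1 (wx 7 5 1) :=
  xreach_of (allP_mem a7_1) (by decide +kernel) (by decide +kernel)
theorem xr7_5_2 : XReach 7 5 2 (wx 7 5 2) :=
  xreach_of (allP_mem a7_2) (by decide +kernel) (by decide +kernel)
theorem xr7_5_3 : XReach 7 5 3 (wx 7 5 3) :=
  xreach_of (allP_mem a7_3) (by decide +kernel) (by decide +kernel)
theorem xr7_5_4 : XReach 7 5 4 (wx 7 5 4) :=
  xreach_of (allP_mem a7_4) (by decide +kernel) (by decide +kernel)
theorem xr7_5_5 : XReach 7 5 5 (wx 7 5 5) :=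
  xreach_of (allP_mem a7_5) (by decide +kernel) (by decide +kernel)
theorem xr7_5_6 : XReach 7 5 6 (wx 7 5 6) :=
  xreach_of (allP_mem a7_6) (by decide +kernel) (by decide +kernel)
theorem xr7_5_7 : XReach 7 5 7 (wx 7 5 7) :=
  xreach_of (allP_mem a7_7) (by decide +kernel) (by decide +kernel)
theorem xr7_5_8 : XReach 7 5 8 (wx 7 5 8) :=
  xreach_of (allP_mem a7_8) (by decide +kernel) (by decide +kernel)
theorem xr7_5 : ∀ i < 9, XReach 7 5 i (wx 7 5 i) := by
  intro i hi
  interval_cases i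
  · exact xr7_5_0
  · exact xr7_5_1
  · exact xr7_5_2
  · exact xr7_5_3
  · exact xr7_5_4
  · exact xr7_5_5
  · exact xr7_5_6
  · exact xr7_5_7
  · exact xr7_5_8


end Pool.Agent.TH405.CW
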