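import Pool.Agent.TH405.CW.Acl

/-! Renumberings. -/

set_option autoImplicit false
set_option maxRecDepth 100000

namespace Pool.Agent.TH405.CW

theorem yr7_4_5 : YReach 7 4 5 (wyc 7 4 5).flatten :=
  yreach_of (by decide) (by decide) (allP_mem a7_5) (by decide +kernel) (by decide +kernel)
theorem yr7_4_6 : YReach 7 4 6 (wyc 7 4 6).flatten :=
  yreach_of (by decide) (by decide) (allP_mem a7_6) (by decide +kernel) (by decide +kernel)
theorem yr7_4_7 : YReach 7 4 7 (wyc 7 4 7).flatten :=
  yreach_of (by decide) (by decide) (allP_mem a7_7) (by decide +kernel) (by decide +kernel)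
theorem yr7_4_8 : YReach 7 4 8 (wyc 7 4 8).flatten :=
  yreach_of (by decide) (by decide) (allP_mem a7_8) (by decide +kernel) (by decide +kernel)

end Pool.Agent.TH405.CW
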