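import Pool.Agent.TH405.CW.R1
import Pool.Agent.TH405.CW.R2
import Pool.Agent.TH405.CW.R6
import Pool.Agent.TH405.CW.R7
import Pool.Agent.TH405.CW.R8
import Pool.Agent.TH405.CW.R3
import Pool.Agent.TH405.CW.R4
import Pool.Agent.TH405.CW.R5
import Pool.Agent.TH405.CW.M6
import Pool.Agent.TH405.CW.M652
import Pool.Agent.TH405.CW.M663
import Pool.Agent.TH405.CW.M732
import Pool.Agent.TH405.CW.M742
import Pool.Agent.TH405.CW.M743
import Pool.Agent.TH405.CW.M753
import Pool.Agent.TH405.CW.M754
import Pool.Agent.TH405.CW.M763_0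
import Pool.Agent.TH405.CW.M763_1
import Pool.Agent.TH405.CW.M763_2
import Pool.Agent.TH405.CW.M763_3
import Pool.Agent.TH405.CW.M764_0
import Pool.Agent.TH405.CW.M764_1
import Pool.Agent.TH405.CW.M765
import Pool.Agent.TH405.CW.M774_0
import Pool.Agent.TH405.CW.M774_1
import Pool.Agent.TH405.CW.M774_2
import Pool.Agent.TH405.CW.M774_3
import Pool.Agent.TH405.CW.M774_4
import Pool.Agent.TH405.CW.M774_5
import Pool.Agent.TH405.CW.M774_6
import Pool.Agent.TH405.CW.M774_7
import Pool.Agent.TH405.CW.M774_8
import Pool.Agent.TH405.CW.M774_9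
import Pool.Agent.TH405.CW.M774_10
import Pool.Agent.TH405.CW.M774_11
import Pool.Agent.TH405.CW.M774_12
import Pool.Agent.TH405.CW.M774_13
import Pool.Agent.TH405.CW.M774_14
import Pool.Agent.TH405.CW.M774_15
import Pool.Agent.TH405.CW.M774_16
import Pool.Agent.TH405.CW.M775_0
import Pool.Agent.TH405.CW.M775_1
import Pool.Agent.TH405.CW.M775_2
import Pool.Agent.TH405.CW.M775_3
import Pool.Agent.TH405.CW.M775_4
import Pool.Agent.TH405.CW.M775_5
import Pool.Agent.TH405.CW.M775_6
import Pool.Agent.TH405.CW.M775_7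
import Pool.Agent.TH405.CW.M775_8

/-! All tables. -/

set_option autoImplicit false
set_option maxRecDepth 100000

namespace Pool.Agent.TH405.CW

theorem P3_3_1 : ∀ i < 1, ∀ j < 1, (3 = 3 → i ≤ j) → TabPair 3 3 1 i j := by
  intro i hi j hj hij
  have hX := xr3_1 i hi
  interval_cases j
  · refine mk_pair (k := 4) (na := 2) (w := 4) (n1 := 4) (n2 := 16) (S := 16) (J := 1) (P := 1)
      (by norm_num) (by norm_num) rfl rfl (by norm_num) (by norm_num) (by norm_num) (by norm_num) (by have := hij rfl; omega)
      hX yr3_1_0 (by decide +kernel) rfl ?_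
    intro p hp
    interval_cases p
    · exact m3_3_1_0_0

theorem P4_3_1 : ∀ i < 1, ∀ j < 1, (4 = 3 → i ≤ j) → TabPair 4 3 1 i j := by
  intro i hi j hj hij
  have hX := xr4_1 i hi
  interval_cases j
  · refine mk_pair (k := 5) (na := 3) (w := 4) (n1 := 16) (n2 := 16) (S := 64) (J := 1) (P := 1)
      (by norm_num) (by norm_num) rfl rfl (by norm_num) (by norm_num) (by norm_num) (by norm_num) hi
      hX yr3_1_0 (by decide +kernel) rfl ?_
    intro p hp
    interval_cases p
    · exact m4_3_1_0_0

theorem P4_3_2 : ∀ i < 1, ∀ j < 1, (4 = 3 → i ≤ j) → TabPair 4 3 2 i j := by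
  intro i hi j hj hij
  have hX := xr4_2 i hi
  interval_cases j
  · refine mk_pair (k := 3) (na := 2) (w := 16) (n1 := 4) (n2 := 4) (S := 64) (J := 1) (P := 1)
      (by norm_num) (by norm_num) rfl rfl (by norm_num) (by norm_num) (by norm_num) (by norm_num) hi
      hX yr3_2_0 (by decide +kernel) rfl ?_
    intro p hp
    interval_cases p
    · exact m4_3_2_0_0

theorem P4_4_1 : ∀ i < 1, ∀ j < 1, (4 = 4 → i ≤ j) → TabPair 4 4 1 i j := by
  intro i hi j hj hij
  have hX := xr4_1 i hi
  interval_cases j
  · refine mk_pair (k := 6) (na := 3) (w := 4) (n1 := 16) (n2 := 64) (S := 64) (J := 1) (P := 1)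
      (by norm_num) (by norm_num) rfl rfl (by norm_num) (by norm_num) (by norm_num) (by norm_num) (by have := hij rfl; omega)
      hX yr4_1_0 (by decide +kernel) rfl ?_
    intro p hp
    interval_cases p
    · exact m4_4_1_0_0

theorem P4_4_2 : ∀ i < 1, ∀ j < 1, (4 = 4 → i ≤ j) → TabPair 4 4 2 i j := by
  intro i hi j hj hij
  have hX := xr4_2 i hi
  interval_cases j
  · refine mk_pair (k := 4) (na := 2) (w := 16) (n1 := 4) (n2 := 16) (S := 64) (J := 1) (P := 1)
      (by norm_num) (by norm_num) rfl rfl (by norm_num) (by norm_num) (by norm_num) (by norm_num) (by have := hij rfl; omega)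
      hX yr4_2_0 (by decide +kernel) rfl ?_
    intro p hp
    interval_cases p
    · exact m4_4_2_0_0

theorem P5_3_1 : ∀ i < 2, ∀ j < 1, (5 = 3 → i ≤ j) → TabPair 5 3 1 i j := by
  intro i hi j hj hij
  have hX := xr5_1 i hi
  interval_cases j
  · refine mk_pair (k := 6) (na := 4) (w := 4) (n1 := 64) (n2 := 16) (S := 256) (J := 2) (P := 1)
      (by norm_num) (by norm_num) rfl rfl (by norm_num) (by norm_num) (by norm_num) (by norm_num) hi
      hX yr3_1_0 (by decide +kernel) rfl ?_
    intro p hp
    interval_cases p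
    · exact m5_3_1_0_0

theorem P5_3_2 : ∀ i < 2, ∀ j < 1, (5 = 3 → i ≤ j) → TabPair 5 3 2 i j := by
  intro i hi j hj hij
  have hX := xr5_2 i hi
  interval_cases j
  · refine mk_pair (k := 4) (na := 3) (w := 16) (n1 := 16) (n2 := 4) (S := 256) (J := 2) (P := 1)
      (by norm_num) (by norm_num) rfl rfl (by norm_num) (by norm_num) (by norm_num) (by norm_num) hi
      hX yr3_2_0 (by decide +kernel) rfl ?_
    intro p hp
    interval_cases p
    · exact m5_3_2_0_0

theorem P5_4_1 : ∀ i < 2, ∀ j < 1, (5 = 4 → i ≤ j) → TabPair 5 4 1 i j := by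
  intro i hi j hj hij
  have hX := xr5_1 i hi
  interval_cases j
  · refine mk_pair (k := 7) (na := 4) (w := 4) (n1 := 64) (n2 := 64) (S := 256) (J := 2) (P := 1)
      (by norm_num) (by norm_num) rfl rfl (by norm_num) (by norm_num) (by norm_num) (by norm_num) hi
      hX yr4_1_0 (by decide +kernel) rfl ?_
    intro p hp
    interval_cases p
    · exact m5_4_1_0_0

theorem P5_4_2 : ∀ i < 2, ∀ j < 1, (5 = 4 → i ≤ j) → TabPair 5 4 2 i j := by
  intro i hi j hj hij
  have hX := xr5_2 i hi
  interval_cases j
  · refine mk_pair (k := 5) (na := 3) (w := 16) (n1 := 16) (n2 := 16) (S := 256) (J := 2) (P := 1)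
      (by norm_num) (by norm_num) rfl rfl (by norm_num) (by norm_num) (by norm_num) (by norm_num) hi
      hX yr4_2_0 (by decide +kernel) rfl ?_
    intro p hp
    interval_cases p
    · exact m5_4_2_0_0

theorem P5_4_3 : ∀ i < 2, ∀ j < 1, (5 = 4 → i ≤ j) → TabPair 5 4 3 i j := by
  intro i hi j hj hij
  have hX := xr5_3 i hi
  interval_cases j
  · refine mk_pair (k := 3) (na := 2) (w := 64) (n1 := 4) (n2 := 4) (S := 256) (J := 2) (P := 1)
      (by norm_num) (by norm_num) rfl rfl (by norm_num) (by norm_num) (by norm_num) (by norm_num) hi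
      hX yr4_3_0 (by decide +kernel) rfl ?_
    intro p hp
    interval_cases p
    · exact m5_4_3_0_0

theorem P5_5_2 : ∀ i < 2, ∀ j < 2, (5 = 5 → i ≤ j) → TabPair 5 5 2 i j := by
  intro i hi j hj hij
  have hX := xr5_2 i hi
  interval_cases j
  · refine mk_pair (k := 6) (na := 3) (w := 16) (n1 := 16) (n2 := 64) (S := 256) (J := 1) (P := 1)
      (by norm_num) (by norm_num) rfl rfl (by norm_num) (by norm_num) (by norm_num) (by norm_num) (by have := hij rfl; omega)
      hX yr5_2_0 (by decide +kernel) rfl ?_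
    intro p hp
    interval_cases p
    · exact m5_5_2_0_0
  · refine mk_pair (k := 6) (na := 3) (w := 16) (n1 := 16) (n2 := 64) (S := 256) (J := 2) (P := 1)
      (by norm_num) (by norm_num) rfl rfl (by norm_num) (by norm_num) (by norm_num) (by norm_num) (by have := hij rfl; omega)
      hX yr5_2_1 (by decide +kernel) rfl ?_
    intro p hp
    interval_cases p
    · exact m5_5_2_1_0

theorem P5_5_3 : ∀ i < 2, ∀ j < 2, (5 = 5 → i ≤ j) → TabPair 5 5 3 i j := by
  intro i hi j hj hij
  have hX := xr5_3 i hi
  interval_cases j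
  · refine mk_pair (k := 4) (na := 2) (w := 64) (n1 := 4) (n2 := 16) (S := 256) (J := 1) (P := 1)
      (by norm_num) (by norm_num) rfl rfl (by norm_num) (by norm_num) (by norm_num) (by norm_num) (by have := hij rfl; omega)
      hX yr5_3_0 (by decide +kernel) rfl ?_
    intro p hp
    interval_cases p
    · exact m5_5_3_0_0
  · refine mk_pair (k := 4) (na := 2) (w := 64) (n1 := 4) (n2 := 16) (S := 256) (J := 2) (P := 1)
      (by norm_num) (by norm_num) rfl rfl (by norm_num) (by norm_num) (by norm_num) (by norm_num) (by have := hij rfl; omega)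
      hX yr5_3_1 (by decide +kernel) rfl ?_
    intro p hp
    interval_cases p
    · exact m5_5_3_1_0

theorem P6_3_1 : ∀ i < 4, ∀ j < 1, (6 = 3 → i ≤ j) → TabPair 6 3 1 i j := by
  intro i hi j hj hij
  have hX := xr6_1 i hi
  interval_cases j
  · refine mk_pair (k := 7) (na := 5) (w := 4) (n1 := 256) (n2 := 16) (S := 1024) (J := 4) (P := 1)
      (by norm_num) (by norm_num) rfl rfl (by norm_num) (by norm_num) (by norm_num) (by norm_num) hi
      hX yr3_1_0 (by decide +kernel) rfl ?_
    intro p hp
    interval_cases p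
    · exact m6_3_1_0_0

theorem P6_3_2 : ∀ i < 4, ∀ j < 1, (6 = 3 → i ≤ j) → TabPair 6 3 2 i j := by
  intro i hi j hj hij
  have hX := xr6_2 i hi
  interval_cases j
  · refine mk_pair (k := 5) (na := 4) (w := 16) (n1 := 64) (n2 := 4) (S := 1024) (J := 4) (P := 1)
      (by norm_num) (by norm_num) rfl rfl (by norm_num) (by norm_num) (by norm_num) (by norm_num) hi
      hX yr3_2_0 (by decide +kernel) rfl ?_
    intro p hp
    interval_cases p
    · exact m6_3_2_0_0

theorem P6_4_2 : ∀ i < 4, ∀ j < 1, (6 = 4 → i ≤ j) → TabPair 6 4 2 i j := by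
  intro i hi j hj hij
  have hX := xr6_2 i hi
  interval_cases j
  · refine mk_pair (k := 6) (na := 4) (w := 16) (n1 := 64) (n2 := 16) (S := 1024) (J := 4) (P := 1)
      (by norm_num) (by norm_num) rfl rfl (by norm_num) (by norm_num) (by norm_num) (by norm_num) hi
      hX yr4_2_0 (by decide +kernel) rfl ?_
    intro p hp
    interval_cases p
    · exact m6_4_2_0_0

theorem P6_4_3 : ∀ i < 4, ∀ j < 1, (6 = 4 → i ≤ j) → TabPair 6 4 3 i j := by
  intro i hi j hj hij
  have hX := xr6_3 i hi
  interval_cases j
  · refine mk_pair (k := 4) (na := 3) (w := 64) (n1 := 16) (n2 := 4) (S := 1024) (J := 4) (P := 1)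
      (by norm_num) (by norm_num) rfl rfl (by norm_num) (by norm_num) (by norm_num) (by norm_num) hi
      hX yr4_3_0 (by decide +kernel) rfl ?_
    intro p hp
    interval_cases p
    · exact m6_4_3_0_0

theorem P6_5_2 : ∀ i < 4, ∀ j < 2, (6 = 5 → i ≤ j) → TabPair 6 5 2 i j := by
  intro i hi j hj hij
  have hX := xr6_2 i hi
  interval_cases j
  · refine mk_pair (k := 7) (na := 4) (w := 16) (n1 := 64) (n2 := 64) (S := 1024) (J := 4) (P := 1)
      (by norm_num) (by norm_num) rfl rfl (by norm_num) (by norm_num) (by norm_num) (by norm_num) hi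
      hX yr5_2_0 (by decide +kernel) rfl ?_
    intro p hp
    interval_cases p
    · exact m6_5_2_0_0
  · refine mk_pair (k := 7) (na := 4) (w := 16) (n1 := 64) (n2 := 64) (S := 1024) (J := 4) (P := 1)
      (by norm_num) (by norm_num) rfl rfl (by norm_num) (by norm_num) (by norm_num) (by norm_num) hi
      hX yr5_2_1 (by decide +kernel) rfl ?_
    intro p hp
    interval_cases p
    · exact m6_5_2_1_0

theorem P6_5_3 : ∀ i < 4, ∀ j < 2, (6 = 5 → i ≤ j) → TabPair 6 5 3 i j := by
  intro i hi j hj hij
  have hX := xr6_3 i hi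
  interval_cases j
  · refine mk_pair (k := 5) (na := 3) (w := 64) (n1 := 16) (n2 := 16) (S := 1024) (J := 4) (P := 1)
      (by norm_num) (by norm_num) rfl rfl (by norm_num) (by norm_num) (by norm_num) (by norm_num) hi
      hX yr5_3_0 (by decide +kernel) rfl ?_
    intro p hp
    interval_cases p
    · exact m6_5_3_0_0
  · refine mk_pair (k := 5) (na := 3) (w := 64) (n1 := 16) (n2 := 16) (S := 1024) (J := 4) (P := 1)
      (by norm_num) (by norm_num) rfl rfl (by norm_num) (by norm_num) (by norm_num) (by norm_num) hi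
      hX yr5_3_1 (by decide +kernel) rfl ?_
    intro p hp
    interval_cases p
    · exact m6_5_3_1_0

theorem P6_5_4 : ∀ i < 4, ∀ j < 2, (6 = 5 → i ≤ j) → TabPair 6 5 4 i j := by
  intro i hi j hj hij
  have hX := xr6_4 i hi
  interval_cases j
  · refine mk_pair (k := 3) (na := 2) (w := 256) (n1 := 4) (n2 := 4) (S := 1024) (J := 4) (P := 1)
      (by norm_num) (by norm_num) rfl rfl (by norm_num) (by norm_num) (by norm_num) (by norm_num) hi
      hX yr5_4_0 (by decide +kernel) rfl ?_
    intro p hp
    interval_cases p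
    · exact m6_5_4_0_0
  · refine mk_pair (k := 3) (na := 2) (w := 256) (n1 := 4) (n2 := 4) (S := 1024) (J := 4) (P := 1)
      (by norm_num) (by norm_num) rfl rfl (by norm_num) (by norm_num) (by norm_num) (by norm_num) hi
      hX yr5_4_1 (by decide +kernel) rfl ?_
    intro p hp
    interval_cases p
    · exact m6_5_4_1_0

theorem P6_6_3 : ∀ i < 4, ∀ j < 4, (6 = 6 → i ≤ j) → TabPair 6 6 3 i j := by
  intro i hi j hj hij
  have hX := xr6_3 i hi
  interval_cases j
  · refine mk_pair (k := 6) (na := 3) (w := 64) (n1 := 16) (n2 := 64) (S := 1024) (J := 1) (P := 1)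
      (by norm_num) (by norm_num) rfl rfl (by norm_num) (by norm_num) (by norm_num) (by norm_num) (by have := hij rfl; omega)
      hX yr6_3_0 (by decide +kernel) rfl ?_
    intro p hp
    interval_cases p
    · exact m6_6_3_0_0
  · refine mk_pair (k := 6) (na := 3) (w := 64) (n1 := 16) (n2 := 64) (S := 1024) (J := 2) (P := 1)
      (by norm_num) (by norm_num) rfl rfl (by norm_num) (by norm_num) (by norm_num) (by norm_num) (by have := hij rfl; omega)
      hX yr6_3_1 (by decide +kernel) rfl ?_
    intro p hp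
    interval_cases p
    · exact m6_6_3_1_0
  · refine mk_pair (k := 6) (na := 3) (w := 64) (n1 := 16) (n2 := 64) (S := 1024) (J := 3) (P := 1)
      (by norm_num) (by norm_num) rfl rfl (by norm_num) (by norm_num) (by norm_num) (by norm_num) (by have := hij rfl; omega)
      hX yr6_3_2 (by decide +kernel) rfl ?_
    intro p hp
    interval_cases p
    · exact m6_6_3_2_0
  · refine mk_pair (k := 6) (na := 3) (w := 64) (n1 := 16) (n2 := 64) (S := 1024) (J := 4) (P := 1)
      (by norm_num) (by norm_num) rfl rfl (by norm_num) (by norm_num) (by norm_num) (by norm_num) (by have := hij rfl; omega)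
      hX yr6_3_3 (by decide +kernel) rfl ?_
    intro p hp
    interval_cases p
    · exact m6_6_3_3_0

theorem P6_6_4 : ∀ i < 4, ∀ j < 4, (6 = 6 → i ≤ j) → TabPair 6 6 4 i j := by
  intro i hi j hj hij
  have hX := xr6_4 i hi
  interval_cases j
  · refine mk_pair (k := 4) (na := 2) (w := 256) (n1 := 4) (n2 := 16) (S := 1024) (J := 1) (P := 1)
      (by norm_num) (by norm_num) rfl rfl (by norm_num) (by norm_num) (by norm_num) (by norm_num) (by have := hij rfl; omega)
      hX yr6_4_0 (by decide +kernel) rfl ?_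
    intro p hp
    interval_cases p
    · exact m6_6_4_0_0
  · refine mk_pair (k := 4) (na := 2) (w := 256) (n1 := 4) (n2 := 16) (S := 1024) (J := 2) (P := 1)
      (by norm_num) (by norm_num) rfl rfl (by norm_num) (by norm_num) (by norm_num) (by norm_num) (by have := hij rfl; omega)
      hX yr6_4_1 (by decide +kernel) rfl ?_
    intro p hp
    interval_cases p
    · exact m6_6_4_1_0
  · refine mk_pair (k := 4) (na := 2) (w := 256) (n1 := 4) (n2 := 16) (S := 1024) (J := 3) (P := 1)
      (by norm_num) (by norm_num) rfl rfl (by norm_num) (by norm_num) (by norm_num) (by norm_num) (by have := hij rfl; omega)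
      hX yr6_4_2 (by decide +kernel) rfl ?_
    intro p hp
    interval_cases p
    · exact m6_6_4_2_0
  · refine mk_pair (k := 4) (na := 2) (w := 256) (n1 := 4) (n2 := 16) (S := 1024) (J := 4) (P := 1)
      (by norm_num) (by norm_num) rfl rfl (by norm_num) (by norm_num) (by norm_num) (by norm_num) (by have := hij rfl; omega)
      hX yr6_4_3 (by decide +kernel) rfl ?_
    intro p hp
    interval_cases p
    · exact m6_6_4_3_0

theorem P7_3_2 : ∀ i < 9, ∀ j < 1, (7 = 3 → i ≤ j) → TabPair 7 3 2 i j := by
  intro i hi j hj hij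
  have hX := xr7_2 i hi
  interval_cases j
  · refine mk_pair (k := 6) (na := 5) (w := 16) (n1 := 256) (n2 := 4) (S := 4096) (J := 9) (P := 1)
      (by norm_num) (by norm_num) rfl rfl (by norm_num) (by norm_num) (by norm_num) (by norm_num) hi
      hX yr3_2_0 (by decide +kernel) rfl ?_
    intro p hp
    interval_cases p
    · exact m7_3_2_0_0

theorem P7_4_2 : ∀ i < 9, ∀ j < 1, (7 = 4 → i ≤ j) → TabPair 7 4 2 i j := by
  intro i hi j hj hij
  have hX := xr7_2 i hi
  interval_cases j
  · refine mk_pair (k := 7) (na := 5) (w := 16) (n1 := 256) (n2 := 16) (S := 4096) (J := 9) (P := 1)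
      (by norm_num) (by norm_num) rfl rfl (by norm_num) (by norm_num) (by norm_num) (by norm_num) hi
      hX yr4_2_0 (by decide +kernel) rfl ?_
    intro p hp
    interval_cases p
    · exact m7_4_2_0_0

theorem P7_4_3 : ∀ i < 9, ∀ j < 1, (7 = 4 → i ≤ j) → TabPair 7 4 3 i j := by
  intro i hi j hj hij
  have hX := xr7_3 i hi
  interval_cases j
  · refine mk_pair (k := 5) (na := 4) (w := 64) (n1 := 64) (n2 := 4) (S := 4096) (J := 9) (P := 1)
      (by norm_num) (by norm_num) rfl rfl (by norm_num) (by norm_num) (by norm_num) (by norm_num) hi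
      hX yr4_3_0 (by decide +kernel) rfl ?_
    intro p hp
    interval_cases p
    · exact m7_4_3_0_0

theorem P7_5_3 : ∀ i < 9, ∀ j < 2, (7 = 5 → i ≤ j) → TabPair 7 5 3 i j := by
  intro i hi j hj hij
  have hX := xr7_3 i hi
  interval_cases j
  · refine mk_pair (k := 6) (na := 4) (w := 64) (n1 := 64) (n2 := 16) (S := 4096) (J := 9) (P := 1)
      (by norm_num) (by norm_num) rfl rfl (by norm_num) (by norm_num) (by norm_num) (by norm_num) hi
      hX yr5_3_0 (by decide +kernel) rfl ?_
    intro p hp
    interval_cases p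
    · exact m7_5_3_0_0
  · refine mk_pair (k := 6) (na := 4) (w := 64) (n1 := 64) (n2 := 16) (S := 4096) (J := 9) (P := 1)
      (by norm_num) (by norm_num) rfl rfl (by norm_num) (by norm_num) (by norm_num) (by norm_num) hi
      hX yr5_3_1 (by decide +kernel) rfl ?_
    intro p hp
    interval_cases p
    · exact m7_5_3_1_0

theorem P7_5_4 : ∀ i < 9, ∀ j < 2, (7 = 5 → i ≤ j) → TabPair 7 5 4 i j := by
  intro i hi j hj hij
  have hX := xr7_4 i hi
  interval_cases j
  · refine mk_pair (k := 4) (na := 3) (w := 256) (n1 := 16) (n2 := 4) (S := 4096) (J := 9) (P := 1)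
      (by norm_num) (by norm_num) rfl rfl (by norm_num) (by norm_num) (by norm_num) (by norm_num) hi
      hX yr5_4_0 (by decide +kernel) rfl ?_
    intro p hp
    interval_cases p
    · exact m7_5_4_0_0
  · refine mk_pair (k := 4) (na := 3) (w := 256) (n1 := 16) (n2 := 4) (S := 4096) (J := 9) (P := 1)
      (by norm_num) (by norm_num) rfl rfl (by norm_num) (by norm_num) (by norm_num) (by norm_num) hi
      hX yr5_4_1 (by decide +kernel) rfl ?_
    intro p hp
    interval_cases p
    · exact m7_5_4_1_0

theorem P7_6_3 : ∀ i < 9, ∀ j < 4, (7 = 6 → i ≤ j) → TabPair 7 6 3 i j := by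
  intro i hi j hj hij
  have hX := xr7_3 i hi
  interval_cases j
  · refine mk_pair (k := 7) (na := 4) (w := 64) (n1 := 64) (n2 := 64) (S := 4096) (J := 9) (P := 1)
      (by norm_num) (by norm_num) rfl rfl (by norm_num) (by norm_num) (by norm_num) (by norm_num) hi
      hX yr6_3_0 (by decide +kernel) rfl ?_
    intro p hp
    interval_cases p
    · exact m7_6_3_0_0
  · refine mk_pair (k := 7) (na := 4) (w := 64) (n1 := 64) (n2 := 64) (S := 4096) (J := 9) (P := 1)
      (by norm_num) (by norm_num) rfl rfl (by norm_num) (by norm_num) (by norm_num) (by norm_num) hi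
      hX yr6_3_1 (by decide +kernel) rfl ?_
    intro p hp
    interval_cases p
    · exact m7_6_3_1_0
  · refine mk_pair (k := 7) (na := 4) (w := 64) (n1 := 64) (n2 := 64) (S := 4096) (J := 9) (P := 1)
      (by norm_num) (by norm_num) rfl rfl (by norm_num) (by norm_num) (by norm_num) (by norm_num) hi
      hX yr6_3_2 (by decide +kernel) rfl ?_
    intro p hp
    interval_cases p
    · exact m7_6_3_2_0
  · refine mk_pair (k := 7) (na := 4) (w := 64) (n1 := 64) (n2 := 64) (S := 4096) (J := 9) (P := 1)
      (by norm_num) (by norm_num) rfl rfl (by norm_num) (by norm_num) (by norm_num) (by norm_num) hi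
      hX yr6_3_3 (by decide +kernel) rfl ?_
    intro p hp
    interval_cases p
    · exact m7_6_3_3_0

theorem P7_6_4 : ∀ i < 9, ∀ j < 4, (7 = 6 → i ≤ j) → TabPair 7 6 4 i j := by
  intro i hi j hj hij
  have hX := xr7_4 i hi
  interval_cases j
  · refine mk_pair (k := 5) (na := 3) (w := 256) (n1 := 16) (n2 := 16) (S := 4096) (J := 9) (P := 1)
      (by norm_num) (by norm_num) rfl rfl (by norm_num) (by norm_num) (by norm_num) (by norm_num) hi
      hX yr6_4_0 (by decide +kernel) rfl ?_
    intro p hp
    interval_cases p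
    · exact m7_6_4_0_0
  · refine mk_pair (k := 5) (na := 3) (w := 256) (n1 := 16) (n2 := 16) (S := 4096) (J := 9) (P := 1)
      (by norm_num) (by norm_num) rfl rfl (by norm_num) (by norm_num) (by norm_num) (by norm_num) hi
      hX yr6_4_1 (by decide +kernel) rfl ?_
    intro p hp
    interval_cases p
    · exact m7_6_4_1_0
  · refine mk_pair (k := 5) (na := 3) (w := 256) (n1 := 16) (n2 := 16) (S := 4096) (J := 9) (P := 1)
      (by norm_num) (by norm_num) rfl rfl (by norm_num) (by norm_num) (by norm_num) (by norm_num) hi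
      hX yr6_4_2 (by decide +kernel) rfl ?_
    intro p hp
    interval_cases p
    · exact m7_6_4_2_0
  · refine mk_pair (k := 5) (na := 3) (w := 256) (n1 := 16) (n2 := 16) (S := 4096) (J := 9) (P := 1)
      (by norm_num) (by norm_num) rfl rfl (by norm_num) (by norm_num) (by norm_num) (by norm_num) hi
      hX yr6_4_3 (by decide +kernel) rfl ?_
    intro p hp
    interval_cases p
    · exact m7_6_4_3_0

theorem P7_6_5 : ∀ i < 9, ∀ j < 4, (7 = 6 → i ≤ j) → TabPair 7 6 5 i j := by
  intro i hi j hj hij
  have hX := xr7_5 i hi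
  interval_cases j
  · refine mk_pair (k := 3) (na := 2) (w := 1024) (n1 := 4) (n2 := 4) (S := 4096) (J := 9) (P := 1)
      (by norm_num) (by norm_num) rfl rfl (by norm_num) (by norm_num) (by norm_num) (by norm_num) hi
      hX yr6_5_0 (by decide +kernel) rfl ?_
    intro p hp
    interval_cases p
    · exact m7_6_5_0_0
  · refine mk_pair (k := 3) (na := 2) (w := 1024) (n1 := 4) (n2 := 4) (S := 4096) (J := 9) (P := 1)
      (by norm_num) (by norm_num) rfl rfl (by norm_num) (by norm_num) (by norm_num) (by norm_num) hi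
      hX yr6_5_1 (by decide +kernel) rfl ?_
    intro p hp
    interval_cases p
    · exact m7_6_5_1_0
  · refine mk_pair (k := 3) (na := 2) (w := 1024) (n1 := 4) (n2 := 4) (S := 4096) (J := 9) (P := 1)
      (by norm_num) (by norm_num) rfl rfl (by norm_num) (by norm_num) (by norm_num) (by norm_num) hi
      hX yr6_5_2 (by decide +kernel) rfl ?_
    intro p hp
    interval_cases p
    · exact m7_6_5_2_0
  · refine mk_pair (k := 3) (na := 2) (w := 1024) (n1 := 4) (n2 := 4) (S := 4096) (J := 9) (P := 1)
      (by norm_num) (by norm_num) rfl rfl (by norm_num) (by norm_num) (by norm_num) (by norm_num) hi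
      hX yr6_5_3 (by decide +kernel) rfl ?_
    intro p hp
    interval_cases p
    · exact m7_6_5_3_0

theorem P7_7_4 : ∀ i < 9, ∀ j < 9, (7 = 7 → i ≤ j) → TabPair 7 7 4 i j := by
  intro i hi j hj hij
  have hX := xr7_4 i hi
  interval_cases j
  · refine mk_pair (k := 6) (na := 3) (w := 256) (n1 := 16) (n2 := 64) (S := 4096) (J := 1) (P := 1)
      (by norm_num) (by norm_num) rfl rfl (by norm_num) (by norm_num) (by norm_num) (by norm_num) (by have := hij rfl; omega)
      hX yr7_4_0 (by decide +kernel) rfl ?_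
    intro p hp
    interval_cases p
    · exact m7_7_4_0_0
  · refine mk_pair (k := 6) (na := 3) (w := 256) (n1 := 16) (n2 := 64) (S := 4096) (J := 2) (P := 1)
      (by norm_num) (by norm_num) rfl rfl (by norm_num) (by norm_num) (by norm_num) (by norm_num) (by have := hij rfl; omega)
      hX yr7_4_1 (by decide +kernel) rfl ?_
    intro p hp
    interval_cases p
    · exact m7_7_4_1_0
  · refine mk_pair (k := 6) (na := 3) (w := 256) (n1 := 16) (n2 := 64) (S := 4096) (J := 3) (P := 2)
      (by norm_num) (by norm_num) rfl rfl (by norm_num) (by norm_num) (by norm_num) (by norm_num) (by have := hij rfl; omega)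
      hX yr7_4_2 (by decide +kernel) rfl ?_
    intro p hp
    interval_cases p
    · exact m7_7_4_2_0
    · exact m7_7_4_2_1
  · refine mk_pair (k := 6) (na := 3) (w := 256) (n1 := 16) (n2 := 64) (S := 4096) (J := 4) (P := 2)
      (by norm_num) (by norm_num) rfl rfl (by norm_num) (by norm_num) (by norm_num) (by norm_num) (by have := hij rfl; omega)
      hX yr7_4_3 (by decide +kernel) rfl ?_
    intro p hp
    interval_cases p
    · exact m7_7_4_3_0
    · exact m7_7_4_3_1
  · refine mk_pair (k := 6) (na := 3) (w := 256) (n1 := 16) (n2 := 64) (S := 4096) (J := 5) (P := 1)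
      (by norm_num) (by norm_num) rfl rfl (by norm_num) (by norm_num) (by norm_num) (by norm_num) (by have := hij rfl; omega)
      hX yr7_4_4 (by decide +kernel) rfl ?_
    intro p hp
    interval_cases p
    · exact m7_7_4_4_0
  · refine mk_pair (k := 6) (na := 3) (w := 256) (n1 := 16) (n2 := 64) (S := 4096) (J := 6) (P := 2)
      (by norm_num) (by norm_num) rfl rfl (by norm_num) (by norm_num) (by norm_num) (by norm_num) (by have := hij rfl; omega)
      hX yr7_4_5 (by decide +kernel) rfl ?_
    intro p hp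
    interval_cases p
    · exact m7_7_4_5_0
    · exact m7_7_4_5_1
  · refine mk_pair (k := 6) (na := 3) (w := 256) (n1 := 16) (n2 := 64) (S := 4096) (J := 7) (P := 2)
      (by norm_num) (by norm_num) rfl rfl (by norm_num) (by norm_num) (by norm_num) (by norm_num) (by have := hij rfl; omega)
      hX yr7_4_6 (by decide +kernel) rfl ?_
    intro p hp
    interval_cases p
    · exact m7_7_4_6_0
    · exact m7_7_4_6_1
  · refine mk_pair (k := 6) (na := 3) (w := 256) (n1 := 16) (n2 := 64) (S := 4096) (J := 8) (P := 3)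
      (by norm_num) (by norm_num) rfl rfl (by norm_num) (by norm_num) (by norm_num) (by norm_num) (by have := hij rfl; omega)
      hX yr7_4_7 (by decide +kernel) rfl ?_
    intro p hp
    interval_cases p
    · exact m7_7_4_7_0
    · exact m7_7_4_7_1
    · exact m7_7_4_7_2
  · refine mk_pair (k := 6) (na := 3) (w := 256) (n1 := 16) (n2 := 64) (S := 4096) (J := 9) (P := 4)
      (by norm_num) (by norm_num) rfl rfl (by norm_num) (by norm_num) (by norm_num) (by norm_num) (by have := hij rfl; omega)
      hX yr7_4_8 (by decide +kernel) rfl ?_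
    intro p hp
    interval_cases p
    · exact m7_7_4_8_0
    · exact m7_7_4_8_1
    · exact m7_7_4_8_2
    · exact m7_7_4_8_3

theorem P7_7_5 : ∀ i < 9, ∀ j < 9, (7 = 7 → i ≤ j) → TabPair 7 7 5 i j := by
  intro i hi j hj hij
  have hX := xr7_5 i hi
  interval_cases j
  · refine mk_pair (k := 4) (na := 2) (w := 1024) (n1 := 4) (n2 := 16) (S := 4096) (J := 1) (P := 1)
      (by norm_num) (by norm_num) rfl rfl (by norm_num) (by norm_num) (by norm_num) (by norm_num) (by have := hij rfl; omega)
      hX yr7_5_0 (by decide +kernel) rfl ?_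
    intro p hp
    interval_cases p
    · exact m7_7_5_0_0
  · refine mk_pair (k := 4) (na := 2) (w := 1024) (n1 := 4) (n2 := 16) (S := 4096) (J := 2) (P := 1)
      (by norm_num) (by norm_num) rfl rfl (by norm_num) (by norm_num) (by norm_num) (by norm_num) (by have := hij rfl; omega)
      hX yr7_5_1 (by decide +kernel) rfl ?_
    intro p hp
    interval_cases p
    · exact m7_7_5_1_0
  · refine mk_pair (k := 4) (na := 2) (w := 1024) (n1 := 4) (n2 := 16) (S := 4096) (J := 3) (P := 1)
      (by norm_num) (by norm_num) rfl rfl (by norm_num) (by norm_num) (by norm_num) (by norm_num) (by have := hij rfl; omega)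
      hX yr7_5_2 (by decide +kernel) rfl ?_
    intro p hp
    interval_cases p
    · exact m7_7_5_2_0
  · refine mk_pair (k := 4) (na := 2) (w := 1024) (n1 := 4) (n2 := 16) (S := 4096) (J := 4) (P := 2)
      (by norm_num) (by norm_num) rfl rfl (by norm_num) (by norm_num) (by norm_num) (by norm_num) (by have := hij rfl; omega)
      hX yr7_5_3 (by decide +kernel) rfl ?_
    intro p hp
    interval_cases p
    · exact m7_7_5_3_0
    · exact m7_7_5_3_1
  · refine mk_pair (k := 4) (na := 2) (w := 1024) (n1 := 4) (n2 := 16) (S := 4096) (J := 5) (P := 1)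
      (by norm_num) (by norm_num) rfl rfl (by norm_num) (by norm_num) (by norm_num) (by norm_num) (by have := hij rfl; omega)
      hX yr7_5_4 (by decide +kernel) rfl ?_
    intro p hp
    interval_cases p
    · exact m7_7_5_4_0
  · refine mk_pair (k := 4) (na := 2) (w := 1024) (n1 := 4) (n2 := 16) (S := 4096) (J := 6) (P := 1)
      (by norm_num) (by norm_num) rfl rfl (by norm_num) (by norm_num) (by norm_num) (by norm_num) (by have := hij rfl; omega)
      hX yr7_5_5 (by decide +kernel) rfl ?_
    intro p hp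
    interval_cases p
    · exact m7_7_5_5_0
  · refine mk_pair (k := 4) (na := 2) (w := 1024) (n1 := 4) (n2 := 16) (S := 4096) (J := 7) (P := 1)
      (by norm_num) (by norm_num) rfl rfl (by norm_num) (by norm_num) (by norm_num) (by norm_num) (by have := hij rfl; omega)
      hX yr7_5_6 (by decide +kernel) rfl ?_
    intro p hp
    interval_cases p
    · exact m7_7_5_6_0
  · refine mk_pair (k := 4) (na := 2) (w := 1024) (n1 := 4) (n2 := 16) (S := 4096) (J := 8) (P := 2)
      (by norm_num) (by norm_num) rfl rfl (by norm_num) (by norm_num) (by norm_num) (by norm_num) (by have := hij rfl; omega)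
      hX yr7_5_7 (by decide +kernel) rfl ?_
    intro p hp
    interval_cases p
    · exact m7_7_5_7_0
    · exact m7_7_5_7_1
  · refine mk_pair (k := 4) (na := 2) (w := 1024) (n1 := 4) (n2 := 16) (S := 4096) (J := 9) (P := 3)
      (by norm_num) (by norm_num) rfl rfl (by norm_num) (by norm_num) (by norm_num) (by norm_num) (by have := hij rfl; omega)
      hX yr7_5_8 (by decide +kernel) rfl ?_
    intro p hp
    interval_cases p
    · exact m7_7_5_8_0
    · exact m7_7_5_8_1
    · exact m7_7_5_8_2

theorem tables7 : Tables 7 := by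
  intro a b c h1 h2 h3 h4 h5 h6 h7 h8 h9 i hi j hj
  interval_cases a <;> interval_cases b <;> interval_cases c <;>
  first
  | omega
  | exact (le_total i j).imp (fun h => P3_3_1 i hi j hj (fun _ => h)) (fun h => P3_3_1 j hj i hi (fun _ => h))
  | exact Or.inl (P4_3_1 i hi j hj (by omega))
  | exact Or.inr (P4_3_1 j hj i hi (by omega))
  | exact Or.inl (P4_3_2 i hi j hj (by omega))
  | exact Or.inr (P4_3_2 j hj i hi (by omega))
  | exact (le_total i j).imp (fun h => P4_4_1 i hi j hj (fun _ => h)) (fun h => P4_4_1 j hj i hi (fun _ => h))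
  | exact (le_total i j).imp (fun h => P4_4_2 i hi j hj (fun _ => h)) (fun h => P4_4_2 j hj i hi (fun _ => h))
  | exact Or.inl (P5_3_1 i hi j hj (by omega))
  | exact Or.inr (P5_3_1 j hj i hi (by omega))
  | exact Or.inl (P5_3_2 i hi j hj (by omega))
  | exact Or.inr (P5_3_2 j hj i hi (by omega))
  | exact Or.inl (P5_4_1 i hi j hj (by omega))
  | exact Or.inr (P5_4_1 j hj i hi (by omega))
  | exact Or.inl (P5_4_2 i hi j hj (by omega))
  | exact Or.inr (P5_4_2 j hj i hi (by omega))
  | exact Or.inl (P5_4_3 i hi j hj (by omega))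
  | exact Or.inr (P5_4_3 j hj i hi (by omega))
  | exact (le_total i j).imp (fun h => P5_5_2 i hi j hj (fun _ => h)) (fun h => P5_5_2 j hj i hi (fun _ => h))
  | exact (le_total i j).imp (fun h => P5_5_3 i hi j hj (fun _ => h)) (fun h => P5_5_3 j hj i hi (fun _ => h))
  | exact Or.inl (P6_3_1 i hi j hj (by omega))
  | exact Or.inr (P6_3_1 j hj i hi (by omega))
  | exact Or.inl (P6_3_2 i hi j hj (by omega))
  | exact Or.inr (P6_3_2 j hj i hi (by omega))
  | exact Or.inl (P6_4_2 i hi j hj (by omega))
  | exact Or.inr (P6_4_2 j hj i hi (by omega))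
  | exact Or.inl (P6_4_3 i hi j hj (by omega))
  | exact Or.inr (P6_4_3 j hj i hi (by omega))
  | exact Or.inl (P6_5_2 i hi j hj (by omega))
  | exact Or.inr (P6_5_2 j hj i hi (by omega))
  | exact Or.inl (P6_5_3 i hi j hj (by omega))
  | exact Or.inr (P6_5_3 j hj i hi (by omega))
  | exact Or.inl (P6_5_4 i hi j hj (by omega))
  | exact Or.inr (P6_5_4 j hj i hi (by omega))
  | exact (le_total i j).imp (fun h => P6_6_3 i hi j hj (fun _ => h)) (fun h => P6_6_3 j hj i hi (fun _ => h))
  | exact (le_total i j).imp (fun h => P6_6_4 i hi j hj (fun _ => h)) (fun h => P6_6_4 j hj i hi (fun _ => h))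
  | exact Or.inl (P7_3_2 i hi j hj (by omega))
  | exact Or.inr (P7_3_2 j hj i hi (by omega))
  | exact Or.inl (P7_4_2 i hi j hj (by omega))
  | exact Or.inr (P7_4_2 j hj i hi (by omega))
  | exact Or.inl (P7_4_3 i hi j hj (by omega))
  | exact Or.inr (P7_4_3 j hj i hi (by omega))
  | exact Or.inl (P7_5_3 i hi j hj (by omega))
  | exact Or.inr (P7_5_3 j hj i hi (by omega))
  | exact Or.inl (P7_5_4 i hi j hj (by omega))
  | exact Or.inr (P7_5_4 j hj i hi (by omega))
  | exact Or.inl (P7_6_3 i hi j hj (by omega))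
  | exact Or.inr (P7_6_3 j hj i hi (by omega))
  | exact Or.inl (P7_6_4 i hi j hj (by omega))
  | exact Or.inr (P7_6_4 j hj i hi (by omega))
  | exact Or.inl (P7_6_5 i hi j hj (by omega))
  | exact Or.inr (P7_6_5 j hj i hi (by omega))
  | exact (le_total i j).imp (fun h => P7_7_4 i hi j hj (fun _ => h)) (fun h => P7_7_4 j hj i hi (fun _ => h))
  | exact (le_total i j).imp (fun h => P7_7_5 i hi j hj (fun _ => h)) (fun h => P7_7_5 j hj i hi (fun _ => h))

theorem classes7 : ∀ k, 3 ≤ k → k ≤ 7 → ClassOK k := by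
  intro k h1 h2
  interval_cases k
  · exact class3
  · exact class4
  · exact class5
  · exact class6
  · exact class7

end Pool.Agent.TH405.CW
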