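import Pool.Agent.TH405.CW.Dig

/-! Bit operations evaluated by the kernel. -/

set_option autoImplicit false

namespace Pool.Agent.TH405.CW

/-- Evaluate the argument first. -/
noncomputable def frc (n : ℕ) (f : ℕ → Bool) : Bool := Nat.rec (f 0) (fun m _ => f (Nat.succ m)) n

/-- Evaluate the argument first. -/
noncomputable def frcN (n : ℕ) (f : ℕ → ℕ) : ℕ := Nat.rec (f 0) (fun m _ => f (Nat.succ m)) n

/-- `f` holds for all entries. -/
noncomputable def allN (l : List ℕ) (f : ℕ → Bool) : Bool :=
  List.rec true (fun h _ ih => cond (f h) ih false) l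

/-- `f` holds for some entry. -/
noncomputable def anyN (l : List ℕ) (f : ℕ → Bool) : Bool :=
  List.rec false (fun h _ ih => cond (f h) true ih) l

/-- Union of the masks `f r`. -/
noncomputable def orN (l : List ℕ) (f : ℕ → ℕ) : ℕ := List.rec 0 (fun h _ ih => Nat.lor ih (f h)) l

/-- Union of the masks `f 0, ..., f (n - 1)`. -/
noncomputable def orR (n : ℕ) (f : ℕ → ℕ) : ℕ := Nat.rec 0 (fun h ih => Nat.lor ih (f h)) n

/-- The bit number `m`. -/
def tb (M m : ℕ) : Bool := Nat.beq (Nat.land 1 (Nat.shiftRight M m)) 1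

/-- The digit number `i`. -/
def dk (m i : ℕ) : ℕ := Nat.mod (Nat.div m (Nat.pow 4 i)) 4

theorem dk_eq (m i : ℕ) : dk m i = dg m i := rfl

theorem frc_eq (n : ℕ) (f : ℕ → Bool) : frc n f = f n := by
  cases n <;> rfl

theorem frcN_eq (n : ℕ) (f : ℕ → ℕ) : frcN n f = f n := by
  cases n <;> rfl

theorem allN_mem {l : List ℕ} {f : ℕ → Bool} (h : allN l f = true) : ∀ x ∈ l, f x = true := by
  induction l with
  | nil => intro x hx; simp at hx
  | cons y l ih =>
    have h' : cond (f y) (allN l f) false = true := h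
    intro x hx
    cases hy : f y with
    | false => rw [hy] at h'; simp at h'
    | true =>
      rw [hy] at h'
      rcases List.mem_cons.mp hx with rfl | hx
      · exact hy
      · exact ih h' x hx

theorem anyN_mem {l : List ℕ} {f : ℕ → Bool} (h : anyN l f = true) : ∃ x ∈ l, f x = true := by
  induction l with
  | nil => exact absurd h (by simp [anyN])
  | cons y l ih =>
    have h' : cond (f y) true (anyN l f) = true := h
    cases hy : f y with
    | true => exact ⟨y, List.mem_cons_self, hy⟩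
    | false =>
      rw [hy] at h'
      obtain ⟨x, hx, h2⟩ := ih h'
      exact ⟨x, List.mem_cons_of_mem _ hx, h2⟩

theorem orN_bit {l : List ℕ} {f : ℕ → ℕ} {n : ℕ} (h : (orN l f).testBit n = true) :
    ∃ r ∈ l, (f r).testBit n = true := by
  induction l with
  | nil =>
    have h' : (0 : ℕ).testBit n = true := h
    simp at h'
  | cons y l ih =>
    have h' : (orN l f ||| f y).testBit n = true := h
    rw [Nat.testBit_or, Bool.or_eq_true] at h'
    rcases h' with h' | h'
    · obtain ⟨r, hr, h2⟩ := ih h'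
      exact ⟨r, List.mem_cons_of_mem _ hr, h2⟩
    · exact ⟨y, List.mem_cons_self, h'⟩

theorem orN_bit' {l : List ℕ} {f : ℕ → ℕ} {n r : ℕ} (hr : r ∈ l)
    (h : (f r).testBit n = true) : (orN l f).testBit n = true := by
  induction l with
  | nil => simp at hr
  | cons y l ih =>
    show (orN l f ||| f y).testBit n = true
    rw [Nat.testBit_or, Bool.or_eq_true]
    rcases List.mem_cons.1 hr with rfl | hr
    · exact Or.inr h
    · exact Or.inl (ih hr)

theorem orR_bit {f : ℕ → ℕ} {n : ℕ} : ∀ {N : ℕ}, (orR N f).testBit n = true →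
    ∃ r < N, (f r).testBit n = true := by
  intro N
  induction N with
  | zero =>
    intro h
    have h' : (0 : ℕ).testBit n = true := h
    simp at h'
  | succ N ih =>
    intro h
    have h' : (orR N f ||| f N).testBit n = true := h
    rw [Nat.testBit_or, Bool.or_eq_true] at h'
    rcases h' with h' | h'
    · obtain ⟨r, hr, h2⟩ := ih h'
      exact ⟨r, by omega, h2⟩
    · exact ⟨N, by omega, h'⟩

theorem tb_eq {M m : ℕ} (h : tb M m = true) : M.testBit m = true := by
  unfold tb at h
  have h1 := Nat.eq_of_beq_eq_true h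
  have h2 : 1 &&& (M >>> m) = 1 := h1
  rw [Nat.testBit, h2]
  rfl

theorem one_bit {n m : ℕ} (h : (Nat.shiftLeft 1 n).testBit m = true) : m = n := by
  have h' : (1 <<< n).testBit m = true := h
  rw [Nat.shiftLeft_eq, one_mul, Nat.testBit_two_pow] at h'
  exact (decide_eq_true_iff.mp h').symm

theorem one_bit' {n : ℕ} : (Nat.shiftLeft 1 n).testBit n = true := by
  show (1 <<< n).testBit n = true
  rw [Nat.shiftLeft_eq, one_mul, Nat.testBit_two_pow]
  simp

/-- `N` ones at distance `S`. -/
def rep (S : ℕ) : ℕ → ℕ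
  | 0 => 0
  | n + 1 => 1 + 2 ^ S * rep S n

theorem rep_mul (S N : ℕ) : (2 ^ S - 1) * rep S N = 2 ^ (S * N) - 1 := by
  induction N with
  | zero => simp [rep]
  | succ N ih =>
    obtain ⟨x, hx⟩ : ∃ x, 2 ^ S = x + 1 := ⟨2 ^ S - 1, by have := Nat.one_le_two_pow (n := S); omega⟩
    obtain ⟨y, hy⟩ : ∃ y, 2 ^ (S * N) = y + 1 :=
      ⟨2 ^ (S * N) - 1, by have := Nat.one_le_two_pow (n := S * N); omega⟩
    rw [rep, Nat.mul_succ, pow_add]
    rw [hx, hy] at ih ⊢
    simp only [Nat.add_sub_cancel] at ih ⊢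
    have : x * (1 + (x + 1) * rep S N) = x + (x + 1) * (x * rep S N) := by ring
    rw [this, ih]
    have : (y + 1) * (x + 1) = x + (x + 1) * y + 1 := by ring
    rw [this, Nat.add_sub_cancel]

/-- `N` ones at distance `S`. -/
def repk (S N : ℕ) : ℕ :=
  Nat.div (Nat.sub (Nat.pow 2 (Nat.mul S N)) 1) (Nat.sub (Nat.pow 2 S) 1)

theorem repk_eq {S : ℕ} (hS : 0 < S) (N : ℕ) : repk S N = rep S N := by
  have h1 : 1 < 2 ^ S := Nat.one_lt_two_pow (by omega)
  show (2 ^ (S * N) - 1) / (2 ^ S - 1) = rep S N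
  rw [← rep_mul S N, Nat.mul_div_cancel_left _ (by omega)]

theorem bit_add {x y S p : ℕ} (hx : x < 2 ^ S) :
    (x + 2 ^ S * y).testBit p = if p < S then x.testBit p else y.testBit (p - S) := by
  rw [Nat.add_comm]
  exact Nat.testBit_two_pow_mul_add y hx p

/-- A repeated block. -/
theorem rep_bit {x S : ℕ} (hx : x < 2 ^ S) : ∀ {N p : ℕ}, (x * rep S N).testBit p = true →
    p < S * N ∧ x.testBit (p % S) = true := by
  intro N
  induction N with
  | zero => intro p h; simp [rep] at h
  | succ N ih =>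
    intro p h
    rw [rep, show x * (1 + 2 ^ S * rep S N) = x + 2 ^ S * (x * rep S N) by ring, bit_add hx] at h
    by_cases hp : p < S
    · rw [if_pos hp] at h
      rw [Nat.mod_eq_of_lt hp]
      refine ⟨?_, h⟩
      rw [Nat.mul_succ]
      omega
    · rw [if_neg hp] at h
      obtain ⟨h1, h2⟩ := ih h
      rw [Nat.mul_succ]
      refine ⟨by omega, ?_⟩
      rwa [← Nat.mod_eq_sub_mod (by omega)] at h2

/-- Rows which are not zero. -/
theorem carry {ω : ℕ} (hω : 0 < ω) : ∀ (N r X : ℕ), r < N →
    (∀ q, (X.testBit q = true) → q % ω ≠ ω - 1) →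
    (X + (2 ^ (ω - 1) - 1) * rep ω N).testBit (ω * r + (ω - 1)) = true →
    ∃ j < ω, X.testBit (ω * r + j) = true := by
  intro N
  induction N with
  | zero => intro r X hr; omega
  | succ N ih =>
    intro r X hr hX h
    have e1 := Nat.mod_add_div X (2 ^ ω)
    have hp : 2 ^ ω = 2 * 2 ^ (ω - 1) := by
      rw [← pow_succ']; congr 1; omega
    have hpos := Nat.one_le_two_pow (n := ω - 1)
    have hlt : X % 2 ^ ω < 2 ^ (ω - 1) := by
      refine Nat.lt_pow_two_of_testBit _ fun i hi => ?_
      rw [Nat.testBit_mod_two_pow]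
      by_cases hi2 : i < ω
      · have : i = ω - 1 := by omega
        subst this
        by_contra hc
        rw [Bool.not_eq_false, Bool.and_eq_true] at hc
        exact hX _ hc.2 (Nat.mod_eq_of_lt hi2)
      · simp [hi2]
    have e2 : X + (2 ^ (ω - 1) - 1) * rep ω (N + 1) =
        (X % 2 ^ ω + (2 ^ (ω - 1) - 1)) + 2 ^ ω * (X / 2 ^ ω + (2 ^ (ω - 1) - 1) * rep ω N) := by
      rw [rep]
      calc X + (2 ^ (ω - 1) - 1) * (1 + 2 ^ ω * rep ω N)
          = (X % 2 ^ ω + 2 ^ ω * (X / 2 ^ ω)) + (2 ^ (ω - 1) - 1) * (1 + 2 ^ ω * rep ω N) := by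
            rw [e1]
        _ = _ := by ring
    rw [e2, bit_add (by omega)] at h
    rcases r with _ | r
    · rw [if_pos (by omega)] at h
      by_contra hcon
      push Not at hcon
      have hz : X % 2 ^ ω = 0 := by
        refine Nat.eq_of_testBit_eq fun i => ?_
        rw [Nat.zero_testBit, Nat.testBit_mod_two_pow]
        by_cases hi : i < ω
        · have := hcon i hi
          rw [Nat.mul_zero, Nat.zero_add] at this
          simp [this]
        · simp [hi]
      rw [hz, zero_add, Nat.testBit_two_pow_sub_one] at h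
      simp at h
    · rw [if_neg (by rw [Nat.mul_succ]; omega)] at h
      have e3 : ω * (r + 1) + (ω - 1) - ω = ω * r + (ω - 1) := by rw [Nat.mul_succ]; omega
      rw [e3] at h
      obtain ⟨j, hj, h2⟩ := ih r (X / 2 ^ ω) (by omega) (fun q hq => by
        rw [← Nat.shiftRight_eq_div_pow, Nat.testBit_shiftRight] at hq
        have := hX _ hq
        rwa [Nat.add_mod_left] at this) h
      refine ⟨j, hj, ?_⟩
      rw [← Nat.shiftRight_eq_div_pow, Nat.testBit_shiftRight] at h2
      rw [Nat.mul_succ, show ω * r + ω + j = ω + (ω * r + j) by ring]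
      exact h2

end Pool.Agent.TH405.CW
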