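import Pool.Agent.TH405.CW.Defs

/-!
Carvings in which all parts are joined to each other (bond carvings, Seymour and Thomas).
A potential is the sum, over the nodes with parts `P, Q, R` such that no edge joins `P` and `Q`, of the
square of the number of vertices of `R`.
-/

set_option autoImplicit false

open Finset

namespace Pool.Agent.TH405.CW

variable {V E : Type} [Fintype E]

/-- An edge joins `P` and `Q`. -/
def adj (s t : E → V) (P Q : Set V) : Prop :=
  ∃ e, (s e ∈ P ∧ t e ∈ Q) ∨ (s e ∈ Q ∧ t e ∈ P)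

omit [Fintype E] in
theorem adj_comm (s t : E → V) (P Q : Set V) : adj s t P Q ↔ adj s t Q P := by
  unfold adj
  constructor <;> rintro ⟨e, h⟩ <;> exact ⟨e, h.symm⟩

omit [Fintype E] in
theorem adj_union (s t : E → V) (P Q R : Set V) :
    adj s t P (Q ∪ R) ↔ adj s t P Q ∨ adj s t P R := by
  unfold adj
  constructor
  · rintro ⟨e, ⟨h1, h2 | h2⟩ | ⟨h1 | h1, h2⟩⟩
    · exact Or.inl ⟨e, Or.inl ⟨h1, h2⟩⟩
    · exact Or.inr ⟨e, Or.inl ⟨h1, h2⟩⟩
    · exact Or.inl ⟨e, Or.inr ⟨h1, h2⟩⟩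
    · exact Or.inr ⟨e, Or.inr ⟨h1, h2⟩⟩
  · rintro (⟨e, ⟨h1, h2⟩ | ⟨h1, h2⟩⟩ | ⟨e, ⟨h1, h2⟩ | ⟨h1, h2⟩⟩)
    · exact ⟨e, Or.inl ⟨h1, Or.inl h2⟩⟩
    · exact ⟨e, Or.inr ⟨Or.inl h1, h2⟩⟩
    · exact ⟨e, Or.inl ⟨h1, Or.inr h2⟩⟩
    · exact ⟨e, Or.inr ⟨Or.inr h1, h2⟩⟩

open Classical in
/-- The potential of a node with the parts `P`, `Q`, `R` of `p`, `q`, `r` vertices. -/
noncomputable def N (s t : E → V) (P Q R : Set V) (p q r : ℕ) : ℕ :=
  (if adj s t P Q then 0 else r ^ 2) + (if adj s t P R then 0 else q ^ 2) +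
    (if adj s t Q R then 0 else p ^ 2)

omit [Fintype E] in
theorem N_swap (s t : E → V) (P Q R : Set V) (p q r : ℕ) :
    N s t P Q R p q r = N s t Q P R q p r := by
  unfold N
  rw [adj_comm s t Q P]
  ring

omit [Fintype E] in
theorem N_rot (s t : E → V) (P Q R : Set V) (p q r : ℕ) :
    N s t P Q R p q r = N s t Q R P q r p := by
  unfold N
  rw [adj_comm s t Q P, adj_comm s t R P]
  ring

/-- The potential of a tree whose complement is `O` with `n` vertices. -/
noncomputable def ps (s t : E → V) : Tr V → Set V → ℕ → ℕ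
  | .leaf _, _, _ => 0
  | .node l r, O, n => N s t l.set r.set O l.size r.size n + ps s t l (r.set ∪ O) (r.size + n) +
      ps s t r (l.set ∪ O) (l.size + n)

/-- The potential of a pair of trees. -/
noncomputable def Ps (s t : E → V) (T1 T2 : Tr V) : ℕ :=
  ps s t T1 T2.set T2.size + ps s t T2 T1.set T1.size

/-- A pair of trees which form a carving of `A`. -/
structure Val (s t : E → V) (w : ℕ) (A : Set V) (T1 T2 : Tr V) : Prop where
  n1 : T1.Nodup
  n2 : T2.Nodup
  w1 : T1.Width s t w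
  w2 : T2.Width s t w
  d : Disjoint T1.set T2.set
  u : T1.set ∪ T2.set = A

omit [Fintype E] in
theorem Ps_comm (s t : E → V) (T1 T2 : Tr V) : Ps s t T1 T2 = Ps s t T2 T1 := by
  unfold Ps; ring

theorem Val.symm {s t : E → V} {w : ℕ} {A : Set V} {T1 T2 : Tr V} (h : Val s t w A T1 T2) :
    Val s t w A T2 T1 := ⟨h.n2, h.n1, h.w2, h.w1, h.d.symm, by rw [Set.union_comm]; exact h.u⟩

theorem cut_compl (s t : E → V) (A X Y : Set V) (hE : ∀ e, s e ∈ A ∧ t e ∈ A) (hd : Disjoint X Y)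
    (hu : X ∪ Y = A) : cut s t X = cut s t Y := by
  ext e
  rw [mem_cut, mem_cut]
  have h1 := (hE e).1
  have h2 := (hE e).2
  rw [← hu] at h1 h2
  have h3 : s e ∈ X → s e ∉ Y := fun h => Set.disjoint_left.mp hd h
  have h4 : t e ∈ X → t e ∉ Y := fun h => Set.disjoint_left.mp hd h
  simp only [Set.mem_union] at h1 h2
  tauto

omit [Fintype E] in
theorem Ps_reroot (s t : E → V) (a b c : Tr V) :
    Ps s t (.node a b) c = Ps s t a (.node b c) := by
  unfold Ps
  simp only [ps, Tr.set, Tr.size]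
  rw [N_rot s t a.set b.set c.set, Set.union_comm c.set a.set, Set.union_comm b.set a.set,
    Nat.add_comm c.size a.size, Nat.add_comm b.size a.size]
  ring

theorem Val.reroot {s t : E → V} {w : ℕ} {A : Set V} {a b c : Tr V}
    (hE : ∀ e, s e ∈ A ∧ t e ∈ A) (h : Val s t w A (.node a b) c) :
    Val s t w A a (.node b c) := by
  obtain ⟨⟨h1, h2, h3⟩, h4, ⟨h5, h6, h7⟩, h8, h9, h10⟩ := h
  simp only [Tr.set] at h9 h10
  rw [Set.disjoint_union_left] at h9
  have hd : Disjoint a.set (b.set ∪ c.set) := by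
    rw [Set.disjoint_union_right]; exact ⟨h1, h9.1⟩
  have hu : a.set ∪ (b.set ∪ c.set) = A := by rw [← Set.union_assoc]; exact h10
  refine ⟨h2, ⟨h9.2, h3, h4⟩, h6, ⟨?_, h7, h8⟩, hd, hu⟩
  rw [← cut_compl s t A _ _ hE hd hu]
  exact width_card s t w a h6

omit [Fintype E] in
theorem Ps_swap1 (s t : E → V) (a b c : Tr V) :
    Ps s t (.node a b) c = Ps s t (.node b a) c := by
  unfold Ps
  simp only [ps, Tr.set, Tr.size]
  rw [N_swap s t a.set b.set c.set, Set.union_comm b.set a.set, Nat.add_comm b.size a.size]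
  ring

theorem Val.swap1 {s t : E → V} {w : ℕ} {A : Set V} {a b c : Tr V}
    (h : Val s t w A (.node a b) c) : Val s t w A (.node b a) c := by
  obtain ⟨⟨h1, h2, h3⟩, h4, ⟨h5, h6, h7⟩, h8, h9, h10⟩ := h
  simp only [Tr.set] at h9 h10
  refine ⟨⟨h1.symm, h3, h2⟩, h4, ⟨?_, h7, h6⟩, h8, ?_, ?_⟩
  · rw [Set.union_comm]; exact h5
  · simp only [Tr.set]
    rw [Set.union_comm]; exact h9
  · simp only [Tr.set]
    rw [Set.union_comm b.set]; exact h10

theorem Val.swap2 {s t : E → V} {w : ℕ} {A : Set V} {a b c : Tr V}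
    (h : Val s t w A c (.node a b)) : Val s t w A c (.node b a) := h.symm.swap1.symm

omit [Fintype E] in
theorem Ps_swap2 (s t : E → V) (a b c : Tr V) :
    Ps s t c (.node a b) = Ps s t c (.node b a) := by
  rw [Ps_comm, Ps_swap1, Ps_comm]

/-- A node with two parts which are not joined, seen from the third part. -/
theorem locate (s t : E → V) (w : ℕ) (A : Set V) (hE : ∀ e, s e ∈ A ∧ t e ∈ A) :
    ∀ T1 T2 : Tr V, Val s t w A T1 T2 → ps s t T1 T2.set T2.size ≠ 0 →
    ∃ P C D : Tr V, Val s t w A P (.node C D) ∧ ¬ adj s t C.set D.set ∧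
      Ps s t P (.node C D) = Ps s t T1 T2 := by
  intro T1
  induction T1 with
  | leaf v => intro T2 _ h; exact absurd rfl h
  | node a b iha ihb =>
    intro T2 hV h
    by_cases h1 : ps s t a (b.set ∪ T2.set) (b.size + T2.size) = 0
    · by_cases h2 : ps s t b (a.set ∪ T2.set) (a.size + T2.size) = 0
      · have h3 : N s t a.set b.set T2.set a.size b.size T2.size ≠ 0 := by
          intro h3
          apply h
          simp only [ps]
          rw [h1, h2, h3]
        unfold N at h3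
        by_cases c1 : adj s t a.set b.set
        · by_cases c2 : adj s t a.set T2.set
          · by_cases c3 : adj s t b.set T2.set
            · rw [if_pos c1, if_pos c2, if_pos c3] at h3
              exact absurd rfl h3
            · exact ⟨a, b, T2, hV.reroot hE, c3, (Ps_reroot s t a b T2).symm⟩
          · exact ⟨b, a, T2, hV.swap1.reroot hE, c2, by
              rw [Ps_swap1 s t a b T2, ← Ps_reroot s t b a T2]⟩
        · exact ⟨T2, a, b, hV.symm, c1, Ps_comm s t _ _⟩
      · obtain ⟨P, C, D, q1, q2, q3⟩ := ihb (.node a T2) (hV.swap1.reroot hE) h2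
        exact ⟨P, C, D, q1, q2, by rw [q3, Ps_swap1 s t a b T2, ← Ps_reroot s t b a T2]⟩
    · obtain ⟨P, C, D, q1, q2, q3⟩ := iha (.node b T2) (hV.reroot hE) h1
      exact ⟨P, C, D, q1, q2, by rw [q3, Ps_reroot s t a b T2]⟩

/-- The potentials inside four trees. -/
noncomputable def S4 (s t : E → V) (A B C D : Tr V) : ℕ :=
  ps s t A (B.set ∪ (C.set ∪ D.set)) (B.size + (C.size + D.size)) +
  ps s t B (A.set ∪ (C.set ∪ D.set)) (A.size + (C.size + D.size)) +
  ps s t C (A.set ∪ (B.set ∪ D.set)) (A.size + (B.size + D.size)) +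
  ps s t D (A.set ∪ (B.set ∪ C.set)) (A.size + (B.size + C.size))

omit [Fintype E] in
theorem Ps4 (s t : E → V) (A B C D : Tr V) : Ps s t (.node A B) (.node C D) =
    N s t A.set B.set (C.set ∪ D.set) A.size B.size (C.size + D.size) +
    N s t C.set D.set (A.set ∪ B.set) C.size D.size (A.size + B.size) + S4 s t A B C D := by
  unfold Ps S4
  simp only [ps, Tr.set, Tr.size]
  have e1 : D.set ∪ (A.set ∪ B.set) = A.set ∪ (B.set ∪ D.set) := by
    ext x; simp only [Set.mem_union]; tauto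
  have e2 : C.set ∪ (A.set ∪ B.set) = A.set ∪ (B.set ∪ C.set) := by
    ext x; simp only [Set.mem_union]; tauto
  have e3 : D.size + (A.size + B.size) = A.size + (B.size + D.size) := by omega
  have e4 : C.size + (A.size + B.size) = A.size + (B.size + C.size) := by omega
  rw [e1, e2, e3, e4]
  ring

omit [Fintype E] in
theorem Ps4' (s t : E → V) (A B C D : Tr V) : Ps s t (.node A D) (.node B C) =
    N s t A.set D.set (B.set ∪ C.set) A.size D.size (B.size + C.size) +
    N s t B.set C.set (A.set ∪ D.set) B.size C.size (A.size + D.size) + S4 s t A B C D := by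
  unfold Ps S4
  simp only [ps, Tr.set, Tr.size]
  have e1 : D.set ∪ (B.set ∪ C.set) = B.set ∪ (C.set ∪ D.set) := by
    ext x; simp only [Set.mem_union]; tauto
  have e2 : C.set ∪ (A.set ∪ D.set) = A.set ∪ (C.set ∪ D.set) := by
    ext x; simp only [Set.mem_union]; tauto
  have e3 : B.set ∪ (A.set ∪ D.set) = A.set ∪ (B.set ∪ D.set) := by
    ext x; simp only [Set.mem_union]; tauto
  have f1 : D.size + (B.size + C.size) = B.size + (C.size + D.size) := by omega
  have f2 : C.size + (A.size + D.size) = A.size + (C.size + D.size) := by omega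
  have f3 : B.size + (A.size + D.size) = A.size + (B.size + D.size) := by omega
  rw [e1, e2, e3, f1, f2, f3]
  ring

theorem rotOK (s t : E → V) (w : ℕ) (Z : Set V) (hE : ∀ e, s e ∈ Z ∧ t e ∈ Z) (A B C D : Tr V)
    (h : Val s t w Z (.node A B) (.node C D)) (hc : (cut s t (B.set ∪ C.set)).card ≤ w) :
    Val s t w Z (.node A D) (.node B C) := by
  obtain ⟨⟨h1, h2, h3⟩, ⟨g1, g2, g3⟩, ⟨h5, h6, h7⟩, ⟨g5, g6, g7⟩, h9, h10⟩ := h
  simp only [Tr.set] at h9 h10
  rw [Set.disjoint_union_left, Set.disjoint_union_right, Set.disjoint_union_right] at h9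
  obtain ⟨⟨hAC, hAD⟩, hBC, hBD⟩ := h9
  have hd : Disjoint (A.set ∪ D.set) (B.set ∪ C.set) := by
    rw [Set.disjoint_union_left, Set.disjoint_union_right, Set.disjoint_union_right]
    exact ⟨⟨h1, hAC⟩, hBD.symm, g1.symm⟩
  have hu : (A.set ∪ D.set) ∪ (B.set ∪ C.set) = Z := by
    rw [← h10]
    ext x; simp only [Set.mem_union]; tauto
  refine ⟨⟨hAD, h2, g3⟩, ⟨hBC, h3, g2⟩, ⟨?_, h6, g7⟩, ⟨hc, h7, g6⟩, hd, hu⟩
  rw [cut_compl s t Z _ _ hE hd hu]
  exact hc

theorem prop1 {a b c d a' b' c' d' : Prop} (h1 : (a ∨ b) ∨ (c ∨ d)) (h2 : (a' ∨ b') ∨ (c' ∨ d'))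
    (k1 : ¬ (a ∧ c')) (k2 : ¬ (c ∧ a')) (k3 : ¬ (c ∧ d')) (k4 : ¬ (d ∧ c'))
    (he : ¬ ((b ∨ c) ↔ (b' ∨ c'))) : ¬ (b ↔ b') := by
  intro hb
  apply he
  by_cases hc : c
  · refine iff_of_true (Or.inr hc) ?_
    rcases h2 with (h2 | h2) | (h2 | h2)
    · exact absurd ⟨hc, h2⟩ k2
    · exact Or.inl h2
    · exact Or.inr h2
    · exact absurd ⟨hc, h2⟩ k3
  · by_cases hc' : c'
    · refine iff_of_true ?_ (Or.inr hc')
      rcases h1 with (h1 | h1) | (h1 | h1)
      · exact absurd ⟨h1, hc'⟩ k1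
      · exact Or.inl h1
      · exact Or.inr h1
      · exact absurd ⟨h1, hc'⟩ k4
    · rw [or_iff_left hc, or_iff_left hc']
      exact hb

theorem loc4 {A B C D : Set V} (h1 : Disjoint A B) (g1 : Disjoint C D) (hAC : Disjoint A C)
    (hAD : Disjoint A D) (hBC : Disjoint B C) (hBD : Disjoint B D) (x : V)
    (hx : (x ∈ A ∨ x ∈ B) ∨ x ∈ C ∨ x ∈ D) :
      (x ∈ A ∧ x ∉ B ∧ x ∉ C ∧ x ∉ D) ∨ (x ∉ A ∧ x ∈ B ∧ x ∉ C ∧ x ∉ D) ∨
      (x ∉ A ∧ x ∉ B ∧ x ∈ C ∧ x ∉ D) ∨ (x ∉ A ∧ x ∉ B ∧ x ∉ C ∧ x ∈ D) := by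
  have dl : ∀ {P Q : Set V}, Disjoint P Q → x ∈ P → x ∉ Q := fun h hx =>
    Set.disjoint_left.mp h hx
  rcases hx with (h | h) | (h | h)
  · exact Or.inl ⟨h, dl h1 h, dl hAC h, dl hAD h⟩
  · exact Or.inr (Or.inl ⟨dl h1.symm h, h, dl hBC h, dl hBD h⟩)
  · exact Or.inr (Or.inr (Or.inl ⟨dl hAC.symm h, dl hBC.symm h, h, dl g1 h⟩))
  · exact Or.inr (Or.inr (Or.inr ⟨dl hAD.symm h, dl hBD.symm h, dl g1.symm h, h⟩))

open Classical in
theorem core1 (s t : E → V) (w : ℕ) (Z : Set V) (hE : ∀ e, s e ∈ Z ∧ t e ∈ Z) (A B C D : Tr V)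
    (h : Val s t w Z (.node A B) (.node C D)) (hCD : ¬ adj s t C.set D.set)
    (hA : adj s t A.set (C.set ∪ D.set)) (hC : adj s t C.set (A.set ∪ B.set))
    (hAC : ¬ adj s t A.set C.set) :
    ∃ T1 T2, Val s t w Z T1 T2 ∧ Ps s t T1 T2 < Ps s t (.node A B) (.node C D) := by
  have hAD : adj s t A.set D.set := by
    rw [adj_union] at hA
    exact hA.resolve_left hAC
  have hCA : ¬ adj s t C.set A.set := fun h => hAC ((adj_comm s t _ _).1 h)
  have hCB : adj s t C.set B.set := by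
    rw [adj_union] at hC
    exact hC.resolve_left hCA
  have hBC : adj s t B.set C.set := (adj_comm s t _ _).1 hCB
  refine ⟨.node A D, .node B C, rotOK s t w Z hE A B C D h ?_, ?_⟩
  · refine le_trans (Finset.card_le_card ?_) (width_card s t w B h.w1.2.2)
    intro e he
    rw [mem_cut] at he ⊢
    have hu := h.u
    have h1 := (hE e).1
    have h2 := (hE e).2
    rw [← hu] at h1 h2
    simp only [Tr.set, Set.mem_union] at h1 h2 he
    have k1 : ¬ (s e ∈ A.set ∧ t e ∈ C.set) := fun h => hAC ⟨e, Or.inl h⟩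
    have k2 : ¬ (s e ∈ C.set ∧ t e ∈ A.set) := fun h => hAC ⟨e, Or.inr h⟩
    have k3 : ¬ (s e ∈ C.set ∧ t e ∈ D.set) := fun h => hCD ⟨e, Or.inl h⟩
    have k4 : ¬ (s e ∈ D.set ∧ t e ∈ C.set) := fun h => hCD ⟨e, Or.inr h⟩
    exact prop1 h1 h2 k1 k2 k3 k4 he
  · rw [Ps4 s t A B C D, Ps4' s t A B C D]
    refine Nat.add_lt_add_right ?_ _
    have a1 := size_pos A
    have b1 := size_pos B
    obtain ⟨a, ha⟩ : ∃ a, a = A.size := ⟨_, rfl⟩
    obtain ⟨b, hb⟩ : ∃ b, b = B.size := ⟨_, rfl⟩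
    obtain ⟨c, hc⟩ : ∃ c, c = C.size := ⟨_, rfl⟩
    obtain ⟨d, hd⟩ : ∃ d, d = D.size := ⟨_, rfl⟩
    rw [← ha] at a1
    rw [← hb] at b1
    rw [← ha, ← hb, ← hc, ← hd]
    have n1 : a ^ 2 + b ^ 2 < (a + b) ^ 2 := by nlinarith
    have n2 : c ^ 2 + d ^ 2 ≤ (c + d) ^ 2 := by nlinarith
    have l1 : (a + b) ^ 2 ≤ N s t C.set D.set (A.set ∪ B.set) c d (a + b) := by
      unfold N
      rw [if_neg hCD]
      omega
    have l3 : N s t B.set C.set (A.set ∪ D.set) b c (a + d) ≤
        (if adj s t A.set B.set then 0 else c ^ 2) + b ^ 2 := by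
      unfold N
      rw [if_pos hBC, zero_add]
      refine Nat.add_le_add ?_ ?_
      · by_cases hAB : adj s t A.set B.set
        · rw [if_pos ((adj_union s t _ _ _).2 (Or.inl ((adj_comm s t _ _).1 hAB)))]
          exact Nat.zero_le _
        · rw [if_neg hAB]
          split_ifs <;> omega
      · split_ifs <;> omega
    have l4 : N s t A.set D.set (B.set ∪ C.set) a d (b + c) ≤
        (if adj s t A.set B.set then 0 else d ^ 2) + a ^ 2 := by
      unfold N
      rw [if_pos hAD, zero_add]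
      refine Nat.add_le_add ?_ ?_
      · by_cases hAB : adj s t A.set B.set
        · rw [if_pos ((adj_union s t _ _ _).2 (Or.inl hAB))]
          exact Nat.zero_le _
        · rw [if_neg hAB]
          split_ifs <;> omega
      · split_ifs <;> omega
    have l2 : (if adj s t A.set B.set then 0 else (c + d) ^ 2) ≤
        N s t A.set B.set (C.set ∪ D.set) a b (c + d) := by
      unfold N
      split_ifs <;> omega
    by_cases hAB : adj s t A.set B.set
    · rw [if_pos hAB] at l2 l3 l4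
      omega
    · rw [if_neg hAB] at l2 l3 l4
      omega

/-- Submodularity. -/
theorem sub4 (s t : E → V) (Z : Set V) (hE : ∀ e, s e ∈ Z ∧ t e ∈ Z) (A B C D : Tr V) (w : ℕ)
    (h : Val s t w Z (.node A B) (.node C D)) (hCD : ¬ adj s t C.set D.set) :
    (cut s t (A.set ∪ C.set)).card + (cut s t (B.set ∪ C.set)).card ≤
      (cut s t A.set).card + (cut s t B.set).card := by
  classical
  have key : ∀ X : Set V, (cut s t X).card = ∑ e, if (s e ∈ X ↔ t e ∈ X) then 0 else 1 := by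
    intro X
    unfold cut
    rw [Finset.card_filter]
    refine Finset.sum_congr rfl fun e _ => ?_
    split_ifs <;> simp_all
  rw [key, key, key, key, ← Finset.sum_add_distrib, ← Finset.sum_add_distrib]
  refine Finset.sum_le_sum fun e _ => ?_
  obtain ⟨⟨h1, h2, h3⟩, ⟨g1, g2, g3⟩, _, _, h9, h10⟩ := h
  simp only [Tr.set] at h9 h10
  rw [Set.disjoint_union_left, Set.disjoint_union_right, Set.disjoint_union_right] at h9
  obtain ⟨⟨hAC, hAD⟩, hBC, hBD⟩ := h9
  have u1 := (hE e).1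
  have u2 := (hE e).2
  rw [← h10] at u1 u2
  simp only [Set.mem_union] at u1 u2 ⊢
  have k3 : ¬ (s e ∈ C.set ∧ t e ∈ D.set) := fun h => hCD ⟨e, Or.inl h⟩
  have k4 : ¬ (s e ∈ D.set ∧ t e ∈ C.set) := fun h => hCD ⟨e, Or.inr h⟩
  have loc := loc4 h1 g1 hAC hAD hBC hBD
  rcases loc _ u1 with ⟨q1, q2, q3, q4⟩ | ⟨q1, q2, q3, q4⟩ | ⟨q1, q2, q3, q4⟩ |
    ⟨q1, q2, q3, q4⟩ <;>
  rcases loc _ u2 with ⟨r1, r2, r3, r4⟩ | ⟨r1, r2, r3, r4⟩ | ⟨r1, r2, r3, r4⟩ |
    ⟨r1, r2, r3, r4⟩ <;>
  simp only [q1, q2, q3, q4, r1, r2, r3, r4, or_true, or_false, iff_true,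
    iff_false, not_true, not_false_iff, if_true, if_false, iff_self,
    and_self, and_true, true_and] at k3 k4 ⊢ <;> omega

/-- All four pairs joined. -/
theorem core0 (s t : E → V) (w : ℕ) (Z : Set V) (hE : ∀ e, s e ∈ Z ∧ t e ∈ Z) (A B C D : Tr V)
    (h : Val s t w Z (.node A B) (.node C D)) (hCD : ¬ adj s t C.set D.set)
    (hAC : adj s t A.set C.set) (hAD : adj s t A.set D.set) (hBC : adj s t B.set C.set)
    (hBD : adj s t B.set D.set) (hc : (cut s t (B.set ∪ C.set)).card ≤ w) :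
    ∃ T1 T2, Val s t w Z T1 T2 ∧ Ps s t T1 T2 < Ps s t (.node A B) (.node C D) := by
  refine ⟨.node A D, .node B C, rotOK s t w Z hE A B C D h hc, ?_⟩
  rw [Ps4 s t A B C D, Ps4' s t A B C D]
  refine Nat.add_lt_add_right ?_ _
  have a1 := size_pos A
  have l1 : 1 ≤ N s t C.set D.set (A.set ∪ B.set) C.size D.size (A.size + B.size) := by
    unfold N
    rw [if_neg hCD, add_assoc]
    exact le_trans (Nat.one_le_pow _ _ (by omega)) (Nat.le_add_right _ _)
  have l2 : N s t A.set D.set (B.set ∪ C.set) A.size D.size (B.size + C.size) = 0 := by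
    unfold N
    rw [if_pos hAD, if_pos ((adj_union s t _ _ _).2 (Or.inr hAC)),
      if_pos ((adj_union s t _ _ _).2 (Or.inl ((adj_comm s t _ _).1 hBD)))]
  have l3 : N s t B.set C.set (A.set ∪ D.set) B.size C.size (A.size + D.size) = 0 := by
    unfold N
    rw [if_pos hBC, if_pos ((adj_union s t _ _ _).2 (Or.inr hBD)),
      if_pos ((adj_union s t _ _ _).2 (Or.inl ((adj_comm s t _ _).1 hAC)))]
  omega

/-- A carving with two parts which are not joined can be improved. -/
theorem improve (s t : E → V) (w : ℕ) (Z : Set V) (hE : ∀ e, s e ∈ Z ∧ t e ∈ Z)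
    (hconn : ∀ X Y : Set V, X.Nonempty → Y.Nonempty → Disjoint X Y → X ∪ Y = Z → adj s t X Y)
    (hcv : ∀ (v : V) (X Y : Set V), X.Nonempty → Y.Nonempty → Disjoint X Y → v ∉ X → v ∉ Y →
      {v} ∪ (X ∪ Y) = Z → adj s t X Y) :
    ∀ P C D : Tr V, Val s t w Z P (.node C D) → ¬ adj s t C.set D.set →
    ∃ T1 T2, Val s t w Z T1 T2 ∧ Ps s t T1 T2 < Ps s t P (.node C D) := by
  intro P
  induction P with
  | leaf v =>
    intro C D h hCD
    exfalso
    apply hCD
    have hd := h.d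
    simp only [Tr.set] at hd
    rw [Set.disjoint_singleton_left, Set.mem_union, not_or] at hd
    exact hcv v C.set D.set (set_nonempty C) (set_nonempty D) h.n2.1 hd.1 hd.2 h.u
  | node A B ihA ihB =>
    intro C D h hCD
    by_cases hA : adj s t A.set (C.set ∪ D.set)
    · by_cases hB : adj s t B.set (C.set ∪ D.set)
      · obtain ⟨⟨h1, h2, h3⟩, ⟨g1, g2, g3⟩, ⟨h5, h6, h7⟩, ⟨g5, g6, g7⟩, h9, h10⟩ := id h
        simp only [Tr.set] at h9 h10
        rw [Set.disjoint_union_left, Set.disjoint_union_right, Set.disjoint_union_right] at h9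
        obtain ⟨⟨dAC, dAD⟩, dBC, dBD⟩ := h9
        have hDC : ¬ adj s t D.set C.set := fun h => hCD ((adj_comm s t _ _).1 h)
        have hC : adj s t C.set (A.set ∪ B.set) := by
          have h11 := hconn C.set (D.set ∪ (A.set ∪ B.set)) (set_nonempty C)
            ((set_nonempty D).mono Set.subset_union_left) (by
              rw [Set.disjoint_union_right, Set.disjoint_union_right]
              exact ⟨g1, dAC.symm, dBC.symm⟩) (by
              rw [← h10]
              ext x; simp only [Set.mem_union]; tauto)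
          rw [adj_union] at h11
          exact h11.resolve_left hCD
        have hD : adj s t D.set (A.set ∪ B.set) := by
          have h11 := hconn D.set (C.set ∪ (A.set ∪ B.set)) (set_nonempty D)
            ((set_nonempty C).mono Set.subset_union_left) (by
              rw [Set.disjoint_union_right, Set.disjoint_union_right]
              exact ⟨g1.symm, dAD.symm, dBD.symm⟩) (by
              rw [← h10]
              ext x; simp only [Set.mem_union]; tauto)
          rw [adj_union] at h11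
          exact h11.resolve_left hDC
        have hA' : adj s t A.set (D.set ∪ C.set) := by rw [Set.union_comm]; exact hA
        have hB' : adj s t B.set (D.set ∪ C.set) := by rw [Set.union_comm]; exact hB
        have hC' : adj s t C.set (B.set ∪ A.set) := by rw [Set.union_comm]; exact hC
        have hD' : adj s t D.set (B.set ∪ A.set) := by rw [Set.union_comm]; exact hD
        by_cases hAC : adj s t A.set C.set
        · by_cases hAD : adj s t A.set D.set
          · by_cases hBC : adj s t B.set C.set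
            · by_cases hBD : adj s t B.set D.set
              · have h12 := sub4 s t Z hE A B C D w h hCD
                have h13 := width_card s t w A h6
                have h14 := width_card s t w B h7
                by_cases h15 : (cut s t (B.set ∪ C.set)).card ≤ w
                · exact core0 s t w Z hE A B C D h hCD hAC hAD hBC hBD h15
                · obtain ⟨T1, T2, q1, q2⟩ := core0 s t w Z hE B A C D h.swap1 hCD hBC hBD hAC
                    hAD (by omega)
                  exact ⟨T1, T2, q1, by rw [Ps_swap1]; exact q2⟩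
              · obtain ⟨T1, T2, q1, q2⟩ := core1 s t w Z hE B A D C h.swap1.swap2 hDC hB' hD'
                  hBD
                exact ⟨T1, T2, q1, by rw [Ps_swap1, Ps_swap2]; exact q2⟩
            · obtain ⟨T1, T2, q1, q2⟩ := core1 s t w Z hE B A C D h.swap1 hCD hB hC' hBC
              exact ⟨T1, T2, q1, by rw [Ps_swap1]; exact q2⟩
          · obtain ⟨T1, T2, q1, q2⟩ := core1 s t w Z hE A B D C h.swap2 hDC hA' hD hAD
            exact ⟨T1, T2, q1, by rw [Ps_swap2]; exact q2⟩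
        · exact core1 s t w Z hE A B C D h hCD hA hC hAC
      · obtain ⟨T1, T2, q1, q2⟩ := ihA B (.node C D) (h.reroot hE) hB
        exact ⟨T1, T2, q1, by rw [Ps_reroot]; exact q2⟩
    · obtain ⟨T1, T2, q1, q2⟩ := ihB A (.node C D) (h.swap1.reroot hE) hA
      exact ⟨T1, T2, q1, by rw [Ps_swap1, Ps_reroot]; exact q2⟩

theorem toLeaf (s t : E → V) (w : ℕ) (Z : Set V) (hE : ∀ e, s e ∈ Z ∧ t e ∈ Z) :
    ∀ T1 T2 : Tr V, Val s t w Z T1 T2 → ∃ (v : V) (T : Tr V), Val s t w Z (.leaf v) T ∧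
      Ps s t (.leaf v) T = Ps s t T1 T2 := by
  intro T1
  induction T1 with
  | leaf v => exact fun T2 h => ⟨v, T2, h, rfl⟩
  | node a b iha ihb =>
    intro T2 h
    obtain ⟨v, T, q1, q2⟩ := iha (.node b T2) (h.reroot hE)
    exact ⟨v, T, q1, by rw [q2, Ps_reroot]⟩

/-- Existence of bond carvings. -/
theorem bond (s t : E → V) (w : ℕ) (Z : Set V) (hE : ∀ e, s e ∈ Z ∧ t e ∈ Z)
    (hconn : ∀ X Y : Set V, X.Nonempty → Y.Nonempty → Disjoint X Y → X ∪ Y = Z → adj s t X Y)
    (hcv : ∀ (v : V) (X Y : Set V), X.Nonempty → Y.Nonempty → Disjoint X Y → v ∉ X → v ∉ Y →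
      {v} ∪ (X ∪ Y) = Z → adj s t X Y) :
    ∀ (n : ℕ) (T1 T2 : Tr V), Val s t w Z T1 T2 → Ps s t T1 T2 ≤ n →
    ∃ (v : V) (T : Tr V), Val s t w Z (.leaf v) T ∧ ps s t T {v} 1 = 0 := by
  intro n
  induction n with
  | zero =>
    intro T1 T2 h hn
    obtain ⟨v, T, q1, q2⟩ := toLeaf s t w Z hE T1 T2 h
    refine ⟨v, T, q1, ?_⟩
    have h0 : Ps s t (.leaf v) T = 0 := by omega
    unfold Ps at h0
    simp only [Tr.set, Tr.size] at h0
    omega
  | succ n ih =>
    intro T1 T2 h hn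
    obtain ⟨v, T, q1, q2⟩ := toLeaf s t w Z hE T1 T2 h
    by_cases h0 : ps s t T {v} 1 = 0
    · exact ⟨v, T, q1, h0⟩
    · obtain ⟨P, C, D, r1, r2, r3⟩ := locate s t w Z hE T (.leaf v) q1.symm h0
      obtain ⟨T3, T4, p1, p2⟩ := improve s t w Z hE hconn hcv P C D r1 r2
      rw [Ps_comm s t T, q2] at r3
      exact ih T3 T4 p1 (by omega)

end Pool.Agent.TH405.CW
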