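import Pool.Agent.TH405.CW.KT
import Pool.Agent.TH405.CW.Cls

/-! The checker for the gluings and its soundness. -/

set_option autoImplicit false

namespace Pool.Agent.TH405.CW

/-- A scaled digit. -/
def scd (u d : ℕ) : ℕ := Nat.sub (Nat.mod (Nat.mul (Nat.succ d) u) 5) 1

theorem scd_facts {u d : ℕ} (hu : 1 ≤ u ∧ u ≤ 4) (hd : d < 4) :
    scd u d < 4 ∧ vl (scd u d) = (u : ZMod 5) * vl d := by
  obtain ⟨h1, h2⟩ := hu
  unfold vl
  interval_cases u <;> interval_cases d <;> decide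

theorem u_ne {u : ℕ} (hu : 1 ≤ u ∧ u ≤ 4) : (u : ZMod 5) ≠ 0 := by
  obtain ⟨h1, h2⟩ := hu
  interval_cases u <;> decide

/-- All `k` digits scaled. -/
noncomputable def sck (k u : ℕ) : ℕ → ℕ :=
  Nat.rec (fun _ => 0) (fun _ ih m => Nat.add (scd u (Nat.mod m 4)) (Nat.mul 4 (ih (Nat.div m 4)))) k

theorem sck_dg {u : ℕ} (hu : 1 ≤ u ∧ u ≤ 4) : ∀ {k m i : ℕ}, i < k →
    dg (sck k u m) i = scd u (dg m i) := by
  intro k
  induction k with
  | zero => intro m i h; omega
  | succ k ih =>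
    intro m i h
    have e : sck (k + 1) u m = scd u (m % 4) + 4 * sck k u (m / 4) := rfl
    have h4 := (scd_facts hu (Nat.mod_lt m (by norm_num : 0 < 4))).1
    rcases i with _ | i
    · rw [e, dg_cons_zero h4, dg_zero]
    · rw [e, dg_cons h4, ih (by omega), dg_succ]

/-- Digits scaled and renumbered. -/
noncomputable def pds (u m : ℕ) (τ : List ℕ) : ℕ :=
  List.rec 0 (fun t _ ih => Nat.add (scd u (dk m t)) (Nat.mul 4 ih)) τ

theorem pds_dg {u m : ℕ} (hu : 1 ≤ u ∧ u ≤ 4) : ∀ {τ : List ℕ} {i : ℕ}, i < τ.length →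
    dg (pds u m τ) i = scd u (dg m (τ.getD i 0)) := by
  intro τ
  induction τ with
  | nil => intro i h; simp at h
  | cons t τ ih =>
    intro i h
    have e : pds u m (t :: τ) = scd u (dg m t) + 4 * pds u m τ := rfl
    have h4 := (scd_facts hu (dg_lt m t)).1
    rcases i with _ | i
    · rw [e, dg_cons_zero h4]; rfl
    · rw [e, dg_cons h4, ih (by simpa using h)]; rfl

theorem pds_lt {u m : ℕ} (hu : 1 ≤ u ∧ u ≤ 4) : ∀ τ : List ℕ, pds u m τ < 4 ^ τ.length := by
  intro τ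
  induction τ with
  | nil => show 0 < 1; norm_num
  | cons t τ ih =>
    have e : pds u m (t :: τ) = scd u (dg m t) + 4 * pds u m τ := rfl
    have h4 := (scd_facts hu (dg_lt m t)).1
    rw [e, List.length_cons, pow_succ]
    omega

/-- The closure of a list of states under scaling. -/
noncomputable def clo (k : ℕ) (L : List ℕ) : ℕ := orN L (fun m =>
  Nat.lor (Nat.lor (Nat.shiftLeft 1 (sck k 1 m)) (Nat.shiftLeft 1 (sck k 2 m)))
    (Nat.lor (Nat.shiftLeft 1 (sck k 3 m)) (Nat.shiftLeft 1 (sck k 4 m))))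

theorem clo_bit {k n : ℕ} {L : List ℕ} (h : (clo k L).testBit n = true) :
    ∃ m ∈ L, ∃ u, (1 ≤ u ∧ u ≤ 4) ∧ n = sck k u m := by
  obtain ⟨m, hm, h2⟩ := orN_bit h
  have h3 : ((Nat.shiftLeft 1 (sck k 1 m) ||| Nat.shiftLeft 1 (sck k 2 m)) |||
    (Nat.shiftLeft 1 (sck k 3 m) ||| Nat.shiftLeft 1 (sck k 4 m))).testBit n = true := h2
  rw [Nat.testBit_or, Nat.testBit_or, Nat.testBit_or] at h3
  simp only [Bool.or_eq_true] at h3
  rcases h3 with (h3 | h3) | (h3 | h3)
  · exact ⟨m, hm, 1, by omega, one_bit h3⟩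
  · exact ⟨m, hm, 2, by omega, one_bit h3⟩
  · exact ⟨m, hm, 3, by omega, one_bit h3⟩
  · exact ⟨m, hm, 4, by omega, one_bit h3⟩

/-- A word of exchanges. -/
noncomputable def wdl (code : ℕ) : List ℕ :=
  Nat.rec (fun _ => []) (fun _ ih c => cond (Nat.beq c 0) []
    (Nat.sub (Nat.mod c 8) 1 :: ih (Nat.div c 8))) 21 code

/-- The exchanges of `W` applied to a mask. -/
noncomputable def mwk (W : List ℕ) (M : ℕ) : ℕ :=
  List.rec (fun M => M) (fun i _ ih M => frcN (sw i M) ih) W M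

theorem mwk_cons (i : ℕ) (W : List ℕ) (M : ℕ) : mwk (i :: W) M = mwk W (sw i M) := by
  show frcN (sw i M) (fun M => mwk W M) = _
  rw [frcN_eq]

/-- Exchange of two entries of a list. -/
def swl : ℕ → List ℕ → List ℕ
  | 0, x :: y :: l => y :: x :: l
  | i + 1, x :: l => x :: swl i l
  | _, l => l

theorem swl_len : ∀ (i : ℕ) (l : List ℕ), (swl i l).length = l.length
  | 0, [] => rfl
  | 0, [_] => rfl
  | 0, _ :: _ :: _ => rfl
  | _ + 1, [] => rfl
  | i + 1, x :: l => by
    show (x :: swl i l).length = _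
    rw [List.length_cons, swl_len i l, List.length_cons]

theorem swl_get : ∀ (i : ℕ) (l : List ℕ) (j : ℕ), i + 1 < l.length →
    (swl i l).getD j 0 = if j = i then l.getD (i + 1) 0 else if j = i + 1 then l.getD i 0
      else l.getD j 0
  | 0, [], _, h => by simp at h
  | 0, [_], _, h => by simp at h
  | 0, x :: y :: l, j, _ => by
    rcases j with _ | _ | j
    · rfl
    · rfl
    · rw [if_neg (by omega), if_neg (by omega)]
      rfl
  | i + 1, [], _, h => by simp at h
  | i + 1, x :: l, j, h => by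
    rcases j with _ | j
    · rw [if_neg (by omega), if_neg (by omega)]
      rfl
    · show (swl i l).getD j 0 = _
      rw [swl_get i l j (by simpa using h)]
      simp only [Nat.add_right_cancel_iff]
      rfl

/-- The exchanges of `W` applied to a list. -/
def plk : List ℕ → List ℕ → List ℕ
  | [], P => P
  | i :: W, P => plk W (swl i P)

/-- Inverses modulo five. -/
def inv5 (v : ℕ) : ℕ := Nat.mod (Nat.mul v (Nat.mul v v)) 5

theorem inv5_facts {d : ℕ} (hd : d < 4) : (1 ≤ inv5 (Nat.succ d) ∧ inv5 (Nat.succ d) ≤ 4) ∧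
    scd (inv5 (Nat.succ d)) d = 0 := by
  interval_cases d <;> decide

/-- The closure mask of a class. -/
def msk (k i : ℕ) : ℕ := ((Cl k).getD i ([], 0)).2

/-- The states of a class. -/
def rps (k i : ℕ) : List ℕ := ((Cl k).getD i ([], 0)).1

/-- A state of a target with a digit removed. -/
noncomputable def tn (t0 : ℕ) (τ' : List ℕ) (m : ℕ) : ℕ :=
  frcN (inv5 (Nat.succ (dk m t0))) (fun u => pds u m τ')

/-- A tag for the lowest 64 bits (which are not used; different tags speed up the kernel). -/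
def tg (x : ℕ × ℕ) : ℕ := Nat.mod (Nat.div (Nat.mul (Nat.add (Nat.mul x.2 16) (Nat.succ x.1))
  0x9E3779B97F4A7C15) 0x10000000000) 0x10000000000000000

/-- Union of the masks `b` and `f r`. -/
noncomputable def orL (b : ℕ) (l : List ℕ) (f : ℕ → ℕ) : ℕ :=
  List.rec b (fun h _ ih => Nat.lor ih (f h)) l

theorem orL_bit {b : ℕ} {l : List ℕ} {f : ℕ → ℕ} {n r : ℕ} (hr : r ∈ l)
    (h : (f r).testBit n = true) : (orL b l f).testBit n = true := by
  induction l with
  | nil => simp at hr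
  | cons y l ih =>
    show (orL b l f ||| f y).testBit n = true
    rw [Nat.testBit_or, Bool.or_eq_true]
    rcases List.mem_cons.1 hr with rfl | hr
    · exact Or.inr h
    · exact Or.inl (ih hr)

/-- The mask of a target. -/
noncomputable def tmf (w k na : ℕ) (T : ℕ × List ℕ) : ℕ :=
  Nat.shiftLeft (Nat.shiftRight (orL (tg (T.1, List.rec 0 (fun x _ ih => Nat.add x (Nat.mul 8 ih))
    T.2)) (rps k T.1) (fun m =>
    frcN (tn (T.2.getD (na - 1) 0) (T.2.eraseIdx (na - 1)) m)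
    (fun n => Nat.shiftLeft 1 (Nat.add 64 (Nat.add (Nat.mul w n) (Nat.sub w 1)))))) 64) 64

/-- The sets of the first piece. -/
def ARf (S R2 A t : ℕ) : ℕ :=
  Nat.add (Nat.shiftLeft (Nat.mul (Nat.mod A (Nat.pow 2 S)) R2) 64) t

/-- Union of the masks `b` and `f 0, ..., f (n - 1)`. -/
noncomputable def orB (b n : ℕ) (f : ℕ → ℕ) : ℕ := Nat.rec b (fun h ih => Nat.lor ih (f h)) n

theorem orB_bit {b : ℕ} {f : ℕ → ℕ} {n : ℕ} : ∀ {N : ℕ}, (orB b N f).testBit n = true →
    b.testBit n = true ∨ ∃ r < N, (f r).testBit n = true := by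
  intro N
  induction N with
  | zero => exact fun h => Or.inl h
  | succ N ih =>
    intro h
    have h' : (orB b N f ||| f N).testBit n = true := h
    rw [Nat.testBit_or, Bool.or_eq_true] at h'
    rcases h' with h' | h'
    · rcases ih h' with h | ⟨r, hr, h2⟩
      · exact Or.inl h
      · exact Or.inr ⟨r, by omega, h2⟩
    · exact Or.inr ⟨N, by omega, h'⟩

/-- The sets of the second piece. -/
noncomputable def BRf (w S n2 R1 B t : ℕ) : ℕ := orB t n2 (fun z =>
  Nat.shiftLeft (Nat.mul (Nat.mod (Nat.shiftRight B (Nat.mul w (Nat.sub (Nat.sub n2 1) z)))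
    (Nat.pow 2 w)) R1) (Nat.add (Nat.mul S z) 64))

/-- The check for a pair. -/
noncomputable def prk (LOW1 LOW2 A R : ℕ) (TM : List ℕ) : Bool :=
  frc (Nat.land A R) (fun X => frc (Nat.lor (Nat.add (Nat.land X LOW1) LOW2) X)
    (fun Z => anyN TM (fun T => Nat.beq (Nat.land Z T) T)))

/-- A list of numbers which are evaluated first. -/
noncomputable def mapF {α : Type} (l : List α) (g : α → ℕ) (f : List ℕ → Bool) : Bool :=
  List.rec (fun f => f []) (fun h _ ih f => frc (g h) (fun x => ih (fun xs => f (x :: xs)))) l f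

theorem mapF_eq {α : Type} (l : List α) (g : α → ℕ) : ∀ f : List ℕ → Bool,
    mapF l g f = f (l.map g) := by
  induction l with
  | nil => intro f; rfl
  | cons a l ih =>
    intro f
    show frc (g a) (fun x => mapF l g (fun xs => f (x :: xs))) = _
    rw [frc_eq, ih]
    rfl

/-- `f` holds for all entries. -/
noncomputable def allP {α : Type} (l : List α) (f : α → Bool) : Bool :=
  List.rec true (fun h _ ih => cond (f h) ih false) l

theorem allP_mem {α : Type} {l : List α} {f : α → Bool} (h : allP l f = true) :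
    ∀ x ∈ l, f x = true := by
  induction l with
  | nil => intro x hx; simp at hx
  | cons y l ih =>
    have h' : cond (f y) (allP l f) false = true := h
    intro x hx
    cases hy : f y with
    | false => rw [hy] at h'; simp at h'
    | true =>
      rw [hy] at h'
      rcases List.mem_cons.mp hx with rfl | hx
      · exact hy
      · exact ih h' x hx

/-- The check of a part of a table. The first pieces are `XL`, the second ones `YL`, the targets
`TL`; `w = 4 ^ c`, `n1 = 4 ^ (a - c - 1)`, `n2 = 4 ^ (b - c)`, `S = w * n1`. -/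
noncomputable def mainC (a b k na w n1 n2 S : ℕ) (XL : List (ℕ × ℕ)) (TL : List (ℕ × List ℕ))
    (YL : List (ℕ × ℕ)) : Bool :=
  frc (repk w n1) fun R1 => frc (repk S n2) fun R2 =>
  frc (Nat.shiftLeft (Nat.mul (Nat.sub (Nat.pow 2 (Nat.sub w 1)) 1) (repk w (Nat.mul n1 n2))) 64)
    fun LOW2 => frc (Nat.add LOW2 0xFFFFFFFFFFFFFFFF) fun LOW1 =>
  mapF TL (tmf w k na) fun TM =>
  mapF XL (fun x => ARf S R2 (mwk (wdl x.2) (msk a x.1)) (tg x)) fun AR =>
  allP YL (fun y => frc (mwk (wdl y.2) (msk b y.1)) fun B =>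
    frc (BRf w S n2 R1 B (tg y)) fun R => allN AR (fun A => prk LOW1 LOW2 A R TM))

/-- A target. -/
def okT (k : ℕ) (T : ℕ × List ℕ) : Bool :=
  Nat.ble (T.1 + 1) (Cl k).length && Nat.beq T.2.length k && decide T.2.Nodup &&
    T.2.all (fun t => Nat.ble (t + 1) k)

/-- The gluing of two sets contains a class. -/
def LeafOK (a b c A B : ℕ) : Prop :=
  ∃ i < (Cl (a + b - 2 * c)).length, ∃ τ : List ℕ, τ.length = a + b - 2 * c ∧ τ.Nodup ∧
    (∀ t ∈ τ, t < a + b - 2 * c) ∧ ∀ m ∈ rps (a + b - 2 * c) i, ∃ x y,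
      A.testBit x = true ∧ B.testBit y = true ∧ (∀ i < c, dg y i = dg x i) ∧
      ∃ u : ZMod 5, u ≠ 0 ∧ (∀ i < a - c, u * vl (dg m (τ.getD i 0)) = vl (dg x (c + i))) ∧
        ∀ i < b - c, u * vl (dg m (τ.getD (a - c + i) 0)) = vl (3 - dg y (c + i))

theorem shr_and (x y : ℕ) : (x &&& y) >>> 64 = (x >>> 64) &&& (y >>> 64) := by
  refine Nat.eq_of_testBit_eq fun i => ?_
  simp only [Nat.testBit_shiftRight, Nat.testBit_and]

theorem shr_or (x y : ℕ) : (x ||| y) >>> 64 = (x >>> 64) ||| (y >>> 64) := by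
  refine Nat.eq_of_testBit_eq fun i => ?_
  simp only [Nat.testBit_shiftRight, Nat.testBit_or]

theorem shr_shl (x : ℕ) : (x <<< 64) >>> 64 = x := by
  rw [Nat.shiftRight_eq_div_pow, Nat.shiftLeft_eq]
  exact Nat.mul_div_cancel _ (by positivity)

theorem shr_add_shl (x y : ℕ) : (x + (y <<< 64)) >>> 64 = (x >>> 64) + y := by
  rw [Nat.shiftRight_eq_div_pow, Nat.shiftLeft_eq, Nat.shiftRight_eq_div_pow]
  exact Nat.add_mul_div_right _ _ (by positivity)

theorem pair_sound {a b c A B ta tb : ℕ} {na w n1 n2 S : ℕ} {TL : List (ℕ × List ℕ)}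
    (hc : c < a) (hcb : c < b) (hna : na = a - c) (hw : w = 4 ^ c)
    (hn1 : n1 = 4 ^ (a - c - 1)) (hn2 : n2 = 4 ^ (b - c)) (hS : S = w * n1)
    (hta : ta < 2 ^ 64) (htb : tb < 2 ^ 64)
    (hT : TL.all (okT (a + b - 2 * c)) = true)
    (h : prk (Nat.add (Nat.shiftLeft (Nat.mul (Nat.sub (Nat.pow 2 (Nat.sub w 1)) 1)
        (repk w (Nat.mul n1 n2))) 64) 0xFFFFFFFFFFFFFFFF)
      (Nat.shiftLeft (Nat.mul (Nat.sub (Nat.pow 2 (Nat.sub w 1)) 1) (repk w (Nat.mul n1 n2))) 64)
      (ARf S (repk S n2) A ta) (BRf w S n2 (repk w n1) B tb)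
      (TL.map (tmf w (a + b - 2 * c) na)) = true) : LeafOK a b c A B := by
  have hw0 : 0 < w := by rw [hw]; positivity
  have hn10 : 0 < n1 := by rw [hn1]; positivity
  have hS0 : 0 < S := by rw [hS]; positivity
  rw [repk_eq hw0, repk_eq hw0, repk_eq hS0] at h
  unfold prk at h
  rw [frc_eq, frc_eq] at h
  obtain ⟨M, hM, h1⟩ := anyN_mem h
  obtain ⟨T, hTm, rfl⟩ := List.mem_map.1 hM
  have hok := (List.all_eq_true.1 hT) T hTm
  unfold okT at hok
  simp only [Bool.and_eq_true, Nat.ble_eq, decide_eq_true_eq, List.all_eq_true, Nat.beq_eq]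
    at hok
  obtain ⟨⟨⟨k1, k2⟩, k3⟩, k4⟩ := hok
  refine ⟨T.1, by omega, T.2, k2, k3, fun t ht => by have := k4 t ht; omega, fun m hm => ?_⟩
  have h20 := Nat.eq_of_beq_eq_true h1
  obtain ⟨LOW, hLOW⟩ : ∃ LOW, LOW = (2 ^ (w - 1) - 1) * rep w (n1 * n2) := ⟨_, rfl⟩
  obtain ⟨A0, hA0⟩ : ∃ A0, A0 = A % 2 ^ S * rep S n2 := ⟨_, rfl⟩
  obtain ⟨B0, hB0⟩ : ∃ B0, B0 = (BRf w S n2 (rep w n1) B tb) >>> 64 := ⟨_, rfl⟩
  obtain ⟨T0, hT0⟩ : ∃ T0, T0 = (tmf w (a + b - 2 * c) na T) >>> 64 := ⟨_, rfl⟩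
  have h2 : (((A0 &&& B0) &&& LOW) + LOW ||| (A0 &&& B0)) &&& T0 = T0 := by
    have e1 : (((((A0 <<< 64 + ta) &&& BRf w S n2 (rep w n1) B tb) &&&
        (LOW <<< 64 + 0xFFFFFFFFFFFFFFFF)) + LOW <<< 64) |||
        ((A0 <<< 64 + ta) &&& BRf w S n2 (rep w n1) B tb)) &&& tmf w (a + b - 2 * c) na T =
        tmf w (a + b - 2 * c) na T := by rw [hA0, hLOW]; exact h20
    have e2 := congrArg (fun x => x >>> 64) e1
    beta_reduce at e2
    have e3 : (A0 <<< 64 + ta) >>> 64 = A0 := by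
      rw [Nat.add_comm, shr_add_shl, Nat.shiftRight_eq_div_pow, Nat.div_eq_of_lt hta, zero_add]
    have e4 : (LOW <<< 64 + 0xFFFFFFFFFFFFFFFF) >>> 64 = LOW := by
      rw [Nat.add_comm, shr_add_shl, Nat.shiftRight_eq_div_pow,
        Nat.div_eq_of_lt (by norm_num), zero_add]
    rw [shr_and, shr_or, shr_add_shl, shr_and, shr_and, e3, e4, ← hB0, ← hT0] at e2
    exact e2
  -- the removed digit
  obtain ⟨t0, ht0⟩ : ∃ t0, t0 = T.2.getD (na - 1) 0 := ⟨_, rfl⟩
  obtain ⟨u, hu⟩ : ∃ u, u = inv5 (Nat.succ (dg m t0)) := ⟨_, rfl⟩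
  obtain ⟨hu1, hu2⟩ := inv5_facts (dg_lt m t0)
  rw [← hu] at hu1 hu2
  obtain ⟨n, hn⟩ : ∃ n, n = pds u m (T.2.eraseIdx (na - 1)) := ⟨_, rfl⟩
  have hlen : (T.2.eraseIdx (na - 1)).length = a + b - 2 * c - 1 := by
    rw [List.length_eraseIdx, if_pos (by omega), k2]
  have hnlt : n < n1 * n2 := by
    have := pds_lt (m := m) hu1 (T.2.eraseIdx (na - 1))
    rw [← hn, hlen] at this
    rw [hn1, hn2, ← pow_add, show a - c - 1 + (b - c) = a + b - 2 * c - 1 by omega]
    exact this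
  have hbit : T0.testBit (w * n + (w - 1)) = true := by
    have e0 : T0 = (orL (tg (T.1, List.rec 0 (fun x _ ih => Nat.add x (Nat.mul 8 ih))
        T.2)) (rps (a + b - 2 * c) T.1) (fun m =>
        frcN (tn (T.2.getD (na - 1) 0) (T.2.eraseIdx (na - 1)) m)
        (fun n => Nat.shiftLeft 1 (Nat.add 64 (Nat.add (Nat.mul w n) (Nat.sub w 1)))))) >>> 64 := by
      rw [hT0]
      exact shr_shl _
    rw [e0, Nat.testBit_shiftRight]
    refine orL_bit hm ?_
    unfold tn
    rw [frcN_eq, frcN_eq]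
    have e : pds (inv5 (Nat.succ (dk m (T.2.getD (na - 1) 0)))) m (T.2.eraseIdx (na - 1)) = n := by
      rw [hn, hu, ht0]; rfl
    rw [e]
    exact one_bit'
  rw [← h2] at hbit
  obtain ⟨X, hX⟩ : ∃ X, X = A0 &&& B0 := ⟨_, rfl⟩
  rw [← hX, hLOW, Nat.testBit_and, Bool.and_eq_true] at hbit
  have hbit2 := hbit.1
  have hrow : ∃ j < w, X.testBit (w * n + j) = true := by
    rw [Nat.testBit_or, Bool.or_eq_true] at hbit2
    rcases hbit2 with h3 | h3
    · obtain ⟨j, hj, h4⟩ := carry hw0 (n1 * n2) n _ hnlt (fun q hq => by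
        rw [Nat.testBit_and, Bool.and_eq_true] at hq
        intro hcon
        have h5 := rep_bit (S := w) (x := 2 ^ (w - 1) - 1) (by
          have := Nat.one_le_two_pow (n := w - 1)
          have h6 : 2 ^ (w - 1) ≤ 2 ^ w := Nat.pow_le_pow_right (by norm_num) (by omega)
          omega) hq.2
        rw [hcon, Nat.testBit_two_pow_sub_one] at h5
        simp at h5) h3
      rw [Nat.testBit_and, Bool.and_eq_true] at h4
      exact ⟨j, hj, h4.1⟩
    · exact ⟨w - 1, by omega, h3⟩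
  obtain ⟨j, hj, hXj⟩ := hrow
  rw [hX, Nat.testBit_and, Bool.and_eq_true] at hXj
  obtain ⟨hA, hB⟩ := hXj
  -- coordinates
  obtain ⟨z1, hz1⟩ : ∃ z1, z1 = n % n1 := ⟨_, rfl⟩
  obtain ⟨z2, hz2⟩ : ∃ z2, z2 = n / n1 := ⟨_, rfl⟩
  have hnz : n = z1 + n1 * z2 := by rw [hz1, hz2, Nat.mod_add_div]
  have hz1lt : z1 < n1 := by rw [hz1]; exact Nat.mod_lt _ hn10
  have hz2lt : z2 < n2 := by rw [hz2]; exact Nat.div_lt_of_lt_mul hnlt
  have hlo : j + w * z1 < S := by
    rw [hS]
    calc j + w * z1 < w + w * z1 := by omega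
      _ = w * (z1 + 1) := by ring
      _ ≤ w * n1 := Nat.mul_le_mul_left _ hz1lt
  have hpos : w * n + j = (j + w * z1) + S * z2 := by
    rw [hnz, hS]; ring
  rw [hpos] at hA hB
  rw [hA0] at hA
  rw [hB0, Nat.testBit_shiftRight] at hB
  have hA2 : A.testBit (j + w * z1) = true := by
    have h3 := rep_bit (S := S) (x := A % 2 ^ S) (Nat.mod_lt _ (by positivity)) hA
    rw [Nat.add_mul_mod_self_left, Nat.mod_eq_of_lt hlo, Nat.testBit_mod_two_pow,
      Bool.and_eq_true] at h3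
    exact h3.2.2
  have hB2 : B.testBit (j + w * (n2 - 1 - z2)) = true := by
    obtain ⟨z, hz, h3⟩ := (orB_bit hB).resolve_left (by
      rw [Nat.testBit_lt_two_pow (lt_of_lt_of_le htb
        (Nat.pow_le_pow_right (by norm_num) (by omega)))]
      simp)
    have h4 : ((((B >>> (w * (n2 - 1 - z))) % 2 ^ w) * rep w n1) <<< (S * z + 64)).testBit
        (64 + (j + w * z1 + S * z2)) = true := h3
    rw [Nat.testBit_shiftLeft, Bool.and_eq_true, decide_eq_true_iff] at h4
    obtain ⟨h5', h6'⟩ := h4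
    have h5 : j + w * z1 + S * z2 ≥ S * z := by omega
    have h6 : (((B >>> (w * (n2 - 1 - z))) % 2 ^ w) * rep w n1).testBit
        (j + w * z1 + S * z2 - S * z) = true := by
      rw [show j + w * z1 + S * z2 - S * z = 64 + (j + w * z1 + S * z2) - (S * z + 64) by omega]
      exact h6'
    obtain ⟨h7, h8⟩ := rep_bit (S := w) (Nat.mod_lt _ (by positivity)) h6
    rw [← hS] at h7
    have hzz : z = z2 := by
      by_contra hne
      rcases Nat.lt_or_gt_of_ne hne with h9 | h9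
      · have : S * (z + 1) ≤ S * z2 := Nat.mul_le_mul_left _ h9
        rw [Nat.mul_succ] at this
        omega
      · have : S * (z2 + 1) ≤ S * z := Nat.mul_le_mul_left _ h9
        rw [Nat.mul_succ] at this
        omega
    subst hzz
    rw [Nat.add_sub_cancel, Nat.add_mul_mod_self_left, Nat.mod_eq_of_lt hj,
      Nat.testBit_mod_two_pow, Bool.and_eq_true, Nat.testBit_shiftRight] at h8
    rw [Nat.add_comm]
    exact h8.2
  refine ⟨_, _, hA2, hB2, ?_, (u : ZMod 5), u_ne hu1, ?_, ?_⟩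
  · intro i hi
    rw [hw, dg_low hi, dg_low hi]
  · intro i hi
    have hjc : j < 4 ^ c := by rw [← hw]; exact hj
    rw [hw, dg_high hjc]
    have hdn : ∀ i < a - c - 1, dg z1 i = dg n i := by
      intro i hi
      rw [hnz, hn1, dg_low hi]
    by_cases hi2 : i < a - c - 1
    · rw [hdn i hi2, hn, pds_dg hu1 (by omega)]
      have e : (T.2.eraseIdx (na - 1)).getD i 0 = T.2.getD i 0 := by
        rw [List.getD_eq_getElem?_getD, List.getD_eq_getElem?_getD, List.getElem?_eraseIdx,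
          if_pos (by omega)]
      rw [e]
      exact ((scd_facts hu1 (dg_lt m _)).2).symm
    · have hi3 : i = na - 1 := by omega
      have h3 : dg z1 i = 0 := by
        unfold dg
        rw [Nat.div_eq_of_lt (lt_of_lt_of_le hz1lt (by
          rw [hn1]; exact Nat.pow_le_pow_right (by norm_num) (by omega)))]
      rw [h3, hi3, ← ht0, ← hu2]
      exact ((scd_facts hu1 (dg_lt m _)).2).symm
  · intro i hi
    have hjc : j < 4 ^ c := by rw [← hw]; exact hj
    rw [hw, dg_high hjc]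
    have e1 : dg z2 i = dg n (a - c - 1 + i) := by
      rw [hnz, hn1]
      exact (dg_high (by rw [← hn1]; exact hz1lt)).symm
    have e2 : 3 - dg (n2 - 1 - z2) i = dg z2 i := by
      have h3 : ∀ (q z i : ℕ), z < 4 ^ q → i < q → 3 - dg (4 ^ q - 1 - z) i = dg z i := by
        intro q
        induction q with
        | zero => intro z i _ hi; omega
        | succ q ih =>
          intro z i hz hi
          have hz4 : z / 4 < 4 ^ q := by rw [pow_succ] at hz; omega
          have e3 : 4 ^ (q + 1) - 1 - z = (3 - z % 4) + 4 * (4 ^ q - 1 - z / 4) := by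
            rw [pow_succ] at hz ⊢
            omega
          rcases i with _ | i
          · rw [e3, dg_cons_zero (by omega), dg_zero]
            omega
          · rw [e3, dg_cons (by omega), ih _ _ hz4 (by omega), dg_succ]
      rw [hn2]
      exact h3 _ _ _ (by rw [← hn2]; exact hz2lt) hi
    rw [e2, e1, hn, pds_dg hu1 (by omega)]
    have e : (T.2.eraseIdx (na - 1)).getD (a - c - 1 + i) 0 = T.2.getD (a - c + i) 0 := by
      rw [List.getD_eq_getElem?_getD, List.getD_eq_getElem?_getD, List.getElem?_eraseIdx,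
        if_neg (by omega), show a - c - 1 + i + 1 = a - c + i by omega]
    rw [e]
    exact ((scd_facts hu1 (dg_lt m _)).2).symm

theorem mainC_sound {a b c na w n1 n2 S k : ℕ} {XL : List (ℕ × ℕ)} {TL : List (ℕ × List ℕ)}
    {YL : List (ℕ × ℕ)} (hc : c < a) (hcb : c < b) (hk : k = a + b - 2 * c) (hna : na = a - c)
    (hw : w = 4 ^ c) (hn1 : n1 = 4 ^ (a - c - 1)) (hn2 : n2 = 4 ^ (b - c)) (hS : S = w * n1)
    (hT : TL.all (okT k) = true) (h : mainC a b k na w n1 n2 S XL TL YL = true) :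
    ∀ x ∈ XL, ∀ y ∈ YL, LeafOK a b c (mwk (wdl x.2) (msk a x.1)) (mwk (wdl y.2) (msk b y.1)) := by
  intro x hx y hy
  subst hk
  unfold mainC at h
  rw [frc_eq, frc_eq, frc_eq, frc_eq, mapF_eq, mapF_eq] at h
  have h1 := allP_mem h y hy
  rw [frc_eq, frc_eq] at h1
  have h2 := allN_mem h1 _ (List.mem_map.2 ⟨x, hx, rfl⟩)
  have ht : ∀ x, tg x < 2 ^ 64 := fun x => Nat.mod_lt _ (by norm_num)
  exact pair_sound hc hcb hna hw hn1 hn2 hS (ht x) (ht y) hT h2

end Pool.Agent.TH405.CW
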