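import Mathlib

/-!
Cuts and boundary sums in a finite multigraph given by two end maps, nowhere-zero functions with
values modulo five, carvings, states of pieces.
-/

set_option autoImplicit false

open Finset

namespace Pool.Agent.TH405.CW

open Classical in
/-- The edges with exactly one end in `Z`. -/
noncomputable def cut {V E : Type} [Fintype E] (s t : E → V) (Z : Set V) : Finset E :=
  univ.filter (fun e => ¬ (s e ∈ Z ↔ t e ∈ Z))

open Classical in
/-- The net amount of `x` that leaves `v`. -/
noncomputable def bd {V E : Type} [Fintype E] (s t : E → V) (x : E → ZMod 5) (v : V) : ZMod 5 :=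
  ∑ e, x e * ((if s e = v then 1 else 0) - (if t e = v then 1 else 0))

/-- `f` is nowhere zero and a flow at the vertices in `X`. -/
def Good {V E : Type} [Fintype E] (s t : E → V) (f : E → ZMod 5) (X : Set V) : Prop :=
  (∀ e, f e ≠ 0) ∧ ∀ v ∈ X, bd s t f v = 0

/-- The ends of the piece `X` are numbered by `o`. -/
def Ord {V E : Type} [Fintype E] (s t : E → V) (X : Set V) (k : ℕ) (o : ℕ → E) : Prop :=
  (∀ i < k, ∀ j < k, o i = o j → i = j) ∧ ∀ e, e ∈ cut s t X ↔ ∃ i < k, o i = e

open Classical in
/-- The value of `f` at `e` away from `X`. -/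
noncomputable def ov {V E : Type} (s : E → V) (X : Set V) (f : E → ZMod 5) (e : E) : ZMod 5 :=
  if s e ∈ X then f e else - f e

/-- The digit number `i` of `m` to the base four. -/
def dg (m i : ℕ) : ℕ := m / 4 ^ i % 4

/-- The value of a digit. -/
def vl (d : ℕ) : ZMod 5 := ((d + 1 : ℕ) : ZMod 5)

/-- The piece `X` has the state `m`. -/
def HasSt {V E : Type} [Fintype E] (s t : E → V) (X : Set V) (k : ℕ) (o : ℕ → E) (m : ℕ) : Prop :=
  ∃ f : E → ZMod 5, Good s t f X ∧ ∀ i < k, ov s X f (o i) = vl (dg m i)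

/-- Binary trees with leaves labelled by `V`. -/
inductive Tr (V : Type) : Type
  | leaf (v : V) : Tr V
  | node (l r : Tr V) : Tr V

/-- The labels of the leaves. -/
def Tr.set {V : Type} : Tr V → Set V
  | .leaf v => {v}
  | .node l r => l.set ∪ r.set

/-- The number of leaves. -/
def Tr.size {V : Type} : Tr V → ℕ
  | .leaf _ => 1
  | .node l r => l.size + r.size

/-- The labels of different leaves are different. -/
def Tr.Nodup {V : Type} : Tr V → Prop
  | .leaf _ => True
  | .node l r => Disjoint l.set r.set ∧ l.Nodup ∧ r.Nodup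

/-- For each subtree at most `w` edges leave the set of its leaves. -/
def Tr.Width {V E : Type} [Fintype E] (s t : E → V) (w : ℕ) : Tr V → Prop
  | .leaf v => (cut s t {v}).card ≤ w
  | .node l r => (cut s t (l.set ∪ r.set)).card ≤ w ∧ l.Width s t w ∧ r.Width s t w

variable {V E : Type} [Fintype E]

theorem mem_cut (s t : E → V) (Z : Set V) (e : E) :
    e ∈ cut s t Z ↔ ¬ (s e ∈ Z ↔ t e ∈ Z) := by
  classical
  unfold cut
  simp only [mem_filter, mem_univ, true_and]

theorem ord_card (s t : E → V) (X : Set V) (k : ℕ) (o : ℕ → E) (h : Ord s t X k o) :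
    (cut s t X).card = k := by
  classical
  have h1 : cut s t X = (range k).image o := by
    ext e
    rw [h.2 e, mem_image]
    constructor
    · rintro ⟨i, hi, rfl⟩; exact ⟨i, mem_range.2 hi, rfl⟩
    · rintro ⟨i, hi, rfl⟩; exact ⟨i, mem_range.1 hi, rfl⟩
  rw [h1, card_image_of_injOn, card_range]
  intro i hi j hj hij
  exact h.1 i (by simpa using hi) j (by simpa using hj) hij

theorem size_pos {V : Type} (T : Tr V) : 1 ≤ T.size := by
  induction T with
  | leaf v => exact le_rfl
  | node l r hl hr => rw [Tr.size]; omega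

lemma set_nonempty {V : Type} : ∀ U : Tr V, U.set.Nonempty
  | .leaf v => ⟨v, rfl⟩
  | .node l r => by
      obtain ⟨v, hv⟩ := set_nonempty l
      exact ⟨v, Or.inl hv⟩

lemma width_card {V E : Type} [Fintype E] (s t : E → V) (w : ℕ) (U : Tr V)
    (h : U.Width s t w) : (cut s t U.set).card ≤ w := by
  cases U with
  | leaf v => exact h
  | node l r => exact h.1

theorem bd_congr (s t : E → V) (x y : E → ZMod 5) (v : V)
    (h : ∀ e, (s e = v ∨ t e = v) → x e = y e) : bd s t x v = bd s t y v := by
  classical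
  unfold bd
  refine Finset.sum_congr rfl fun e _ => ?_
  by_cases h1 : s e = v
  · rw [h e (Or.inl h1)]
  · by_cases h2 : t e = v
    · rw [h e (Or.inr h2)]
    · simp [h1, h2]

theorem dg_lt (m i : ℕ) : dg m i < 4 := Nat.mod_lt _ (by norm_num)

theorem vl_ne {d : ℕ} (h : d < 4) : vl d ≠ 0 := by
  unfold vl
  interval_cases d <;> decide

theorem vl_neg {d : ℕ} (h : d < 4) : vl (3 - d) = - vl d := by
  unfold vl
  interval_cases d <;> decide

theorem vl_inj {d d' : ℕ} (h : d < 4) (h' : d' < 4) (he : vl d = vl d') : d = d' := by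
  unfold vl at he
  interval_cases d <;> interval_cases d' <;> first | rfl | (exfalso; revert he; decide)

theorem vl_surj (x : ZMod 5) (hx : x ≠ 0) : ∃ d < 4, vl d = x := by
  unfold vl
  revert x
  decide

/-- Multiplying a good function by a unit. -/
theorem good_mul (s t : E → V) (f : E → ZMod 5) (X : Set V) (u : ZMod 5) (hu : u ≠ 0)
    (h : Good s t f X) : Good s t (fun e => u * f e) X := by
  haveI : Fact (Nat.Prime 5) := ⟨by norm_num⟩
  refine ⟨fun e => mul_ne_zero hu (h.1 e), fun v hv => ?_⟩
  have h1 := h.2 v hv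
  unfold bd at h1 ⊢
  simp only [mul_assoc]
  rw [← Finset.mul_sum, h1, mul_zero]

theorem st_mul (s t : E → V) (X : Set V) (k : ℕ) (o : ℕ → E) (m n : ℕ) (u : ZMod 5) (hu : u ≠ 0)
    (hmn : ∀ i < k, vl (dg n i) = u * vl (dg m i)) (h : HasSt s t X k o m) :
    HasSt s t X k o n := by
  obtain ⟨f, hf, hf2⟩ := h
  refine ⟨fun e => u * f e, good_mul s t f X u hu hf, fun i hi => ?_⟩
  rw [hmn i hi, ← hf2 i hi]
  unfold ov
  split_ifs
  · rfl
  · ring

end Pool.Agent.TH405.CW
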