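import Pool.Agent.TH405.CW.Defs

/-! Digits to the base four. -/

set_option autoImplicit false

namespace Pool.Agent.TH405.CW

theorem dg_low {lo i t j : ℕ} (hj : j < i) : dg (lo + 4 ^ i * t) j = dg lo j := by
  unfold dg
  obtain ⟨d, rfl⟩ : ∃ d, i = j + (d + 1) := ⟨i - j - 1, by omega⟩
  rw [pow_add, pow_succ, mul_assoc, Nat.add_mul_div_left _ _ (by positivity)]
  rw [show 4 ^ d * 4 * t = 4 * (4 ^ d * t) by ring, Nat.add_mul_mod_self_left]

theorem dg_high {lo i t j : ℕ} (hlo : lo < 4 ^ i) : dg (lo + 4 ^ i * t) (i + j) = dg t j := by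
  unfold dg
  rw [pow_add, ← Nat.div_div_eq_div_mul, Nat.add_mul_div_left _ _ (by positivity),
    Nat.div_eq_of_lt hlo, zero_add]

theorem dg_zero (m : ℕ) : dg m 0 = m % 4 := by unfold dg; simp

theorem dg_succ (m i : ℕ) : dg m (i + 1) = dg (m / 4) i := by
  unfold dg
  rw [pow_succ', ← Nat.div_div_eq_div_mul]

theorem dg_cons {x m i : ℕ} (hx : x < 4) : dg (x + 4 * m) (i + 1) = dg m i := by
  rw [dg_succ, Nat.add_mul_div_left _ _ (by norm_num), Nat.div_eq_of_lt hx, zero_add]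

theorem dg_cons_zero {x m : ℕ} (hx : x < 4) : dg (x + 4 * m) 0 = x := by
  rw [dg_zero, Nat.add_mul_mod_self_left, Nat.mod_eq_of_lt hx]

/-- `n` arises from `m` by exchanging the digits `i` and `i + 1`. -/
def SwD (i m n : ℕ) : Prop :=
  dg n i = dg m (i + 1) ∧ dg n (i + 1) = dg m i ∧ ∀ j, j ≠ i → j ≠ i + 1 → dg n j = dg m j

theorem dg_split (m i : ℕ) :
    m = m % 4 ^ i + 4 ^ i * (dg m i + 4 * (dg m (i + 1) + 4 * (m / 4 ^ (i + 2)))) := by
  have h1 := Nat.mod_add_div m (4 ^ i)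
  have h2 := Nat.mod_add_div (m / 4 ^ i) 4
  have h3 := Nat.mod_add_div (m / 4 ^ i / 4) 4
  have e1 : dg m i = m / 4 ^ i % 4 := rfl
  have e2 : dg m (i + 1) = m / 4 ^ i / 4 % 4 := by
    unfold dg
    rw [pow_succ, Nat.div_div_eq_div_mul]
  have e3 : m / 4 ^ (i + 2) = m / 4 ^ i / 4 / 4 := by
    rw [Nat.div_div_eq_div_mul, Nat.div_div_eq_div_mul]
    congr 1
    ring
  rw [e1, e2, e3, h3, h2, h1]

theorem dg_combine {lo i x y hi j : ℕ} (hlo : lo < 4 ^ i) (hx : x < 4) (hy : y < 4) :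
    dg (lo + 4 ^ i * (x + 4 * (y + 4 * hi))) j =
      if j < i then dg lo j else if j = i then x else if j = i + 1 then y
        else dg hi (j - (i + 2)) := by
  by_cases h1 : j < i
  · rw [if_pos h1, dg_low h1]
  · rw [if_neg h1]
    obtain ⟨d, rfl⟩ : ∃ d, j = i + d := ⟨j - i, by omega⟩
    rw [dg_high hlo]
    rcases d with _ | _ | d
    · rw [if_pos (Nat.add_zero i), dg_cons_zero hx]
    · rw [if_neg (by omega), if_pos rfl, dg_cons hx, dg_cons_zero hy]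
    · rw [if_neg (by omega), if_neg (by omega), dg_cons hx, dg_cons hy]
      congr 1
      omega

theorem swd_up {i m δ : ℕ} (h : dg m i = dg m (i + 1) + δ) :
    SwD i (m + δ * (3 * 4 ^ i)) m ∧ SwD i m (m + δ * (3 * 4 ^ i)) := by
  obtain ⟨x, hx⟩ : ∃ x, x = dg m i := ⟨_, rfl⟩
  obtain ⟨y, hy⟩ : ∃ y, y = dg m (i + 1) := ⟨_, rfl⟩
  have hx4 : x < 4 := by rw [hx]; exact dg_lt _ _
  have hy4 : y < 4 := by rw [hy]; exact dg_lt _ _
  have h1 := dg_split m i
  have hlo : m % 4 ^ i < 4 ^ i := Nat.mod_lt _ (by positivity)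
  rw [← hx, ← hy] at h1 h
  have h2 : m + δ * (3 * 4 ^ i) =
      m % 4 ^ i + 4 ^ i * (y + 4 * (x + 4 * (m / 4 ^ (i + 2)))) := by
    calc m + δ * (3 * 4 ^ i)
        = m % 4 ^ i + 4 ^ i * (x + 4 * (y + 4 * (m / 4 ^ (i + 2)))) + δ * (3 * 4 ^ i) := by
          rw [← h1]
      _ = _ := by rw [h]; ring
  have key : ∀ j, dg (m + δ * (3 * 4 ^ i)) j =
      if j < i then dg (m % 4 ^ i) j else if j = i then y else if j = i + 1 then x
        else dg (m / 4 ^ (i + 2)) (j - (i + 2)) := fun j => by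
    rw [h2]; exact dg_combine hlo hy4 hx4
  have key2 : ∀ j, dg m j =
      if j < i then dg (m % 4 ^ i) j else if j = i then x else if j = i + 1 then y
        else dg (m / 4 ^ (i + 2)) (j - (i + 2)) := fun j => by
    have h3 := dg_combine (j := j) hlo hx4 hy4 (hi := m / 4 ^ (i + 2))
    rw [← h1] at h3
    exact h3
  have a1 : dg (m + δ * (3 * 4 ^ i)) i = y := by rw [key]; simp
  have a2 : dg (m + δ * (3 * 4 ^ i)) (i + 1) = x := by rw [key]; simp
  have a3 : ∀ j, j ≠ i → j ≠ i + 1 → dg (m + δ * (3 * 4 ^ i)) j = dg m j := by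
    intro j h4 h5
    rw [key, key2, if_neg h4, if_neg h5, if_neg h4, if_neg h5]
  refine ⟨⟨?_, ?_, fun j h4 h5 => (a3 j h4 h5).symm⟩, ⟨?_, ?_, a3⟩⟩
  · rw [a2, hx]
  · rw [a1, hy]
  · rw [a1, hy]
  · rw [a2, hx]

theorem swd_refl {i m : ℕ} (h : dg m i = dg m (i + 1)) : SwD i m m :=
  ⟨h, h.symm, fun _ _ _ => rfl⟩

/-- The masks for the exchange of two digits. -/
def KOK (i K0 K1 K2 K3 : ℕ) : Prop := ∀ m,
  (K0.testBit m = true → dg m i = dg m (i + 1)) ∧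
  (K1.testBit m = true → dg m i = dg m (i + 1) + 1) ∧
  (K2.testBit m = true → dg m i = dg m (i + 1) + 2) ∧
  (K3.testBit m = true → dg m i = dg m (i + 1) + 3)

/-- Exchange of two digits in a set of numbers. -/
def swm (P K0 K1 K2 K3 M : ℕ) : ℕ :=
  Nat.lor (Nat.land M K0) (Nat.lor
    (Nat.lor (Nat.shiftLeft (Nat.land M K1) P) (Nat.land (Nat.shiftRight M P) K1)) (Nat.lor
    (Nat.lor (Nat.shiftLeft (Nat.land M K2) (Nat.mul 2 P))
      (Nat.land (Nat.shiftRight M (Nat.mul 2 P)) K2))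
    (Nat.lor (Nat.shiftLeft (Nat.land M K3) (Nat.mul 3 P))
      (Nat.land (Nat.shiftRight M (Nat.mul 3 P)) K3))))

theorem up_bit {i M K δ D m : ℕ} (hK : ∀ m, K.testBit m = true → dg m i = dg m (i + 1) + δ)
    (hD : D = δ * (3 * 4 ^ i))
    (h : (((M &&& K) <<< D) ||| ((M >>> D) &&& K)).testBit m = true) :
    ∃ n, M.testBit n = true ∧ SwD i m n := by
  rw [Nat.testBit_or, Bool.or_eq_true] at h
  rcases h with h | h
  · rw [Nat.testBit_shiftLeft, Bool.and_eq_true, decide_eq_true_iff, Nat.testBit_and,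
      Bool.and_eq_true] at h
    obtain ⟨h1, h2, h3⟩ := h
    obtain ⟨h4, _⟩ := swd_up (hK _ h3)
    rw [← hD, Nat.sub_add_cancel h1] at h4
    exact ⟨_, h2, h4⟩
  · rw [Nat.testBit_and, Bool.and_eq_true, Nat.testBit_shiftRight] at h
    obtain ⟨_, h4⟩ := swd_up (hK _ h.2)
    refine ⟨D + m, h.1, ?_⟩
    rw [← hD] at h4
    rw [Nat.add_comm]
    exact h4

theorem swm_bit {i K0 K1 K2 K3 M m : ℕ} (hK : KOK i K0 K1 K2 K3)
    (h : (swm (3 * 4 ^ i) K0 K1 K2 K3 M).testBit m = true) :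
    ∃ n, M.testBit n = true ∧ SwD i m n := by
  have h' : ((M &&& K0) ||| ((((M &&& K1) <<< (3 * 4 ^ i)) ||| ((M >>> (3 * 4 ^ i)) &&& K1)) |||
    ((((M &&& K2) <<< (2 * (3 * 4 ^ i))) ||| ((M >>> (2 * (3 * 4 ^ i))) &&& K2)) |||
    (((M &&& K3) <<< (3 * (3 * 4 ^ i))) ||| ((M >>> (3 * (3 * 4 ^ i))) &&& K3))))).testBit m =
      true := h
  rw [Nat.testBit_or, Bool.or_eq_true] at h'
  rcases h' with h' | h'
  · rw [Nat.testBit_and, Bool.and_eq_true] at h'
    exact ⟨m, h'.1, swd_refl ((hK m).1 h'.2)⟩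
  rw [Nat.testBit_or, Bool.or_eq_true] at h'
  rcases h' with h' | h'
  · exact up_bit (fun m => (hK m).2.1) (by ring) h'
  rw [Nat.testBit_or, Bool.or_eq_true] at h'
  rcases h' with h' | h'
  · exact up_bit (fun m => (hK m).2.2.1) (by ring) h'
  · exact up_bit (fun m => (hK m).2.2.2) (by ring) h'

end Pool.Agent.TH405.CW
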