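import Pool.Agent.TH405.CW.Bond

/-! Reduction of the cuts of size zero and two and of the cut vertices (following
`Pool.Agent.TH505.OW.Red`). -/

set_option autoImplicit false

open Finset

namespace Pool.Agent.TH405.CW

section
variable {V E : Type} [Fintype E]

open Classical in
/-- merging everything outside `X` into `u` -/
noncomputable def mg (X : Set V) (u : V) (z : V) : V := if z ∈ X then z else u

theorem mg_in {X : Set V} {u z : V} (h : z ∈ X) : mg X u z = z := if_pos h

theorem mg_out {X : Set V} {u z : V} (h : z ∉ X) : mg X u z = u := if_neg h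

theorem cut_mg (s t : E → V) (X : Set V) (u : V) (Z : Set V) :
    cut (mg X u ∘ s) (mg X u ∘ t) Z = cut s t ((mg X u) ⁻¹' Z) := by
  ext e
  rw [mem_cut, mem_cut]
  rfl

open Classical in
/-- Kronecker symbol -/
noncomputable def dl (a b : V) : ZMod 5 := if a = b then 1 else 0

theorem dl_ne {a b : V} (h : a ≠ b) : dl a b = 0 := if_neg h

theorem bd_dl (s t : E → V) (x : E → ZMod 5) (v : V) :
    bd s t x v = ∑ e, x e * (dl (s e) v - dl (t e) v) := rfl

theorem prune (s t s1 t1 : E → V) (X : Set V)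
    (hW : ∀ B : Set V, (cut s1 t1 (B ∩ X)).card ≤ (cut s t B).card) (w : ℕ) :
    ∀ T : Tr V, T.Nodup → T.Width s t w → (∃ v ∈ T.set, v ∈ X) →
    ∃ T1 : Tr V, T1.set = T.set ∩ X ∧ T1.Nodup ∧ T1.Width s1 t1 w ∧ T1.size ≤ T.size ∧
      ((∃ v ∈ T.set, v ∉ X) → T1.size < T.size) := by
  intro T
  induction T with
  | leaf v =>
    rintro _ h2 ⟨v', hv', hX⟩
    have hv : v' = v := hv'
    subst hv
    have hs : ({v'} : Set V) ∩ X = {v'} := Set.inter_eq_left.2 (Set.singleton_subset_iff.2 hX)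
    refine ⟨.leaf v', hs.symm, trivial, ?_, le_rfl, ?_⟩
    · have h3 := hW {v'}
      rw [hs] at h3
      exact h3.trans h2
    · rintro ⟨v, hv, hvX⟩
      have : v = v' := hv
      exact absurd (this ▸ hX) hvX
  | node l r ihl ihr =>
    rintro ⟨hd, hnl, hnr⟩ ⟨hw, hwl, hwr⟩ hex
    have hl1 := size_pos l
    have hr1 := size_pos r
    by_cases hl : ∃ v ∈ l.set, v ∈ X
    · obtain ⟨l1, a1, a2, a3, a4, a5⟩ := ihl hnl hwl hl
      by_cases hr : ∃ v ∈ r.set, v ∈ X
      · obtain ⟨r1, b1, b2, b3, b4, b5⟩ := ihr hnr hwr hr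
        have hset : l1.set ∪ r1.set = (l.set ∪ r.set) ∩ X := by
          rw [a1, b1, Set.union_inter_distrib_right]
        refine ⟨.node l1 r1, hset, ⟨?_, a2, b2⟩, ⟨?_, a3, b3⟩, ?_, ?_⟩
        · rw [a1, b1]
          exact hd.mono Set.inter_subset_left Set.inter_subset_left
        · rw [hset]
          exact (hW _).trans hw
        · simp only [Tr.size]; omega
        · rintro ⟨v, hv, hvX⟩
          simp only [Tr.size]
          rcases hv with hv | hv
          · have := a5 ⟨v, hv, hvX⟩; omega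
          · have := b5 ⟨v, hv, hvX⟩; omega
      · have hset : l1.set = (l.set ∪ r.set) ∩ X := by
          rw [a1, Set.union_inter_distrib_right]
          have : r.set ∩ X = ∅ := by
            ext v
            simp only [Set.mem_inter_iff, Set.mem_empty_iff_false, iff_false]
            exact fun h => hr ⟨v, h.1, h.2⟩
          rw [this, Set.union_empty]
        refine ⟨l1, hset, a2, a3, ?_, fun _ => ?_⟩
        · simp only [Tr.size]; omega
        · simp only [Tr.size]; omega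
    · have hr : ∃ v ∈ r.set, v ∈ X := by
        obtain ⟨v, hv, hvX⟩ := hex
        rcases hv with hv | hv
        · exact absurd ⟨v, hv, hvX⟩ hl
        · exact ⟨v, hv, hvX⟩
      obtain ⟨r1, b1, b2, b3, b4, b5⟩ := ihr hnr hwr hr
      have hset : r1.set = (l.set ∪ r.set) ∩ X := by
        rw [b1, Set.union_inter_distrib_right]
        have : l.set ∩ X = ∅ := by
          ext v
          simp only [Set.mem_inter_iff, Set.mem_empty_iff_false, iff_false]
          exact fun h => hl ⟨v, h.1, h.2⟩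
        rw [this, Set.empty_union]
      refine ⟨r1, hset, b2, b3, ?_, fun _ => ?_⟩
      · simp only [Tr.size]; omega
      · simp only [Tr.size]; omega

/-! cuts of size zero -/

theorem W0 (s t : E → V) (X : Set V) (u : V) (h0 : ∀ e, s e ∈ X ↔ t e ∈ X) (B : Set V) :
    (cut (mg X u ∘ s) (mg X u ∘ t) (B ∩ X)).card ≤ (cut s t B).card := by
  refine Finset.card_le_card fun e he => ?_
  rw [mem_cut] at he ⊢
  simp only [Function.comp_apply] at he
  by_cases hs : s e ∈ X
  · have ht := (h0 e).1 hs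
    rw [mg_in hs, mg_in ht] at he
    intro h
    exact he ⟨fun h1 => ⟨h.1 h1.1, ht⟩, fun h1 => ⟨h.2 h1.1, hs⟩⟩
  · have ht : t e ∉ X := fun h => hs ((h0 e).2 h)
    rw [mg_out hs, mg_out ht] at he
    exact absurd Iff.rfl he

theorem bd0 (s t : E → V) (X : Set V) (u : V) (h0 : ∀ e, s e ∈ X ↔ t e ∈ X) (f f1 : E → ZMod 5)
    (hf : ∀ e, s e ∈ X → f e = f1 e) (v : V) (hv : v ∈ X) :
    bd s t f v = bd (mg X u ∘ s) (mg X u ∘ t) f1 v := by
  rw [bd_dl, bd_dl]
  refine Finset.sum_congr rfl fun e _ => ?_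
  simp only [Function.comp_apply]
  by_cases hs : s e ∈ X
  · have ht := (h0 e).1 hs
    rw [mg_in hs, mg_in ht]
    simp only [hf e hs]
  · have ht : t e ∉ X := fun h => hs ((h0 e).2 h)
    rw [mg_out hs, mg_out ht, dl_ne (fun h : s e = v => hs (h ▸ hv)),
      dl_ne (fun h : t e = v => ht (h ▸ hv)), sub_self, sub_self, mul_zero, mul_zero]

/-! cuts of size two -/

theorem W2 (s t : E → V) (X : Set V) (e0 f0 : E) (u w u' w' : V)
    (hu : u ∈ X) (hw : w ∉ X) (hu' : u' ∈ X) (hw' : w' ∉ X)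
    (he0 : (s e0 = u ∧ t e0 = w) ∨ (s e0 = w ∧ t e0 = u))
    (hf0 : (s f0 = u' ∧ t f0 = w') ∨ (s f0 = w' ∧ t f0 = u'))
    (hoth : ∀ e, e ≠ e0 → e ≠ f0 → (s e ∈ X ↔ t e ∈ X))
    (hbr : ∀ Z : Set V, (cut s t Z).card ≠ 1) (B : Set V) :
    (cut (mg X u ∘ s) (mg X u ∘ t) (B ∩ X)).card ≤ (cut s t B).card := by
  classical
  have key : ∀ e ∈ cut (mg X u ∘ s) (mg X u ∘ t) (B ∩ X),
      (e ∈ cut s t B ∧ s e ∈ X ∧ t e ∈ X) ∨ (e = f0 ∧ ¬ (u ∈ B ↔ u' ∈ B)) := by
    intro e he
    rw [mem_cut] at he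
    simp only [Function.comp_apply] at he
    by_cases h1 : e = f0
    · right
      refine ⟨h1, ?_⟩
      subst h1
      intro h
      rcases hf0 with ⟨h2, h3⟩ | ⟨h2, h3⟩ <;> rw [h2, h3] at he
      · rw [mg_in hu', mg_out hw'] at he
        exact he ⟨fun h1 => ⟨h.2 h1.1, hu⟩, fun h1 => ⟨h.1 h1.1, hu'⟩⟩
      · rw [mg_in hu', mg_out hw'] at he
        exact he ⟨fun h1 => ⟨h.1 h1.1, hu'⟩, fun h1 => ⟨h.2 h1.1, hu⟩⟩
    · by_cases h2 : e = e0
      · subst h2
        exfalso
        rcases he0 with ⟨h2, h3⟩ | ⟨h2, h3⟩ <;> rw [h2, h3] at he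
        · rw [mg_in hu, mg_out hw] at he
          exact he Iff.rfl
        · rw [mg_in hu, mg_out hw] at he
          exact he Iff.rfl
      · left
        have h3 := hoth e h2 h1
        by_cases hs : s e ∈ X
        · have ht := h3.1 hs
          rw [mg_in hs, mg_in ht] at he
          refine ⟨?_, hs, ht⟩
          rw [mem_cut]
          intro h
          exact he ⟨fun h1 => ⟨h.1 h1.1, ht⟩, fun h1 => ⟨h.2 h1.1, hs⟩⟩
        · have ht : t e ∉ X := fun h => hs (h3.2 h)
          rw [mg_out hs, mg_out ht] at he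
          exact absurd Iff.rfl he
  by_cases hsep : u ∈ B ↔ u' ∈ B
  · refine Finset.card_le_card fun e he => ?_
    rcases key e he with h | h
    · exact h.1
    · exact absurd hsep h.2
  · obtain ⟨e1, he1, hnin⟩ : ∃ e1 ∈ cut s t B, ¬ (s e1 ∈ X ∧ t e1 ∈ X) := by
      by_contra hno
      push Not at hno
      have hBe : ∀ e, ¬ (s e ∈ X ∧ t e ∈ X) → (s e ∈ B ↔ t e ∈ B) := by
        intro e he
        by_contra h
        have := hno e ((mem_cut s t B e).2 h)
        exact he ⟨this.1, this.2⟩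
      have hEF : ∀ e a b, a ∈ X → b ∉ X → ((s e = a ∧ t e = b) ∨ (s e = b ∧ t e = a)) →
          (e ∈ cut s t (Xᶜ ∩ B) ↔ a ∈ B) := by
        intro e a b ha hb hab
        have hE : ¬ (s e ∈ X ∧ t e ∈ X) := by
          rcases hab with ⟨h2, h3⟩ | ⟨h2, h3⟩ <;> rw [h2, h3]
          · exact fun h => hb h.2
          · exact fun h => hb h.1
        have hab' : a ∈ B ↔ b ∈ B := by
          have := hBe e hE
          rcases hab with ⟨h2, h3⟩ | ⟨h2, h3⟩ <;> rw [h2, h3] at this
          · exact this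
          · exact this.symm
        have hA : a ∉ Xᶜ ∩ B := fun h => h.1 ha
        have hB' : b ∈ Xᶜ ∩ B ↔ a ∈ B := ⟨fun h => hab'.2 h.2, fun h => ⟨hb, hab'.1 h⟩⟩
        rw [mem_cut]
        rcases hab with ⟨h2, h3⟩ | ⟨h2, h3⟩ <;> rw [h2, h3]
        · constructor
          · intro h
            by_contra hn
            exact h ⟨fun h' => absurd h' hA, fun h' => absurd (hB'.1 h') hn⟩
          · intro h h'
            exact hA (h'.2 (hB'.2 h))
        · constructor
          · intro h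
            by_contra hn
            exact h ⟨fun h' => absurd (hB'.1 h') hn, fun h' => absurd h' hA⟩
          · intro h h'
            exact hA (h'.1 (hB'.2 h))
      have hcE : e0 ∈ cut s t (Xᶜ ∩ B) ↔ u ∈ B := hEF e0 u w hu hw he0
      have hcF : f0 ∈ cut s t (Xᶜ ∩ B) ↔ u' ∈ B := hEF f0 u' w' hu' hw' hf0
      have hcO : ∀ e, e ≠ e0 → e ≠ f0 → e ∉ cut s t (Xᶜ ∩ B) := by
        intro e h1 h2 h3
        rw [mem_cut] at h3
        have h4 := hoth e h1 h2
        by_cases hs : s e ∈ X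
        · exact h3 ⟨fun h' => absurd hs h'.1, fun h' => absurd (h4.1 hs) h'.1⟩
        · have h5 := hBe e (fun h => hs h.1)
          exact h3 ⟨fun h' => ⟨fun h => hs (h4.2 h), h5.1 h'.2⟩, fun h' => ⟨hs, h5.2 h'.2⟩⟩
      apply hbr (Xᶜ ∩ B)
      rw [Finset.card_eq_one]
      by_cases huB : u ∈ B
      · have hu'B : u' ∉ B := fun h => hsep ⟨fun _ => h, fun _ => huB⟩
        refine ⟨e0, ?_⟩
        ext e
        rw [Finset.mem_singleton]
        constructor
        · intro he
          by_contra h1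
          by_cases h2 : e = f0
          · subst h2
            exact hu'B (hcF.1 he)
          · exact hcO e h1 h2 he
        · rintro rfl
          exact hcE.2 huB
      · have hu'B : u' ∈ B := by
          by_contra h
          exact hsep ⟨fun h' => absurd h' huB, fun h' => absurd h' h⟩
        refine ⟨f0, ?_⟩
        ext e
        rw [Finset.mem_singleton]
        constructor
        · intro he
          by_contra h1
          by_cases h2 : e = e0
          · subst h2
            exact huB (hcE.1 he)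
          · exact hcO e h2 h1 he
        · rintro rfl
          exact hcF.2 hu'B
    have hsub : cut (mg X u ∘ s) (mg X u ∘ t) (B ∩ X) ⊆ insert f0 ((cut s t B).erase e1) := by
      intro e he
      rw [Finset.mem_insert, Finset.mem_erase]
      rcases key e he with h | h
      · right
        refine ⟨?_, h.1⟩
        rintro rfl
        exact hnin h.2
      · exact Or.inl h.1
    have h1 := Finset.card_le_card hsub
    have h2 := Finset.card_insert_le f0 ((cut s t B).erase e1)
    have h3 := Finset.card_erase_add_one he1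
    omega

open Classical in
theorem bd2 (s t : E → V) (X : Set V) (e0 f0 : E) (u w u' w' : V) (hne : e0 ≠ f0)
    (hu : u ∈ X) (hw : w ∉ X) (hu' : u' ∈ X) (hw' : w' ∉ X)
    (he0 : (s e0 = u ∧ t e0 = w) ∨ (s e0 = w ∧ t e0 = u))
    (hf0 : (s f0 = u' ∧ t f0 = w') ∨ (s f0 = w' ∧ t f0 = u'))
    (hoth : ∀ e, e ≠ e0 → e ≠ f0 → (s e ∈ X ↔ t e ∈ X)) (f f1 : E → ZMod 5)
    (hf : ∀ e, e ≠ e0 → e ≠ f0 → s e ∈ X → f e = f1 e)
    (hfe : f e0 = if (s e0 ∈ X ↔ s f0 ∈ X) then - (f1 f0) else f1 f0)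
    (hff : f f0 = f1 f0) (v : V) (hv : v ∈ X) :
    bd s t f v = bd (mg X u ∘ s) (mg X u ∘ t) f1 v := by
  rw [← sub_eq_zero, bd_dl, bd_dl, ← Finset.sum_sub_distrib, Fintype.sum_eq_add e0 f0 hne]
  · have hwv : w ≠ v := fun h => hw (h ▸ hv)
    have hwv' : w' ≠ v := fun h => hw' (h ▸ hv)
    simp only [Function.comp_apply, hfe, hff]
    rcases he0 with ⟨h2, h3⟩ | ⟨h2, h3⟩ <;> rcases hf0 with ⟨h4, h5⟩ | ⟨h4, h5⟩ <;>
      rw [h2, h3, h4, h5, mg_in hu, mg_out hw, mg_in hu', mg_out hw', dl_ne hwv, dl_ne hwv']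
    · rw [if_pos (iff_of_true hu hu')]; ring
    · rw [if_neg (fun h => hw' (h.1 hu))]; ring
    · rw [if_neg (fun h => hw (h.2 hu'))]; ring
    · rw [if_pos (iff_of_false hw hw')]; ring
  · rintro e ⟨h1, h2⟩
    rw [sub_eq_zero]
    simp only [Function.comp_apply]
    by_cases hs : s e ∈ X
    · have ht := (hoth e h1 h2).1 hs
      rw [mg_in hs, mg_in ht]
      simp only [hf e h1 h2 hs]
    · have ht : t e ∉ X := fun h => hs ((hoth e h1 h2).2 h)
      rw [mg_out hs, mg_out ht, dl_ne (fun h : s e = v => hs (h ▸ hv)),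
        dl_ne (fun h : t e = v => ht (h ▸ hv)), sub_self, sub_self, mul_zero, mul_zero]

/-! cut vertices -/

theorem W1 (s t : E → V) (X : Set V) (u : V) (hu : u ∈ X)
    (h1 : ∀ e, (s e ∈ X ∧ t e ∈ X) ∨ ((s e = u ∨ s e ∉ X) ∧ (t e = u ∨ t e ∉ X))) (B : Set V) :
    (cut (mg X u ∘ s) (mg X u ∘ t) (B ∩ X)).card ≤ (cut s t B).card := by
  refine Finset.card_le_card fun e he => ?_
  rw [mem_cut] at he ⊢
  simp only [Function.comp_apply] at he
  rcases h1 e with ⟨hs, ht⟩ | ⟨hs, ht⟩
  · rw [mg_in hs, mg_in ht] at he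
    intro h
    exact he ⟨fun h1 => ⟨h.1 h1.1, ht⟩, fun h1 => ⟨h.2 h1.1, hs⟩⟩
  · have k : ∀ z, (z = u ∨ z ∉ X) → mg X u z = u := by
      rintro z (rfl | hz)
      · exact mg_in hu
      · exact mg_out hz
    rw [k _ hs, k _ ht] at he
    exact absurd Iff.rfl he

theorem bd1 (s t : E → V) (X : Set V) (u : V) (hu : u ∈ X)
    (h1 : ∀ e, (s e ∈ X ∧ t e ∈ X) ∨ ((s e = u ∨ s e ∉ X) ∧ (t e = u ∨ t e ∉ X)))
    (f f1 : E → ZMod 5) (hf : ∀ e, s e ∈ X → t e ∈ X → f e = f1 e) (v : V) (hv : v ∈ X)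
    (hvu : v ≠ u) : bd s t f v = bd (mg X u ∘ s) (mg X u ∘ t) f1 v := by
  rw [bd_dl, bd_dl]
  refine Finset.sum_congr rfl fun e _ => ?_
  simp only [Function.comp_apply]
  rcases h1 e with ⟨hs, ht⟩ | ⟨hs, ht⟩
  · rw [mg_in hs, mg_in ht, hf e hs ht]
  · have k : ∀ z, (z = u ∨ z ∉ X) → mg X u z = u := by
      rintro z (rfl | hz)
      · exact mg_in hu
      · exact mg_out hz
    have k2 : ∀ z, (z = u ∨ z ∉ X) → z ≠ v := by
      rintro z (rfl | hz)
      · exact hvu.symm
      · rintro rfl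
        exact hz hv
    rw [k _ hs, k _ ht, dl_ne (k2 _ hs), dl_ne (k2 _ ht)]
    ring

/-- The two sides of a cut vertex. -/
theorem bd1v (s t : E → V) (X Y : Set V) (u : V) (hX : u ∈ X) (hY : u ∈ Y)
    (hXY : ∀ z, z ∈ X → z ∈ Y → z = u)
    (h1 : ∀ e, (s e ∈ X ∧ t e ∈ X) ∨ (s e ∈ Y ∧ t e ∈ Y)) (f f1 f2 : E → ZMod 5)
    (hf : ∀ e, s e ∈ X → t e ∈ X → f e = f1 e)
    (hf' : ∀ e, ¬ (s e ∈ X ∧ t e ∈ X) → f e = f2 e) :
    bd s t f u = bd (mg X u ∘ s) (mg X u ∘ t) f1 u + bd (mg Y u ∘ s) (mg Y u ∘ t) f2 u := by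
  rw [bd_dl, bd_dl, bd_dl, ← Finset.sum_add_distrib]
  refine Finset.sum_congr rfl fun e _ => ?_
  simp only [Function.comp_apply]
  have k : ∀ (Z W : Set V) z, z ∈ Z → (∀ z, z ∈ W → z ∈ Z → z = u) → u ∈ W → mg W u z = u := by
    intro Z W z hz hZW huW
    by_cases hzW : z ∈ W
    · rw [mg_in hzW]; exact hZW z hzW hz
    · exact mg_out hzW
  by_cases h : s e ∈ X ∧ t e ∈ X
  · rw [mg_in h.1, mg_in h.2, hf e h.1 h.2, k X Y _ h.1 (fun z a b => hXY z b a) hY,
      k X Y _ h.2 (fun z a b => hXY z b a) hY]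
    ring
  · obtain ⟨h3, h4⟩ := (h1 e).resolve_left h
    rw [mg_in h3, mg_in h4, hf' e h, k Y X _ h3 hXY hX, k Y X _ h4 hXY hX]
    ring

/-- Graphs without small cuts and without cut vertices. -/
def StmThree (w : ℕ) : Prop := ∀ (V E : Type) [Fintype E] (s t : E → V) (T : Tr V),
  T.Nodup → T.Width s t w → (∀ e, s e ∈ T.set ∧ t e ∈ T.set) →
  (∀ Z : Set V, (∃ v ∈ T.set, v ∈ Z) → (∃ v ∈ T.set, v ∉ Z) → 3 ≤ (cut s t Z).card) →
  (∀ (v : V) (X Y : Set V), X.Nonempty → Y.Nonempty → Disjoint X Y → v ∉ X → v ∉ Y →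
      {v} ∪ (X ∪ Y) = T.set → adj s t X Y) →
  ∃ f : E → ZMod 5, Good s t f T.set

theorem main_ind (w : ℕ) (h3 : StmThree w) :
    ∀ (m : ℕ) (s t : E → V) (T : Tr V), T.size ≤ m → T.Nodup → T.Width s t w →
    (∀ e, s e ∈ T.set ∧ t e ∈ T.set) → (∀ Z : Set V, (cut s t Z).card ≠ 1) →
    ∃ f : E → ZMod 5, Good s t f T.set := by
  classical
  have : Fact (Nat.Prime 5) := ⟨by norm_num⟩
  intro m
  induction m with
  | zero =>
    intro s t T hT
    have := size_pos T
    omega
  | succ m ih =>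
    intro s t T hT hN hW hE hbr
    have half : ∀ (Y : Set V) (u : V), u ∈ Y → u ∈ T.set → (∃ v ∈ T.set, v ∉ Y) →
        (∀ B : Set V, (cut (mg Y u ∘ s) (mg Y u ∘ t) (B ∩ Y)).card ≤ (cut s t B).card) →
        ∃ f1 : E → ZMod 5, Good (mg Y u ∘ s) (mg Y u ∘ t) f1 (T.set ∩ Y) := by
      intro Y u hu huT hex hWY
      obtain ⟨T1, a1, a2, a3, -, a5⟩ := prune s t _ _ Y hWY w T hN hW ⟨u, huT, hu⟩
      have hlt := a5 hex
      obtain ⟨f1, hf1⟩ := ih (mg Y u ∘ s) (mg Y u ∘ t) T1 (by omega) a2 a3 (fun e => by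
        rw [a1]
        have hm : ∀ z ∈ T.set, mg Y u z ∈ T.set ∩ Y := by
          intro z hz
          by_cases h : z ∈ Y
          · rw [mg_in h]; exact ⟨hz, h⟩
          · rw [mg_out h]; exact ⟨huT, hu⟩
        exact ⟨hm _ (hE e).1, hm _ (hE e).2⟩) (fun Z => by
        rw [cut_mg]
        exact hbr _)
      rw [a1] at hf1
      exact ⟨f1, hf1⟩
    by_cases hsp : ∀ Z : Set V, (∃ v ∈ T.set, v ∈ Z) → (∃ v ∈ T.set, v ∉ Z) →
        3 ≤ (cut s t Z).card
    · by_cases hcv : ∀ (v : V) (X Y : Set V), X.Nonempty → Y.Nonempty → Disjoint X Y → v ∉ X →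
          v ∉ Y → {v} ∪ (X ∪ Y) = T.set → adj s t X Y
      · exact h3 V E s t T hN hW hE hsp hcv
      push Not at hcv
      obtain ⟨u, C, D, ⟨c, hc⟩, ⟨d, hd⟩, hCD, huC, huD, hT', hna⟩ := hcv
      have hCD' : ∀ z, z ∈ C → z ∉ D := fun z h => Set.disjoint_left.mp hCD h
      have mT : ∀ z, z ∈ T.set ↔ z = u ∨ z ∈ C ∨ z ∈ D := by
        intro z
        rw [← hT', Set.mem_union, Set.mem_union, Set.mem_singleton_iff]
      have huT : u ∈ T.set := (mT u).2 (Or.inl rfl)
      have mX : ∀ z, z ∈ insert u C ↔ z = u ∨ z ∈ C := fun z => Set.mem_insert_iff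
      have mY : ∀ z, z ∈ insert u D ↔ z = u ∨ z ∈ D := fun z => Set.mem_insert_iff
      have side : ∀ e, (s e ∈ insert u C ∧ t e ∈ insert u C) ∨
          (s e ∈ insert u D ∧ t e ∈ insert u D) := by
        intro e
        have h1 := (mT _).1 (hE e).1
        have h2 := (mT _).1 (hE e).2
        rw [mX, mX, mY, mY]
        have h4 : ¬ (s e ∈ C ∧ t e ∈ D) := fun h => hna ⟨e, Or.inl h⟩
        have h5 : ¬ (s e ∈ D ∧ t e ∈ C) := fun h => hna ⟨e, Or.inr h⟩
        rcases h1 with h1 | h1 | h1 <;> rcases h2 with h2 | h2 | h2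
        · exact Or.inl ⟨Or.inl h1, Or.inl h2⟩
        · exact Or.inl ⟨Or.inl h1, Or.inr h2⟩
        · exact Or.inr ⟨Or.inl h1, Or.inr h2⟩
        · exact Or.inl ⟨Or.inr h1, Or.inl h2⟩
        · exact Or.inl ⟨Or.inr h1, Or.inr h2⟩
        · exact absurd ⟨h1, h2⟩ h4
        · exact Or.inr ⟨Or.inr h1, Or.inl h2⟩
        · exact absurd ⟨h1, h2⟩ h5
        · exact Or.inr ⟨Or.inr h1, Or.inr h2⟩
      have out1 : ∀ z, z ∈ insert u D → z = u ∨ z ∉ insert u C := by
        intro z hz
        by_cases hzu : z = u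
        · exact Or.inl hzu
        · right
          rw [mX]
          rintro (h | h)
          · exact hzu h
          · exact hCD' z h (((mY z).1 hz).resolve_left hzu)
      have out2 : ∀ z, z ∈ insert u C → z = u ∨ z ∉ insert u D := by
        intro z hz
        by_cases hzu : z = u
        · exact Or.inl hzu
        · right
          rw [mY]
          rintro (h | h)
          · exact hzu h
          · exact hCD' z (((mX z).1 hz).resolve_left hzu) h
      have s1 : ∀ e, (s e ∈ insert u C ∧ t e ∈ insert u C) ∨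
          ((s e = u ∨ s e ∉ insert u C) ∧ (t e = u ∨ t e ∉ insert u C)) := fun e =>
        (side e).imp_right fun h => ⟨out1 _ h.1, out1 _ h.2⟩
      have s2 : ∀ e, (s e ∈ insert u D ∧ t e ∈ insert u D) ∨
          ((s e = u ∨ s e ∉ insert u D) ∧ (t e = u ∨ t e ∉ insert u D)) := fun e =>
        (side e).symm.imp_right fun h => ⟨out2 _ h.1, out2 _ h.2⟩
      have hu1 : u ∈ insert u C := Set.mem_insert _ _
      have hu2 : u ∈ insert u D := Set.mem_insert _ _
      obtain ⟨f1, hf1⟩ := half (insert u C) u hu1 huT ⟨d, (mT d).2 (Or.inr (Or.inr hd)), by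
        rw [mX]; rintro (rfl | h)
        · exact huD hd
        · exact hCD' d h hd⟩ (W1 s t _ u hu1 s1)
      obtain ⟨f2, hf2⟩ := half (insert u D) u hu2 huT ⟨c, (mT c).2 (Or.inr (Or.inl hc)), by
        rw [mY]; rintro (rfl | h)
        · exact huC hc
        · exact hCD' c hc h⟩ (W1 s t _ u hu2 s2)
      refine ⟨fun e => if s e ∈ insert u C ∧ t e ∈ insert u C then f1 e else f2 e,
        fun e => ?_, fun v hv => ?_⟩
      · dsimp only
        split_ifs
        · exact hf1.1 e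
        · exact hf2.1 e
      · by_cases hvu : v = u
        · subst hvu
          rw [bd1v s t (insert v C) (insert v D) v hu1 hu2 (fun z a b => by
            rcases out1 z b with h | h
            · exact h
            · exact absurd a h) side _ f1 f2 (fun e a b => if_pos ⟨a, b⟩)
            (fun e a => if_neg a), hf1.2 v ⟨hv, hu1⟩, hf2.2 v ⟨hv, hu2⟩, add_zero]
        · rcases (mT v).1 hv with h | h | h
          · exact absurd h hvu
          · rw [bd1 s t (insert u C) u hu1 s1 _ f1 (fun e a b => if_pos ⟨a, b⟩) v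
              ((mX v).2 (Or.inr h)) hvu]
            exact hf1.2 v ⟨hv, (mX v).2 (Or.inr h)⟩
          · have hv2 : v ∈ insert u D := (mY v).2 (Or.inr h)
            have e1 : bd s t (fun e => if s e ∈ insert u C ∧ t e ∈ insert u C then f1 e
                else f2 e) v = bd s t f2 v := by
              refine bd_congr s t _ _ v fun e he => ?_
              rw [if_neg]
              rintro ⟨a, b⟩
              have : v ∈ insert u C := by
                rcases he with he | he
                · rw [← he]; exact a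
                · rw [← he]; exact b
              rcases out1 v hv2 with h' | h'
              · exact hvu h'
              · exact h' this
            rw [e1, bd1 s t (insert u D) u hu2 s2 f2 f2 (fun e a b => rfl) v hv2 hvu]
            exact hf2.2 v ⟨hv, hv2⟩
    push Not at hsp
    obtain ⟨X, hX1, hX2, hX3⟩ := hsp
    have h012 : (cut s t X).card = 0 ∨ (cut s t X).card = 2 := by
      have := hbr X
      omega
    rcases h012 with h0 | h2
    · rw [Finset.card_eq_zero] at h0
      have h0' : ∀ e, s e ∈ X ↔ t e ∈ X := by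
        intro e
        by_contra h
        have := (mem_cut s t X e).2 h
        rw [h0] at this
        exact Finset.notMem_empty e this
      have h0'' : ∀ e, s e ∈ Xᶜ ↔ t e ∈ Xᶜ := fun e => not_congr (h0' e)
      obtain ⟨a, haT, haX⟩ := hX1
      obtain ⟨b, hbT, hbX⟩ := hX2
      obtain ⟨f1, hf1⟩ := half X a haX haT ⟨b, hbT, hbX⟩ (W0 s t X a h0')
      obtain ⟨f2, hf2⟩ := half Xᶜ b hbX hbT ⟨a, haT, fun h => h haX⟩ (W0 s t Xᶜ b h0'')
      refine ⟨fun e => if s e ∈ X then f1 e else f2 e, fun e => ?_, fun v hv => ?_⟩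
      · dsimp only
        split_ifs
        · exact hf1.1 e
        · exact hf2.1 e
      · by_cases hvX : v ∈ X
        · rw [bd0 s t X a h0' _ f1 (fun e he => if_pos he) v hvX]
          exact hf1.2 v ⟨hv, hvX⟩
        · rw [bd0 s t Xᶜ b h0'' _ f2 (fun e he => if_neg he) v hvX]
          exact hf2.2 v ⟨hv, hvX⟩
    · obtain ⟨e0, f0, hne, hcut⟩ := Finset.card_eq_two.1 h2
      have ends : ∀ e ∈ cut s t X, ∃ u w, u ∈ X ∧ w ∉ X ∧
          ((s e = u ∧ t e = w) ∨ (s e = w ∧ t e = u)) := by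
        intro e he
        rw [mem_cut] at he
        by_cases hs : s e ∈ X
        · exact ⟨s e, t e, hs, fun h => he ⟨fun _ => h, fun _ => hs⟩, Or.inl ⟨rfl, rfl⟩⟩
        · have ht : t e ∈ X := by
            by_contra h
            exact he ⟨fun h' => absurd h' hs, fun h' => absurd h' h⟩
          exact ⟨t e, s e, ht, hs, Or.inr ⟨rfl, rfl⟩⟩
      obtain ⟨u, w, hu, hw, he0⟩ := ends e0 (by rw [hcut]; simp)
      obtain ⟨u', w', hu', hw', hf0⟩ := ends f0 (by rw [hcut]; simp)
      have hoth : ∀ e, e ≠ e0 → e ≠ f0 → (s e ∈ X ↔ t e ∈ X) := by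
        intro e h1 h2'
        by_contra h
        have := (mem_cut s t X e).2 h
        rw [hcut, Finset.mem_insert, Finset.mem_singleton] at this
        exact this.elim h1 h2'
      have hoth' : ∀ e, e ≠ e0 → e ≠ f0 → (s e ∈ Xᶜ ↔ t e ∈ Xᶜ) :=
        fun e h1 h2' => not_congr (hoth e h1 h2')
      have huT : u ∈ T.set := by
        rcases he0 with ⟨h4, _⟩ | ⟨_, h4⟩ <;> rw [← h4]
        · exact (hE e0).1
        · exact (hE e0).2
      have hwT : w ∈ T.set := by
        rcases he0 with ⟨_, h4⟩ | ⟨h4, _⟩ <;> rw [← h4]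
        · exact (hE e0).2
        · exact (hE e0).1
      obtain ⟨f1, hf1⟩ := half X u hu huT hX2
        (W2 s t X e0 f0 u w u' w' hu hw hu' hw' he0 hf0 hoth hbr)
      obtain ⟨f2, hf2⟩ := half Xᶜ w hw hwT ⟨u, huT, fun h => h hu⟩
        (W2 s t Xᶜ e0 f0 w u w' u' hw (fun h => h hu) hw' (fun h => h hu') he0.symm hf0.symm
          hoth' hbr)
      have hune : f1 f0 * (f2 f0)⁻¹ ≠ 0 := mul_ne_zero (hf1.1 f0) (inv_ne_zero (hf2.1 f0))
      have hf3 := good_mul _ _ f2 _ _ hune hf2
      set f3 : E → ZMod 5 := fun e => f1 f0 * (f2 f0)⁻¹ * f2 e with hf3d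
      have hf3c : f3 f0 = f1 f0 := by
        rw [hf3d]
        dsimp only
        rw [mul_assoc, inv_mul_cancel₀ (hf2.1 f0), mul_one]
      refine ⟨fun e => if e = e0 then (if (s e0 ∈ X ↔ s f0 ∈ X) then - (f1 f0) else f1 f0)
        else if e = f0 then f1 f0 else if s e ∈ X then f1 e else f3 e,
        fun e => ?_, fun v hv => ?_⟩
      · dsimp only
        split_ifs
        · exact neg_ne_zero.2 (hf1.1 f0)
        · exact hf1.1 f0
        · exact hf1.1 f0
        · exact hf1.1 e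
        · exact hf3.1 e
      · by_cases hvX : v ∈ X
        · rw [bd2 s t X e0 f0 u w u' w' hne hu hw hu' hw' he0 hf0 hoth _ f1 (fun e h1 h2' hs => by
            rw [if_neg h1, if_neg h2', if_pos hs]) (if_pos rfl)
            (by rw [if_neg hne.symm, if_pos rfl]) v hvX]
          exact hf1.2 v ⟨hv, hvX⟩
        · rw [bd2 s t Xᶜ e0 f0 w u w' u' hne hw (fun h => h hu) hw' (fun h => h hu') he0.symm
            hf0.symm hoth' _ f3 (fun e h1 h2' hs => by
            rw [if_neg h1, if_neg h2', if_neg hs]) (by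
            rw [if_pos rfl, hf3c]
            simp only [Set.mem_compl_iff, not_iff_not]) (by
            rw [if_neg hne.symm, if_pos rfl, hf3c]) v hvX]
          exact hf3.2 v ⟨hv, hvX⟩

end

end Pool.Agent.TH405.CW
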