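import Pool.Agent.TH405.CW.Reach
import Pool.Agent.TH405.CW.Red

/-! Graphs without small cuts: induction along a bond carving. -/

set_option autoImplicit false

open Finset

namespace Pool.Agent.TH405.CW

variable {V E : Type} [Fintype E]

/-- The facts about the classes. -/
def ClassOK (k : ℕ) : Prop := 0 < (Cl k).length ∧ ∀ i < (Cl k).length, ClOK k i ∧
  rps k i ≠ [] ∧ ∀ m ∈ rps k i, ∑ j ∈ range k, vl (dg m j) = 0

/-- The tables up to width `w`. -/
def Tables (w : ℕ) : Prop := ∀ a b c, 3 ≤ a → a ≤ w → 3 ≤ b → b ≤ w → 1 ≤ c → c < a → c < b →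
  3 ≤ a + b - 2 * c → a + b - 2 * c ≤ w → ∀ i < (Cl a).length, ∀ j < (Cl b).length,
    TabPair a b c i j ∨ TabPair b a c j i

open Classical in
theorem join (w : ℕ) (hC : ∀ k, 3 ≤ k → k ≤ w → ClassOK k) (hT : Tables w) (s t : E → V)
    (X Y : Set V) (hd : Disjoint X Y) (a b : ℕ) (hX : HasC s t X a) (hY : HasC s t Y b)
    (ha : 3 ≤ a) (ha' : a ≤ w) (hb : 3 ≤ b) (hb' : b ≤ w)
    (h1 : 1 ≤ (cut s t X ∩ cut s t Y).card) (h2 : (cut s t X ∩ cut s t Y).card < a)
    (h3 : (cut s t X ∩ cut s t Y).card < b) (h4 : 3 ≤ (cut s t (X ∪ Y)).card)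
    (h5 : (cut s t (X ∪ Y)).card ≤ w) : HasC s t (X ∪ Y) (cut s t (X ∪ Y)).card := by
  obtain ⟨i, hi, oX, oX2⟩ := hX
  obtain ⟨j, hj, oY, oY2⟩ := hY
  have ca := ord_card s t X a oX oX2.1
  have cb := ord_card s t Y b oY oY2.1
  have hcard : (cut s t (X ∪ Y)).card = a + b - 2 * (cut s t X ∩ cut s t Y).card := by
    have e1 : cut s t (X ∪ Y) = (cut s t X \ cut s t Y) ∪ (cut s t Y \ cut s t X) := by
      ext e
      rw [mem_cut_union s t X Y hd, mem_union, mem_sdiff, mem_sdiff]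
    have e2 := card_sdiff_add_card_inter (cut s t X) (cut s t Y)
    have e3 := card_sdiff_add_card_inter (cut s t Y) (cut s t X)
    rw [inter_comm] at e3
    rw [e1, card_union_of_disjoint (by
      rw [disjoint_left]
      intro e he he'
      rw [mem_sdiff] at he he'
      exact he.2 he'.1)]
    omega
  obtain ⟨c, hc⟩ : ∃ c, c = (cut s t X ∩ cut s t Y).card := ⟨_, rfl⟩
  rw [← hc] at h1 h2 h3 hcard
  rw [hcard] at h4 h5 ⊢
  have cX := ((hC a ha ha').2 i hi).1
  have cY := ((hC b hb hb').2 j hj).1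
  rcases hT a b c ha ha' hb hb' h1 h2 h3 h4 h5 i hi j hj with h | h
  · exact join_pair s t X Y hd a b c i j h2.le h3.le oX oY oX2 oY2 cX cY hc.symm h
  · rw [Set.union_comm, Nat.add_comm a b]
    exact join_pair s t Y X hd.symm b a c j i h3.le h2.le oY oX oY2 oX2 cY cX
      (by rw [inter_comm]; exact hc.symm) h

theorem leafC (s t : E → V) (v : V) (k : ℕ) (hk : (cut s t {v}).card = k) (h3 : 3 ≤ k)
    (hC : ClassOK k) : HasC s t {v} k := by
  obtain ⟨o, ho⟩ := exists_ord s t {v} (by omega)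
  rw [hk] at ho
  refine ⟨0, hC.1, o, ho, fun m hm => ?_⟩
  exact vertex_state s t v k o ho (fun i => vl (dg m i)) (fun i _ => vl_ne (dg_lt m i))
    ((hC.2 0 hC.1).2.2 m hm)

open Classical in
theorem keyB (w : ℕ) (hC : ∀ k, 3 ≤ k → k ≤ w → ClassOK k) (hT : Tables w) (s t : E → V)
    (Z : Set V)
    (h3 : ∀ X : Set V, (∃ v ∈ Z, v ∈ X) → (∃ v ∈ Z, v ∉ X) → 3 ≤ (cut s t X).card) :
    ∀ (T : Tr V) (O : Set V) (n : ℕ), T.Nodup → T.Width s t w → Disjoint T.set O →
      T.set ∪ O = Z → O.Nonempty → 1 ≤ n → ps s t T O n = 0 →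
      HasC s t T.set (cut s t T.set).card ∧ 3 ≤ (cut s t T.set).card ∧
        (cut s t T.set).card ≤ w := by
  intro T
  induction T with
  | leaf v =>
    intro O n _ hW hd hu hO _ _
    have hc : 3 ≤ (cut s t ({v} : Set V)).card := by
      obtain ⟨x, hx⟩ := hO
      refine h3 {v} ⟨v, by rw [← hu]; exact Or.inl rfl, rfl⟩ ⟨x, by rw [← hu]; exact Or.inr hx, ?_⟩
      exact fun h => Set.disjoint_left.mp hd h hx
    have hw : (cut s t ({v} : Set V)).card ≤ w := hW
    exact ⟨leafC s t v _ rfl hc (hC _ hc hw), hc, hw⟩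
  | node l r ihl ihr =>
    intro O n hN hW hd hu hO hn hps
    have hl := size_pos l
    have hr := size_pos r
    simp only [ps] at hps
    have hd' := hd
    simp only [Tr.set] at hd hu
    rw [Set.disjoint_union_left] at hd
    obtain ⟨l1, l2, l3⟩ := ihl (r.set ∪ O) (r.size + n) hN.2.1 hW.2.1 (by
      rw [Set.disjoint_union_right]; exact ⟨hN.1, hd.1⟩) (by rw [← Set.union_assoc]; exact hu)
      (hO.mono Set.subset_union_right) (by omega) (by omega)
    obtain ⟨r1, r2, r3⟩ := ihr (l.set ∪ O) (l.size + n) hN.2.2 hW.2.2 (by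
      rw [Set.disjoint_union_right]; exact ⟨hN.1.symm, hd.2⟩) (by
      rw [← hu]; ext x; simp only [Set.mem_union]; tauto)
      (hO.mono Set.subset_union_right) (by omega) (by omega)
    have hNz : N s t l.set r.set O l.size r.size n = 0 := by omega
    unfold N at hNz
    have a1 : adj s t l.set r.set := by
      by_contra h
      rw [if_neg h] at hNz
      have : 1 ≤ n ^ 2 := Nat.one_le_pow _ _ hn
      omega
    have a2 : adj s t l.set O := by
      by_contra h
      rw [if_neg h] at hNz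
      have : 1 ≤ r.size ^ 2 := Nat.one_le_pow _ _ hr
      omega
    have a3 : adj s t r.set O := by
      by_contra h
      rw [if_neg h] at hNz
      have : 1 ≤ l.size ^ 2 := Nat.one_le_pow _ _ hl
      omega
    have hc : 3 ≤ (cut s t (Tr.node l r).set).card := by
      obtain ⟨x, hx⟩ := hO
      obtain ⟨y, hy⟩ := set_nonempty l
      refine h3 _ ⟨y, by rw [← hu]; exact Or.inl (Or.inl hy), Or.inl hy⟩
        ⟨x, by rw [← hu]; exact Or.inr hx, ?_⟩
      exact fun h => Set.disjoint_left.mp hd' h hx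
    have hw : (cut s t (Tr.node l r).set).card ≤ w := hW.1
    have dj : ∀ {P Q : Set V} {x : V}, Disjoint P Q → x ∈ P → x ∉ Q := fun h hx =>
      Set.disjoint_left.mp h hx
    refine ⟨?_, hc, hw⟩
    refine join w hC hT s t l.set r.set hN.1 _ _ l1 r1 l2 l3 r2 r3 ?_ ?_ ?_ hc hw
    · rw [Nat.one_le_iff_ne_zero, Ne, card_eq_zero]
      obtain ⟨e, he⟩ := a1
      intro h0
      have : e ∈ cut s t l.set ∩ cut s t r.set := by
        rw [mem_inter, mem_cut, mem_cut]
        rcases he with ⟨p, q⟩ | ⟨p, q⟩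
        · exact ⟨fun h => dj hN.1 (h.1 p) q, fun h => dj hN.1 p (h.2 q)⟩
        · exact ⟨fun h => dj hN.1 (h.2 q) p, fun h => dj hN.1 q (h.1 p)⟩
      rw [h0] at this
      exact notMem_empty e this
    · refine card_lt_card (Finset.ssubset_iff_subset_ne.2 ⟨inter_subset_left, fun h => ?_⟩)
      obtain ⟨e, he⟩ := a2
      have h6 : e ∈ cut s t l.set := by
        rw [mem_cut]
        rcases he with ⟨p, q⟩ | ⟨p, q⟩
        · exact fun h => dj hd.1 (h.1 p) q
        · exact fun h => dj hd.1 (h.2 q) p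
      rw [← h, mem_inter, mem_cut, mem_cut] at h6
      apply h6.2
      rcases he with ⟨p, q⟩ | ⟨p, q⟩
      · exact iff_of_false (dj hN.1 p) (fun h => dj hd.2 h q)
      · exact iff_of_false (fun h => dj hd.2 h p) (dj hN.1 q)
    · refine card_lt_card (Finset.ssubset_iff_subset_ne.2 ⟨inter_subset_right, fun h => ?_⟩)
      obtain ⟨e, he⟩ := a3
      have h6 : e ∈ cut s t r.set := by
        rw [mem_cut]
        rcases he with ⟨p, q⟩ | ⟨p, q⟩
        · exact fun h => dj hd.2 (h.1 p) q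
        · exact fun h => dj hd.2 (h.2 q) p
      rw [← h, mem_inter, mem_cut, mem_cut] at h6
      apply h6.1
      rcases he with ⟨p, q⟩ | ⟨p, q⟩
      · exact iff_of_false (fun h => dj hN.1 h p) (fun h => dj hd.1 h q)
      · exact iff_of_false (fun h => dj hd.1 h p) (fun h => dj hN.1 h q)

theorem three (w : ℕ) (hC : ∀ k, 3 ≤ k → k ≤ w → ClassOK k) (hT : Tables w) : StmThree w := by
  classical
  intro V E _ s t T hN hW hE h3 hcv
  cases T with
  | leaf v =>
    refine ⟨fun _ => 1, fun _ => (by decide : (1 : ZMod 5) ≠ 0), ?_⟩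
    intro x hx
    unfold bd
    apply Finset.sum_eq_zero
    intro e _
    have hx' : x = v := hx
    have h1 : s e = x := by rw [hx']; exact (hE e).1
    have h2 : t e = x := by rw [hx']; exact (hE e).2
    rw [if_pos h1, if_pos h2]
    ring
  | node l r =>
    have hV : Val s t w (Tr.node l r).set l r :=
      ⟨hN.2.1, hN.2.2, hW.2.1, hW.2.2, hN.1, rfl⟩
    have hconn : ∀ X Y : Set V, X.Nonempty → Y.Nonempty → Disjoint X Y →
        X ∪ Y = (Tr.node l r).set → adj s t X Y := by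
      intro X Y ⟨x, hx⟩ ⟨y, hy⟩ hd hu
      have h4 := h3 X ⟨x, by rw [← hu]; exact Or.inl hx, hx⟩
        ⟨y, by rw [← hu]; exact Or.inr hy, fun h => Set.disjoint_left.mp hd h hy⟩
      obtain ⟨e, he⟩ := Finset.card_pos.1 (by omega : 0 < (cut s t X).card)
      rw [mem_cut] at he
      have e1 := (hE e).1
      have e2 := (hE e).2
      rw [← hu, Set.mem_union] at e1 e2
      by_cases hs : s e ∈ X
      · exact ⟨e, Or.inl ⟨hs, e2.resolve_left fun h => he ⟨fun _ => h, fun _ => hs⟩⟩⟩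
      · have ht : t e ∈ X := by
          by_contra h
          exact he ⟨fun h' => absurd h' hs, fun h' => absurd h' h⟩
        exact ⟨e, Or.inr ⟨e1.resolve_left hs, ht⟩⟩
    obtain ⟨v, T, hT1, hps⟩ := bond s t w _ hE hconn hcv _ l r hV le_rfl
    have hd : Disjoint T.set {v} := hT1.d.symm
    have hu : T.set ∪ {v} = (Tr.node l r).set := by rw [Set.union_comm]; exact hT1.u
    obtain ⟨⟨i, hi, o, ho⟩, c3, cw⟩ := keyB w hC hT s t _ h3 T {v} 1 hT1.n2 hT1.w2 hd hu
      ⟨v, rfl⟩ le_rfl hps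
    obtain ⟨k, hk⟩ : ∃ k, k = (cut s t T.set).card := ⟨_, rfl⟩
    rw [← hk] at hi ho c3 cw
    have hcut : cut s t T.set = cut s t {v} := cut_compl s t _ _ _ hE hd hu
    have hov : Ord s t {v} k o := ⟨ho.1.1, fun e => by rw [← hcut]; exact ho.1.2 e⟩
    obtain ⟨-, hne, hsum⟩ := (hC k c3 cw).2 i hi
    obtain ⟨m, hm⟩ := List.exists_mem_of_ne_nil _ hne
    obtain ⟨f1, g1, v1⟩ := ho.2 m hm
    obtain ⟨f2, g2, v2⟩ := vertex_state s t v k o hov (fun i => - vl (dg m i))
      (fun i _ => neg_ne_zero.2 (vl_ne (dg_lt m i))) (by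
        rw [Finset.sum_neg_distrib, hsum m hm, neg_zero])
    obtain ⟨-, glue⟩ := join_std s t T.set {v} hd k k k le_rfl le_rfl o o ho.1 hov
      (fun _ _ => rfl) (fun p h1 h2 => by omega) (fun p h1 h2 => by omega) o
      (fun p hp => by omega) (fun p hp => by omega)
    obtain ⟨f, gf, -⟩ := glue f1 f2 g1 g2 (fun p hp => by rw [v1 p hp, v2 p hp, neg_neg])
    rw [hu] at gf
    exact ⟨f, gf⟩

/-- The main theorem, from the tables. -/
theorem main_flow (w : ℕ) (hC : ∀ k, 3 ≤ k → k ≤ w → ClassOK k) (hT : Tables w) (s t : E → V)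
    (T : Tr V) (hN : T.Nodup) (hW : T.Width s t w) (hE : ∀ e, s e ∈ T.set ∧ t e ∈ T.set)
    (hbr : ∀ Z : Set V, (cut s t Z).card ≠ 1) : ∃ f : E → ZMod 5, Good s t f T.set :=
  main_ind w (three w hC hT) T.size s t T le_rfl hN hW hE hbr

end Pool.Agent.TH405.CW
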