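import Pool.Agent.TH405.CW.RChk
import Pool.Agent.TH405.CW.Dat
import Pool.Agent.TH405.CW.Main

/-! From the evaluated checks to the tables. -/

set_option autoImplicit false

open Finset

namespace Pool.Agent.TH405.CW

theorem mk_pair {a b c i j J w n1 n2 S na k P : ℕ} (hc : c < a) (hcb : c < b)
    (hk : k = a + b - 2 * c) (hna : na = a - c) (hw : w = 4 ^ c) (hn1 : n1 = 4 ^ (a - c - 1))
    (hn2 : n2 = 4 ^ (b - c)) (hS : S = w * n1) (hiJ : i < J)
    (hX : XReach a c i (wx a c i)) (hY : YReach b c j (wyc b c j).flatten)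
    (hT : (tl a b c j).all (okT k) = true) (hP : (wyc b c j).length = P)
    (h : ∀ p < P, mainC a b k na w n1 n2 S (XLf a c J) (tl a b c j) (YLf b c j p) = true) :
    TabPair a b c i j := by
  refine ⟨wx a c i, (wyc b c j).flatten, hX, hY, fun W hW W' hW' => ?_⟩
  obtain ⟨l, hl, hl2⟩ := List.mem_flatten.1 hW'
  obtain ⟨p, hp, rfl⟩ := List.getElem_of_mem hl
  have h1 := h p (by omega)
  refine mainC_sound hc hcb hk hna hw hn1 hn2 hS hT h1 (i, W) ?_ (j, W') ?_
  · unfold XLf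
    rw [List.mem_flatMap]
    exact ⟨i, List.mem_range.2 hiJ, List.mem_map.2 ⟨W, hW, rfl⟩⟩
  · unfold YLf
    rw [List.mem_map]
    refine ⟨W', ?_, rfl⟩
    rw [List.getD_eq_getElem?_getD, List.getElem?_eq_getElem hp]
    exact hl2

/-- The sum of the values. -/
noncomputable def smk (k : ℕ) : ℕ → ℕ :=
  Nat.rec (fun _ => 0) (fun _ ih m => Nat.add (Nat.succ (Nat.mod m 4)) (ih (Nat.div m 4))) k

theorem smk_eq : ∀ (k m : ℕ), smk k m = ∑ j ∈ range k, (dg m j + 1) := by
  intro k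
  induction k with
  | zero => intro m; rfl
  | succ k ih =>
    intro m
    have e : smk (k + 1) m = (m % 4 + 1) + smk k (m / 4) := rfl
    rw [e, ih, Finset.sum_range_succ', dg_zero, Nat.add_comm]
    congr 1
    exact Finset.sum_congr rfl fun j _ => by rw [dg_succ]

/-- The check of a class. -/
noncomputable def clchk (k i : ℕ) : Bool :=
  Nat.beq (clo k (rps k i)) (msk k i) && (!(rps k i).isEmpty) &&
    allN (rps k i) (fun m => Nat.beq (Nat.mod (smk k m) 5) 0)

theorem clchk_ok {k i : ℕ} (h : clchk k i = true) : ClOK k i ∧ rps k i ≠ [] ∧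
    ∀ m ∈ rps k i, ∑ j ∈ range k, vl (dg m j) = 0 := by
  unfold clchk at h
  simp only [Bool.and_eq_true, Nat.beq_eq] at h
  obtain ⟨⟨h1, h2⟩, h3⟩ := h
  refine ⟨h1, ?_, fun m hm => ?_⟩
  · intro h
    rw [h] at h2
    simp at h2
  · have h4 := Nat.eq_of_beq_eq_true (allN_mem h3 m hm)
    have h5 : smk k m % 5 = 0 := h4
    rw [smk_eq] at h5
    have h6 : ((∑ j ∈ range k, (dg m j + 1) : ℕ) : ZMod 5) = 0 := by
      rw [ZMod.natCast_eq_zero_iff]
      exact Nat.dvd_of_mod_eq_zero h5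
    rw [Nat.cast_sum] at h6
    exact h6

end Pool.Agent.TH405.CW
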