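import Pool.Agent.TH405.CW.Dig

/-! Ends of pieces, gluing of two pieces, single vertices. -/

set_option autoImplicit false

open Finset

namespace Pool.Agent.TH405.CW

variable {V E : Type} [Fintype E]

/-- All members of the mask `M` are states of the piece. -/
def HasM (s t : E → V) (X : Set V) (k : ℕ) (o : ℕ → E) (M : ℕ) : Prop :=
  Ord s t X k o ∧ ∀ m, M.testBit m = true → HasSt s t X k o m

/-- All members of the list `L` are states of the piece. -/
def HasL (s t : E → V) (X : Set V) (k : ℕ) (o : ℕ → E) (L : List ℕ) : Prop :=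
  Ord s t X k o ∧ ∀ m ∈ L, HasSt s t X k o m

/-- Exchange of two consecutive ends. -/
def swo {E : Type} (i : ℕ) (o : ℕ → E) : ℕ → E :=
  fun j => if j = i then o (i + 1) else if j = i + 1 then o i else o j

theorem ord_congr (s t : E → V) (X : Set V) (k : ℕ) (o o' : ℕ → E) (h : Ord s t X k o)
    (ho : ∀ j < k, o' j = o j) : Ord s t X k o' := by
  refine ⟨fun i hi j hj hij => h.1 i hi j hj (by rw [← ho i hi, ← ho j hj, hij]), fun e => ?_⟩
  rw [h.2 e]
  constructor
  · rintro ⟨i, hi, rfl⟩; exact ⟨i, hi, ho i hi⟩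
  · rintro ⟨i, hi, rfl⟩; exact ⟨i, hi, (ho i hi).symm⟩

/-- Renumbering of the ends. -/
theorem ord_comp (s t : E → V) (X : Set V) (k : ℕ) (o : ℕ → E) (h : Ord s t X k o) (g : ℕ → ℕ)
    (h1 : ∀ i < k, g i < k) (h2 : ∀ i < k, ∀ j < k, g i = g j → i = j) :
    Ord s t X k (fun i => o (g i)) := by
  have h3 : ∀ i < k, ∃ j < k, g j = i := by
    intro i hi
    have hinj' : Function.Injective (fun i : Fin k => (⟨g i, h1 i i.2⟩ : Fin k)) := by
      intro i j hij
      exact Fin.ext (h2 i i.2 j j.2 (Fin.mk.inj hij))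
    obtain ⟨j, hj⟩ := (Finite.injective_iff_surjective.1 hinj') ⟨i, hi⟩
    exact ⟨j, j.2, Fin.mk.inj hj⟩
  refine ⟨fun i hi j hj hij => h2 i hi j hj (h.1 _ (h1 i hi) _ (h1 j hj) hij), fun e => ?_⟩
  rw [h.2 e]
  constructor
  · rintro ⟨i, hi, rfl⟩
    obtain ⟨j, hj, rfl⟩ := h3 i hi
    exact ⟨j, hj, rfl⟩
  · rintro ⟨i, hi, rfl⟩
    exact ⟨_, h1 i hi, rfl⟩

theorem ord_swo (s t : E → V) (X : Set V) (k : ℕ) (o : ℕ → E) (h : Ord s t X k o) (i : ℕ)
    (hi : i + 1 < k) : Ord s t X k (swo i o) := by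
  have h1 := ord_comp s t X k o h (fun j => if j = i then i + 1 else if j = i + 1 then i else j)
    (fun j hj => by split_ifs <;> omega)
    (fun j hj l hl hjl => by split_ifs at hjl <;> omega)
  refine ord_congr s t X k _ _ h1 fun j hj => ?_
  unfold swo
  split_ifs <;> rfl

theorem hasM_swo (s t : E → V) (X : Set V) (k : ℕ) (o : ℕ → E) (M M' i : ℕ) (hi : i + 1 < k)
    (h : HasM s t X k o M)
    (hM : ∀ m, M'.testBit m = true → ∃ n, M.testBit n = true ∧ SwD i m n) :
    HasM s t X k (swo i o) M' := by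
  refine ⟨ord_swo s t X k o h.1 i hi, fun m hm => ?_⟩
  obtain ⟨n, hn, h1, h2, h3⟩ := hM m hm
  obtain ⟨f, hf, hf2⟩ := h.2 n hn
  refine ⟨f, hf, fun j hj => ?_⟩
  unfold swo
  by_cases c1 : j = i
  · rw [if_pos c1, hf2 _ hi, h2, c1]
  · rw [if_neg c1]
    by_cases c2 : j = i + 1
    · rw [if_pos c2, hf2 _ (by omega), h1, c2]
    · rw [if_neg c2, hf2 _ hj, h3 j c1 c2]

theorem mem_cut_union (s t : E → V) (X Y : Set V) (hd : Disjoint X Y) (e : E) :
    e ∈ cut s t (X ∪ Y) ↔ (e ∈ cut s t X ∧ e ∉ cut s t Y) ∨ (e ∈ cut s t Y ∧ e ∉ cut s t X) := by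
  have h : ∀ v, v ∈ X → v ∉ Y := fun v hv => Set.disjoint_left.mp hd hv
  have h1 := h (s e)
  have h2 := h (t e)
  simp only [mem_cut, Set.mem_union]
  tauto

/-- Gluing in the standard position. -/
theorem join_std (s t : E → V) (X Y : Set V) (hd : Disjoint X Y) (a b c : ℕ) (hca : c ≤ a)
    (hcb : c ≤ b) (oX oY : ℕ → E) (hX : Ord s t X a oX) (hY : Ord s t Y b oY)
    (hsh : ∀ i < c, oX i = oY i) (hfX : ∀ i, c ≤ i → i < a → oX i ∉ cut s t Y)
    (hfY : ∀ i, c ≤ i → i < b → oY i ∉ cut s t X) (o : ℕ → E)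
    (ho1 : ∀ i < a - c, o i = oX (c + i)) (ho2 : ∀ i < b - c, o (a - c + i) = oY (c + i)) :
    Ord s t (X ∪ Y) (a + b - 2 * c) o ∧ ∀ fX fY, Good s t fX X → Good s t fY Y →
      (∀ i < c, ov s X fX (oX i) = - ov s Y fY (oY i)) →
      ∃ f, Good s t f (X ∪ Y) ∧ (∀ i < a - c, ov s (X ∪ Y) f (o i) = ov s X fX (oX (c + i))) ∧
        (∀ i < b - c, ov s (X ∪ Y) f (o (a - c + i)) = ov s Y fY (oY (c + i))) := by
  classical
  have hdis : ∀ v, v ∈ X → v ∉ Y := fun v hv => Set.disjoint_left.mp hd hv
  have hcase : ∀ i < a + b - 2 * c, i < a - c ∨ ∃ j < b - c, i = a - c + j := by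
    intro i hi
    by_cases h : i < a - c
    · exact Or.inl h
    · exact Or.inr ⟨i - (a - c), by omega, by omega⟩
  refine ⟨⟨?_, ?_⟩, ?_⟩
  · intro i hi j hj hij
    rcases hcase i hi with h1 | ⟨i', hi', rfl⟩
    · rcases hcase j hj with h2 | ⟨j', hj', rfl⟩
      · rw [ho1 i h1, ho1 j h2] at hij
        have := hX.1 _ (by omega) _ (by omega) hij
        omega
      · rw [ho1 i h1, ho2 j' hj'] at hij
        have h3 := hfX (c + i) (by omega) (by omega)
        rw [hij] at h3
        exact absurd ((hY.2 _).2 ⟨c + j', by omega, rfl⟩) h3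
    · rcases hcase j hj with h2 | ⟨j', hj', rfl⟩
      · rw [ho2 i' hi', ho1 j h2] at hij
        have h3 := hfX (c + j) (by omega) (by omega)
        rw [← hij] at h3
        exact absurd ((hY.2 _).2 ⟨c + i', by omega, rfl⟩) h3
      · rw [ho2 i' hi', ho2 j' hj'] at hij
        have := hY.1 _ (by omega) _ (by omega) hij
        omega
  · intro e
    rw [mem_cut_union s t X Y hd]
    constructor
    · rintro (⟨h1, h2⟩ | ⟨h1, h2⟩)
      · obtain ⟨i, hi, rfl⟩ := (hX.2 e).1 h1
        by_cases h : i < c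
        · exfalso
          rw [hsh i h] at h2
          exact h2 ((hY.2 _).2 ⟨_, by omega, rfl⟩)
        · refine ⟨i - c, by omega, ?_⟩
          rw [ho1 _ (by omega), show c + (i - c) = i by omega]
      · obtain ⟨i, hi, rfl⟩ := (hY.2 e).1 h1
        by_cases h : i < c
        · exfalso
          rw [← hsh i h] at h2
          exact h2 ((hX.2 _).2 ⟨_, by omega, rfl⟩)
        · refine ⟨a - c + (i - c), by omega, ?_⟩
          rw [ho2 _ (by omega), show c + (i - c) = i by omega]
    · rintro ⟨i, hi, rfl⟩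
      rcases hcase i hi with h1 | ⟨j, hj, rfl⟩
      · left
        rw [ho1 i h1]
        exact ⟨(hX.2 _).2 ⟨c + i, by omega, rfl⟩, hfX _ (by omega) (by omega)⟩
      · right
        rw [ho2 j hj]
        exact ⟨(hY.2 _).2 ⟨c + j, by omega, rfl⟩, hfY _ (by omega) (by omega)⟩
  · intro fX fY gX gY hg
    obtain ⟨f, hf⟩ : ∃ f : E → ZMod 5, f = fun e => if s e ∈ X ∨ t e ∈ X then fX e
      else fY e := ⟨_, rfl⟩
    have hf1 : ∀ e, (s e ∈ X ∨ t e ∈ X) → f e = fX e := fun e he => by
      rw [hf]; simp only [if_pos he]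
    have hf2 : ∀ e, ¬ (s e ∈ X ∨ t e ∈ X) → f e = fY e := fun e he => by
      rw [hf]; simp only [if_neg he]
    have hf3 : ∀ e, (s e ∈ Y ∨ t e ∈ Y) → f e = fY e := by
      intro e he
      by_cases hx : s e ∈ X ∨ t e ∈ X
      · have h1 := hdis (s e)
        have h2 := hdis (t e)
        have hcX : e ∈ cut s t X := by rw [mem_cut]; tauto
        have hcY : e ∈ cut s t Y := by rw [mem_cut]; tauto
        rw [hf1 e hx]
        obtain ⟨x, hx', hxe⟩ := (hX.2 e).mp hcX
        have hxc : x < c := by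
          by_contra h
          have := hfX x (by omega) hx'
          rw [hxe] at this
          exact this hcY
        have h4 := hg x hxc
        rw [← hsh x hxc, hxe] at h4
        by_cases hs : s e ∈ X
        · have hsY : s e ∉ Y := hdis _ hs
          unfold ov at h4
          rw [if_pos hs, if_neg hsY, neg_neg] at h4
          exact h4
        · have htX : t e ∈ X := hx.resolve_left hs
          have hsY : s e ∈ Y := by
            by_contra h
            rcases he with he | he
            · exact h he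
            · exact h2 htX he
          unfold ov at h4
          rw [if_neg hs, if_pos hsY] at h4
          exact neg_injective h4
      · exact hf2 e hx
    refine ⟨f, ⟨?_, ?_⟩, ?_, ?_⟩
    · intro e
      by_cases hx : s e ∈ X ∨ t e ∈ X
      · rw [hf1 e hx]; exact gX.1 e
      · rw [hf2 e hx]; exact gY.1 e
    · intro v hv
      rcases hv with hv | hv
      · rw [← gX.2 v hv]
        refine bd_congr s t _ _ v fun e he => ?_
        rw [hf1 e (by rcases he with h | h <;> rw [h] <;> simp [hv])]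
      · rw [← gY.2 v hv]
        refine bd_congr s t _ _ v fun e he => ?_
        rw [hf3 e (by rcases he with h | h <;> rw [h] <;> simp [hv])]
    · intro i hi
      rw [ho1 i hi]
      have hcX : oX (c + i) ∈ cut s t X := (hX.2 _).2 ⟨c + i, by omega, rfl⟩
      have hcY := hfX (c + i) (by omega) (by omega)
      rw [mem_cut] at hcX hcY
      by_cases hs : s (oX (c + i)) ∈ X
      · unfold ov
        rw [if_pos (show s (oX (c + i)) ∈ X ∪ Y from Or.inl hs), if_pos hs, hf1 _ (Or.inl hs)]
      · have ht : t (oX (c + i)) ∈ X := by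
          by_contra h
          exact hcX ⟨fun h' => absurd h' hs, fun h' => absurd h' h⟩
        have hsY : s (oX (c + i)) ∉ Y := by
          intro h
          have h5 : t (oX (c + i)) ∈ Y := by
            by_contra h6
            exact hcY (fun h' => h6 (h'.1 h))
          exact hdis _ ht h5
        unfold ov
        rw [if_neg (show s (oX (c + i)) ∉ X ∪ Y from fun h => h.elim hs hsY), if_neg hs,
          hf1 _ (Or.inr ht)]
    · intro j hj
      rw [ho2 j hj]
      have hcY : oY (c + j) ∈ cut s t Y := (hY.2 _).2 ⟨c + j, by omega, rfl⟩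
      have hcX := hfY (c + j) (by omega) (by omega)
      rw [mem_cut] at hcX hcY
      by_cases hs : s (oY (c + j)) ∈ Y
      · unfold ov
        rw [if_pos (show s (oY (c + j)) ∈ X ∪ Y from Or.inr hs), if_pos hs, hf3 _ (Or.inl hs)]
      · have ht : t (oY (c + j)) ∈ Y := by
          by_contra h
          exact hcY ⟨fun h' => absurd h' hs, fun h' => absurd h' h⟩
        have hsX : s (oY (c + j)) ∉ X := by
          intro h
          have h5 : t (oY (c + j)) ∈ X := by
            by_contra h6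
            exact hcX (fun h' => h6 (h'.1 h))
          exact hdis _ h5 ht
        unfold ov
        rw [if_neg (show s (oY (c + j)) ∉ X ∪ Y from fun h => h.elim hsX hs), if_neg hs,
          hf3 _ (Or.inr ht)]

/-- A numbering of the ends. -/
theorem exists_ord (s t : E → V) (X : Set V) (h : 0 < (cut s t X).card) :
    ∃ o : ℕ → E, Ord s t X (cut s t X).card o := by
  classical
  obtain ⟨C, hC⟩ : ∃ C, C = cut s t X := ⟨_, rfl⟩
  rw [← hC] at h ⊢
  obtain ⟨e0, he0⟩ : C.Nonempty := Finset.card_pos.mp h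
  let q := C.equivFin
  refine ⟨fun i => if h : i < C.card then (q.symm ⟨i, h⟩).1 else e0, ?_, ?_⟩
  · intro i hi j hj hij
    simp only [dif_pos hi, dif_pos hj] at hij
    have h1 := q.symm.injective (Subtype.ext hij)
    simpa using h1
  · intro e
    rw [← hC]
    constructor
    · intro he
      refine ⟨(q ⟨e, he⟩).1, (q ⟨e, he⟩).2, ?_⟩
      simp only [dif_pos (q ⟨e, he⟩).2, Fin.eta, Equiv.symm_apply_apply]
    · rintro ⟨i, hi, rfl⟩
      simp only [dif_pos hi]
      exact (q.symm ⟨i, hi⟩).2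

/-- Single vertices have all states. -/
theorem vertex_state (s t : E → V) (v : V) (k : ℕ) (o : ℕ → E) (ho : Ord s t {v} k o)
    (z : ℕ → ZMod 5) (hz : ∀ i < k, z i ≠ 0) (hs : ∑ i ∈ range k, z i = 0) :
    ∃ f, Good s t f {v} ∧ ∀ i < k, ov s {v} f (o i) = z i := by
  classical
  have hmem : ∀ e, e ∈ cut s t {v} ↔ ¬ (s e = v ↔ t e = v) := by
    intro e
    rw [mem_cut]
    simp only [Set.mem_singleton_iff]
  obtain ⟨q, hq⟩ : ∃ q : E → ℕ, ∀ e ∈ cut s t {v}, q e < k ∧ o (q e) = e := by
    refine ⟨fun e => if h : ∃ i < k, o i = e then h.choose else 0, fun e he => ?_⟩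
    have h := (ho.2 e).1 he
    simp only [dif_pos h]
    exact h.choose_spec
  obtain ⟨f, hf⟩ : ∃ f : E → ZMod 5, f = fun e => if e ∈ cut s t {v} then
    (if s e = v then z (q e) else - z (q e)) else 1 := ⟨_, rfl⟩
  have hf1 : ∀ e ∈ cut s t {v}, f e = if s e = v then z (q e) else - z (q e) := by
    intro e h
    rw [hf]
    simp only [if_pos h]
  have hf2 : ∀ e, e ∉ cut s t {v} → f e = 1 := by
    intro e h
    rw [hf]
    simp only [if_neg h]
  have hov : ∀ e ∈ cut s t {v}, ov s {v} f e = z (q e) := by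
    intro e h
    unfold ov
    rw [hf1 e h]
    by_cases hs : s e = v
    · rw [if_pos hs, if_pos (by simpa using hs)]
    · rw [if_neg hs, if_neg (by simpa using hs), neg_neg]
  have hqo : ∀ i < k, q (o i) = i := by
    intro i hi
    have h1 := hq (o i) ((ho.2 _).2 ⟨i, hi, rfl⟩)
    exact ho.1 _ h1.1 _ hi h1.2
  refine ⟨f, ⟨?_, ?_⟩, ?_⟩
  · intro e
    by_cases h : e ∈ cut s t {v}
    · rw [hf1 e h]
      split_ifs
      · exact hz _ (hq e h).1
      · exact neg_ne_zero.2 (hz _ (hq e h).1)
    · rw [hf2 e h]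
      decide
  · intro w hw
    rw [Set.mem_singleton_iff] at hw
    subst hw
    have h1 : bd s t f w = ∑ e, if e ∈ cut s t {w} then ov s {w} f e else 0 := by
      unfold bd
      refine Finset.sum_congr rfl ?_
      intro e _
      by_cases hm : e ∈ cut s t {w}
      · rw [if_pos hm, hov e hm, hf1 e hm]
        have hm' := (hmem e).1 hm
        by_cases h2 : s e = w
        · have h3 : t e ≠ w := fun h => hm' ⟨fun _ => h, fun _ => h2⟩
          simp only [if_pos h2, if_neg h3]
          ring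
        · have h3 : t e = w := by
            by_contra h
            exact hm' ⟨fun h' => absurd h' h2, fun h' => absurd h' h⟩
          simp only [if_neg h2, if_pos h3]
          ring
      · rw [if_neg hm]
        have hm' : (s e = w ↔ t e = w) := by
          by_contra h
          exact hm ((hmem e).2 h)
        by_cases h2 : s e = w
        · rw [if_pos h2, if_pos (hm'.1 h2)]; ring
        · rw [if_neg h2, if_neg (fun h => h2 (hm'.2 h))]; ring
    rw [h1, Finset.sum_ite_mem, Finset.univ_inter, ← hs]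
    have h2 : cut s t {w} = (range k).image o := by
      ext e
      rw [ho.2 e, mem_image]
      constructor
      · rintro ⟨i, hi, rfl⟩; exact ⟨i, mem_range.2 hi, rfl⟩
      · rintro ⟨i, hi, rfl⟩; exact ⟨i, mem_range.1 hi, rfl⟩
    rw [h2, Finset.sum_image (fun i hi j hj hij => ho.1 i (by simpa using hi) j
      (by simpa using hj) hij)]
    refine Finset.sum_congr rfl fun i hi => ?_
    have hi' := mem_range.1 hi
    rw [hov _ ((ho.2 _).2 ⟨i, hi', rfl⟩), hqo i hi']
  · intro j hj
    rw [hov _ ((ho.2 _).2 ⟨j, hj, rfl⟩), hqo j hj]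

end Pool.Agent.TH405.CW
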