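import Pool.Agent.TH405.CW.Acl

/-! Renumberings. -/

set_option autoImplicit false
set_option maxRecDepth 100000

namespace Pool.Agent.TH405.CW

theorem xr3_1_0 : XReach 3 1 0 (wx 3 1 0) :=
  xreach_of (allP_mem a3_0) (by decide +kernel) (by decide +kernel)
theorem xr3_1 : ∀ i < 1, XReach 3 1 i (wx 3 1 i) := by
  intro i hi
  interval_cases i
  · exact xr3_1_0

theorem xr4_1_0 : XReach 4 1 0 (wx 4 1 0) :=
  xreach_of (allP_mem a4_0) (by decide +kernel) (by decide +kernel)
theorem xr4_1 : ∀ i < 1, XReach 4 1 i (wx 4 1 i) := by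
  intro i hi
  interval_cases i
  · exact xr4_1_0

theorem xr4_2_0 : XReach 4 2 0 (wx 4 2 0) :=
  xreach_of (allP_mem a4_0) (by decide +kernel) (by decide +kernel)
theorem xr4_2 : ∀ i < 1, XReach 4 2 i (wx 4 2 i) := by
  intro i hi
  interval_cases i
  · exact xr4_2_0

theorem xr5_1_0 : XReach 5 1 0 (wx 5 1 0) :=
  xreach_of (allP_mem a5_0) (by decide +kernel) (by decide +kernel)
theorem xr5_1_1 : XReach 5 1 1 (wx 5 1 1) :=
  xreach_of (allP_mem a5_1) (by decide +kernel) (by decide +kernel)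
theorem xr5_1 : ∀ i < 2, XReach 5 1 i (wx 5 1 i) := by
  intro i hi
  interval_cases i
  · exact xr5_1_0
  · exact xr5_1_1

theorem xr5_2_0 : XReach 5 2 0 (wx 5 2 0) :=
  xreach_of (allP_mem a5_0) (by decide +kernel) (by decide +kernel)
theorem xr5_2_1 : XReach 5 2 1 (wx 5 2 1) :=
  xreach_of (allP_mem a5_1) (by decide +kernel) (by decide +kernel)
theorem xr5_2 : ∀ i < 2, XReach 5 2 i (wx 5 2 i) := by
  intro i hi
  interval_cases i
  · exact xr5_2_0
  · exact xr5_2_1

theorem xr5_3_0 : XReach 5 3 0 (wx 5 3 0) :=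
  xreach_of (allP_mem a5_0) (by decide +kernel) (by decide +kernel)
theorem xr5_3_1 : XReach 5 3 1 (wx 5 3 1) :=
  xreach_of (allP_mem a5_1) (by decide +kernel) (by decide +kernel)
theorem xr5_3 : ∀ i < 2, XReach 5 3 i (wx 5 3 i) := by
  intro i hi
  interval_cases i
  · exact xr5_3_0
  · exact xr5_3_1

theorem xr6_1_0 : XReach 6 1 0 (wx 6 1 0) :=
  xreach_of (allP_mem a6_0) (by decide +kernel) (by decide +kernel)
theorem xr6_1_1 : XReach 6 1 1 (wx 6 1 1) :=
  xreach_of (allP_mem a6_1) (by decide +kernel) (by decide +kernel)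
theorem xr6_1_2 : XReach 6 1 2 (wx 6 1 2) :=
  xreach_of (allP_mem a6_2) (by decide +kernel) (by decide +kernel)
theorem xr6_1_3 : XReach 6 1 3 (wx 6 1 3) :=
  xreach_of (allP_mem a6_3) (by decide +kernel) (by decide +kernel)
theorem xr6_1 : ∀ i < 4, XReach 6 1 i (wx 6 1 i) := by
  intro i hi
  interval_cases i
  · exact xr6_1_0
  · exact xr6_1_1
  · exact xr6_1_2
  · exact xr6_1_3

theorem xr6_2_0 : XReach 6 2 0 (wx 6 2 0) :=
  xreach_of (allP_mem a6_0) (by decide +kernel) (by decide +kernel)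
theorem xr6_2_1 : XReach 6 2 1 (wx 6 2 1) :=
  xreach_of (allP_mem a6_1) (by decide +kernel) (by decide +kernel)
theorem xr6_2_2 : XReach 6 2 2 (wx 6 2 2) :=
  xreach_of (allP_mem a6_2) (by decide +kernel) (by decide +kernel)
theorem xr6_2_3 : XReach 6 2 3 (wx 6 2 3) :=
  xreach_of (allP_mem a6_3) (by decide +kernel) (by decide +kernel)
theorem xr6_2 : ∀ i < 4, XReach 6 2 i (wx 6 2 i) := by
  intro i hi
  interval_cases i
  · exact xr6_2_0
  · exact xr6_2_1
  · exact xr6_2_2
  · exact xr6_2_3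

theorem xr6_3_0 : XReach 6 3 0 (wx 6 3 0) :=
  xreach_of (allP_mem a6_0) (by decide +kernel) (by decide +kernel)
theorem xr6_3_1 : XReach 6 3 1 (wx 6 3 1) :=
  xreach_of (allP_mem a6_1) (by decide +kernel) (by decide +kernel)
theorem xr6_3_2 : XReach 6 3 2 (wx 6 3 2) :=
  xreach_of (allP_mem a6_2) (by decide +kernel) (by decide +kernel)
theorem xr6_3_3 : XReach 6 3 3 (wx 6 3 3) :=
  xreach_of (allP_mem a6_3) (by decide +kernel) (by decide +kernel)
theorem xr6_3 : ∀ i < 4, XReach 6 3 i (wx 6 3 i) := by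
  intro i hi
  interval_cases i
  · exact xr6_3_0
  · exact xr6_3_1
  · exact xr6_3_2
  · exact xr6_3_3

theorem xr6_4_0 : XReach 6 4 0 (wx 6 4 0) :=
  xreach_of (allP_mem a6_0) (by decide +kernel) (by decide +kernel)
theorem xr6_4_1 : XReach 6 4 1 (wx 6 4 1) :=
  xreach_of (allP_mem a6_1) (by decide +kernel) (by decide +kernel)
theorem xr6_4_2 : XReach 6 4 2 (wx 6 4 2) :=
  xreach_of (allP_mem a6_2) (by decide +kernel) (by decide +kernel)
theorem xr6_4_3 : XReach 6 4 3 (wx 6 4 3) :=
  xreach_of (allP_mem a6_3) (by decide +kernel) (by decide +kernel)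
theorem xr6_4 : ∀ i < 4, XReach 6 4 i (wx 6 4 i) := by
  intro i hi
  interval_cases i
  · exact xr6_4_0
  · exact xr6_4_1
  · exact xr6_4_2
  · exact xr6_4_3

theorem yr3_1_0 : YReach 3 1 0 (wyc 3 1 0).flatten :=
  yreach_of (by decide) (by decide) (allP_mem a3_0) (by decide +kernel) (by decide +kernel)
theorem yr3_2_0 : YReach 3 2 0 (wyc 3 2 0).flatten :=
  yreach_of (by decide) (by decide) (allP_mem a3_0) (by decide +kernel) (by decide +kernel)
theorem yr4_1_0 : YReach 4 1 0 (wyc 4 1 0).flatten :=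
  yreach_of (by decide) (by decide) (allP_mem a4_0) (by decide +kernel) (by decide +kernel)
theorem yr4_2_0 : YReach 4 2 0 (wyc 4 2 0).flatten :=
  yreach_of (by decide) (by decide) (allP_mem a4_0) (by decide +kernel) (by decide +kernel)
theorem yr4_3_0 : YReach 4 3 0 (wyc 4 3 0).flatten :=
  yreach_of (by decide) (by decide) (allP_mem a4_0) (by decide +kernel) (by decide +kernel)
theorem yr5_2_0 : YReach 5 2 0 (wyc 5 2 0).flatten :=
  yreach_of (by decide) (by decide) (allP_mem a5_0) (by decide +kernel) (by decide +kernel)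
theorem yr5_2_1 : YReach 5 2 1 (wyc 5 2 1).flatten :=
  yreach_of (by decide) (by decide) (allP_mem a5_1) (by decide +kernel) (by decide +kernel)
theorem yr5_3_0 : YReach 5 3 0 (wyc 5 3 0).flatten :=
  yreach_of (by decide) (by decide) (allP_mem a5_0) (by decide +kernel) (by decide +kernel)
theorem yr5_3_1 : YReach 5 3 1 (wyc 5 3 1).flatten :=
  yreach_of (by decide) (by decide) (allP_mem a5_1) (by decide +kernel) (by decide +kernel)
theorem yr5_4_0 : YReach 5 4 0 (wyc 5 4 0).flatten :=
  yreach_of (by decide) (by decide) (allP_mem a5_0) (by decide +kernel) (by decide +kernel)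
theorem yr5_4_1 : YReach 5 4 1 (wyc 5 4 1).flatten :=
  yreach_of (by decide) (by decide) (allP_mem a5_1) (by decide +kernel) (by decide +kernel)
theorem yr6_3_0 : YReach 6 3 0 (wyc 6 3 0).flatten :=
  yreach_of (by decide) (by decide) (allP_mem a6_0) (by decide +kernel) (by decide +kernel)
theorem yr6_3_1 : YReach 6 3 1 (wyc 6 3 1).flatten :=
  yreach_of (by decide) (by decide) (allP_mem a6_1) (by decide +kernel) (by decide +kernel)
theorem yr6_3_2 : YReach 6 3 2 (wyc 6 3 2).flatten :=
  yreach_of (by decide) (by decide) (allP_mem a6_2) (by decide +kernel) (by decide +kernel)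
theorem yr6_3_3 : YReach 6 3 3 (wyc 6 3 3).flatten :=
  yreach_of (by decide) (by decide) (allP_mem a6_3) (by decide +kernel) (by decide +kernel)
theorem yr6_4_0 : YReach 6 4 0 (wyc 6 4 0).flatten :=
  yreach_of (by decide) (by decide) (allP_mem a6_0) (by decide +kernel) (by decide +kernel)
theorem yr6_4_1 : YReach 6 4 1 (wyc 6 4 1).flatten :=
  yreach_of (by decide) (by decide) (allP_mem a6_1) (by decide +kernel) (by decide +kernel)
theorem yr6_4_2 : YReach 6 4 2 (wyc 6 4 2).flatten :=
  yreach_of (by decide) (by decide) (allP_mem a6_2) (by decide +kernel) (by decide +kernel)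
theorem yr6_4_3 : YReach 6 4 3 (wyc 6 4 3).flatten :=
  yreach_of (by decide) (by decide) (allP_mem a6_3) (by decide +kernel) (by decide +kernel)
theorem yr6_5_0 : YReach 6 5 0 (wyc 6 5 0).flatten :=
  yreach_of (by decide) (by decide) (allP_mem a6_0) (by decide +kernel) (by decide +kernel)
theorem yr6_5_1 : YReach 6 5 1 (wyc 6 5 1).flatten :=
  yreach_of (by decide) (by decide) (allP_mem a6_1) (by decide +kernel) (by decide +kernel)
theorem yr6_5_2 : YReach 6 5 2 (wyc 6 5 2).flatten :=
  yreach_of (by decide) (by decide) (allP_mem a6_2) (by decide +kernel) (by decide +kernel)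
theorem yr6_5_3 : YReach 6 5 3 (wyc 6 5 3).flatten :=
  yreach_of (by decide) (by decide) (allP_mem a6_3) (by decide +kernel) (by decide +kernel)

end Pool.Agent.TH405.CW
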