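import Pool.Agent.TH405.CW.Reach

/-! Checks for the renumberings. -/

set_option autoImplicit false

namespace Pool.Agent.TH405.CW

/-- The check of a symmetry `x.1` with the inverse `x.2`. -/
noncomputable def auchk (k i : ℕ) (x : List ℕ × List ℕ) : Bool :=
  (List.range k).all (fun j => Nat.ble (x.1.getD j 0 + 1) k && Nat.ble (x.2.getD j 0 + 1) k &&
    Nat.beq (x.2.getD (x.1.getD j 0) 0) j && Nat.beq (x.1.getD (x.2.getD j 0) 0) j) &&
  Nat.beq x.2.length k && allN (rps k i) (fun m => tb (msk k i) (pds 1 m x.2))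

/-- The code of a sequence. -/
noncomputable def cd (q : List ℕ) : ℕ := List.rec 0 (fun x _ ih => Nat.add x (Nat.mul 8 ih)) q

/-- The code of a set. -/
noncomputable def st (q : List ℕ) : ℕ :=
  List.rec 0 (fun x _ ih => Nat.lor (Nat.shiftLeft 1 x) ih) q

/-- All sequences of different numbers less than `k`. -/
def injs (k : ℕ) : ℕ → List (List ℕ)
  | 0 => [[]]
  | n + 1 => (injs k n).flatMap (fun l =>
      ((List.range k).filter (fun y => !(l.contains y))).map (fun y => y :: l))

/-- The entries increase. -/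
def srt : List ℕ → Bool
  | x :: y :: l => Nat.ble (x + 1) y && srt (y :: l)
  | _ => true

theorem srt_of : ∀ {l : List ℕ}, l.Pairwise (· < ·) → srt l = true
  | [], _ => rfl
  | [_], _ => rfl
  | x :: y :: l, h => by
    rw [List.pairwise_cons] at h
    show (Nat.ble (x + 1) y && srt (y :: l)) = true
    rw [srt_of h.2, Bool.and_true, Nat.ble_eq]
    exact h.1 y List.mem_cons_self

theorem mem_injs {k : ℕ} : ∀ {c : ℕ} {q : List ℕ}, q.length = c → q.Nodup → (∀ x ∈ q, x < k) →
    q ∈ injs k c := by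
  intro c
  induction c with
  | zero =>
    intro q h _ _
    rw [List.length_eq_zero_iff] at h
    subst h
    simp [injs]
  | succ c ih =>
    intro q hl hn hlt
    cases q with
    | nil => simp at hl
    | cons y l =>
      rw [List.nodup_cons] at hn
      rw [injs, List.mem_flatMap]
      refine ⟨l, ih (by simpa using hl) hn.2 (fun z hz => hlt z (List.mem_cons_of_mem _ hz)), ?_⟩
      rw [List.mem_map]
      refine ⟨y, ?_, rfl⟩
      rw [List.mem_filter, List.mem_range]
      exact ⟨hlt y List.mem_cons_self, by simpa using hn.1⟩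

theorem cd_inj : ∀ {p q : List ℕ}, p.length = q.length → (∀ x ∈ p, x < 8) → (∀ x ∈ q, x < 8) →
    cd p = cd q → p = q
  | [], [], _, _, _, _ => rfl
  | [], _ :: _, h, _, _, _ => by simp at h
  | _ :: _, [], h, _, _, _ => by simp at h
  | x :: p, y :: q, h, hp, hq, e => by
    have e' : x + 8 * cd p = y + 8 * cd q := e
    have h1 := hp x List.mem_cons_self
    have h2 := hq y List.mem_cons_self
    have h3 : x = y := by omega
    have h4 : cd p = cd q := by omega
    rw [h3, cd_inj (by simpa using h) (fun z hz => hp z (List.mem_cons_of_mem _ hz))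
      (fun z hz => hq z (List.mem_cons_of_mem _ hz)) h4]

theorem st_bit {q : List ℕ} {y : ℕ} : (st q).testBit y = true ↔ y ∈ q := by
  induction q with
  | nil =>
    show (0 : ℕ).testBit y = true ↔ _
    simp
  | cons x q ih =>
    have e : (st (x :: q)).testBit y = (Nat.shiftLeft 1 x ||| st q).testBit y := rfl
    rw [e, Nat.testBit_or, Bool.or_eq_true, ih, List.mem_cons]
    constructor
    · rintro (h | h)
      · exact Or.inl (one_bit h)
      · exact Or.inr h
    · rintro (h | h)
      · subst h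
        exact Or.inl one_bit'
      · exact Or.inr h

theorem swl_perm : ∀ (i : ℕ) (l : List ℕ), (swl i l).Perm l
  | 0, [] => List.Perm.refl _
  | 0, [_] => List.Perm.refl _
  | 0, x :: y :: l => List.Perm.swap x y l
  | _ + 1, [] => List.Perm.refl _
  | i + 1, x :: l => (swl_perm i l).cons x

theorem plk_perm : ∀ (W P : List ℕ), (plk W P).Perm P
  | [], _ => List.Perm.refl _
  | i :: W, P => (plk_perm W (swl i P)).trans (swl_perm i P)

theorem pw_facts (k W : ℕ) : (pw k W).length = k ∧ (∀ j < k, (pw k W).getD j 0 < k) ∧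
    (∀ j < k, ∀ l < k, (pw k W).getD j 0 = (pw k W).getD l 0 → j = l) ∧
    ∀ x ∈ pw k W, x < k := by
  have h : (pw k W).Perm (List.range k) := plk_perm _ _
  have hl : (pw k W).length = k := by rw [h.length_eq, List.length_range]
  have hm : ∀ x ∈ pw k W, x < k := fun x hx => List.mem_range.1 (h.mem_iff.1 hx)
  have hn : (pw k W).Nodup := h.nodup_iff.2 List.nodup_range
  refine ⟨hl, fun j hj => ?_, fun j hj l hl' he => ?_, hm⟩
  · rw [List.getD_eq_getElem?_getD, List.getElem?_eq_getElem (by omega)]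
    exact hm _ (List.getElem_mem _)
  · rw [List.getD_eq_getElem?_getD, List.getD_eq_getElem?_getD, List.getElem?_eq_getElem (by omega),
      List.getElem?_eq_getElem (by omega)] at he
    exact (List.Nodup.getElem_inj_iff hn).1 he

theorem auchk_ok {k i : ℕ} {x : List ℕ × List ℕ} (h : auchk k i x = true) :
    AutOK k i x.1 ∧ (∀ j < k, x.2.getD j 0 < k) ∧ ∀ j < k, x.1.getD (x.2.getD j 0) 0 = j := by
  unfold auchk at h
  simp only [Bool.and_eq_true, List.all_eq_true, List.mem_range, Nat.ble_eq, Nat.beq_eq] at h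
  obtain ⟨⟨h1, h2⟩, h3⟩ := h
  refine ⟨⟨fun j hj => by have := (h1 j hj).1.1.1; omega, fun j hj l hl e => ?_, fun m hm => ?_⟩,
    fun j hj => by have := (h1 j hj).1.1.2; omega, fun j hj => (h1 j hj).2⟩
  · rw [← (h1 j hj).1.2, ← (h1 l hl).1.2, e]
  · refine ⟨_, tb_eq (allN_mem h3 m hm), fun j hj => ?_⟩
    have h4 := (h1 j hj).1.1.1
    rw [pds_dg ⟨le_rfl, by norm_num⟩ (by omega), (h1 j hj).1.2]
    have h5 := dg_lt m j
    unfold scd
    show (Nat.succ (dg m j) * 1) % 5 - 1 = dg m j
    omega

/-- The letters of a word are admissible. -/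
noncomputable def wchk (k W : ℕ) : Bool := allN (wdl W) (fun i => Nat.ble (i + 2) k)

theorem wchk_ok {k W : ℕ} (h : wchk k W = true) : WOK k W := by
  intro i hi
  have := allN_mem h i hi
  rw [Nat.ble_eq] at this
  omega

/-- The check for the second piece. -/
noncomputable def ychk (k c : ℕ) (au : List (List ℕ × List ℕ)) (WY : List ℕ) : Bool :=
  frc (orN WY (fun W => Nat.shiftLeft 1 (cd ((pw k W).take c)))) (fun YM =>
    (injs k c).all (fun q => au.any (fun x => tb YM (cd (q.map (fun y => x.2.getD y 0))))))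

/-- The check for the first piece. -/
noncomputable def xchk (k c : ℕ) (au : List (List ℕ × List ℕ)) (WX : List ℕ) : Bool :=
  frc (orN WX (fun W => Nat.shiftLeft 1 (st ((pw k W).take c)))) (fun XM =>
    (injs k c).all (fun q => cond (srt q)
      (au.any (fun x => tb XM (st (q.map (fun y => x.2.getD y 0))))) true))

theorem yreach_of {k c i : ℕ} {au : List (List ℕ × List ℕ)} {WY : List ℕ} (hk : k ≤ 8)
    (hck : c ≤ k) (hau : ∀ x ∈ au, auchk k i x = true) (hW : WY.all (wchk k) = true)
    (h : ychk k c au WY = true) : YReach k c i WY := by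
  intro q hl hn hlt
  unfold ychk at h
  rw [frc_eq, List.all_eq_true] at h
  have h1 := h q (mem_injs hl hn hlt)
  rw [List.any_eq_true] at h1
  obtain ⟨x, hx, h2⟩ := h1
  obtain ⟨W, hWm, h3⟩ := orN_bit (tb_eq h2)
  have h4 := one_bit h3
  obtain ⟨a1, a2, a3⟩ := auchk_ok (hau x hx)
  obtain ⟨p1, p2, p3, p4⟩ := pw_facts k W
  have h5 : q.map (fun y => x.2.getD y 0) = (pw k W).take c := by
    refine cd_inj ?_ ?_ ?_ h4
    · rw [List.length_map, List.length_take, hl, p1]
      omega
    · intro z hz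
      obtain ⟨y, hy, rfl⟩ := List.mem_map.1 hz
      have := a2 y (hlt y hy)
      omega
    · intro z hz
      have := p4 z (List.mem_of_mem_take hz)
      omega
  refine ⟨x.1, a1, W, hWm, wchk_ok ((List.all_eq_true.1 hW) W hWm), p1, p2, p3, ?_⟩
  rw [← h5, List.map_map]
  conv_rhs => rw [← List.map_id q]
  refine List.map_congr_left fun y hy => ?_
  exact a3 y (hlt y hy)

theorem xreach_of {k c i : ℕ} {au : List (List ℕ × List ℕ)} {WX : List ℕ}
    (hau : ∀ x ∈ au, auchk k i x = true) (hW : WX.all (wchk k) = true)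
    (h : xchk k c au WX = true) : XReach k c i WX := by
  intro q hl hs hlt
  unfold xchk at h
  rw [frc_eq, List.all_eq_true] at h
  have h1 := h q (mem_injs hl (hs.imp (fun h => ne_of_lt h)) hlt)
  rw [srt_of hs] at h1
  have h1' : au.any (fun x => tb (orN WX (fun W => Nat.shiftLeft 1 (st ((pw k W).take c))))
    (st (q.map (fun y => x.2.getD y 0)))) = true := h1
  rw [List.any_eq_true] at h1'
  obtain ⟨x, hx, h2⟩ := h1'
  obtain ⟨W, hWm, h3⟩ := orN_bit (tb_eq h2)
  have h4 := one_bit h3
  obtain ⟨a1, a2, a3⟩ := auchk_ok (hau x hx)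
  obtain ⟨p1, p2, p3, p4⟩ := pw_facts k W
  refine ⟨x.1, a1, W, hWm, wchk_ok ((List.all_eq_true.1 hW) W hWm), p1, p2, p3, fun y => ?_⟩
  have h5 : ∀ z, z ∈ (pw k W).take c ↔ z ∈ q.map (fun y => x.2.getD y 0) := by
    intro z
    rw [← st_bit, ← st_bit, h4]
  constructor
  · intro hy
    obtain ⟨z, hz, rfl⟩ := List.mem_map.1 hy
    obtain ⟨v, hv, rfl⟩ := List.mem_map.1 ((h5 z).1 hz)
    show x.1.getD (x.2.getD v 0) 0 ∈ q
    rw [a3 v (hlt v hv)]
    exact hv
  · intro hy
    refine List.mem_map.2 ⟨x.2.getD y 0, (h5 _).2 (List.mem_map.2 ⟨y, hy, rfl⟩), ?_⟩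
    exact a3 y (hlt y hy)

end Pool.Agent.TH405.CW
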