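import Pool.Agent.TH405.CW.Chk
import Pool.Agent.TH405.CW.Piece

/-! Renumbering the ends so that the glued ends come first. -/

set_option autoImplicit false

namespace Pool.Agent.TH405.CW

variable {V E : Type} [Fintype E]

/-- Symmetries of a class. -/
def AutOK (k i : ℕ) (g : List ℕ) : Prop :=
  (∀ j < k, g.getD j 0 < k) ∧ (∀ j < k, ∀ l < k, g.getD j 0 = g.getD l 0 → j = l) ∧
    ∀ m ∈ rps k i, ∃ n, (msk k i).testBit n = true ∧ ∀ j < k, dg n (g.getD j 0) = dg m j

/-- The classes are closed. -/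
def ClOK (k i : ℕ) : Prop := clo k (rps k i) = msk k i

theorem hasM_of_hasL (s t : E → V) (X : Set V) (k i : ℕ) (o : ℕ → E) (hc : ClOK k i)
    (h : HasL s t X k o (rps k i)) : HasM s t X k o (msk k i) := by
  refine ⟨h.1, fun n hn => ?_⟩
  rw [← hc] at hn
  obtain ⟨m, hm, u, hu, rfl⟩ := clo_bit hn
  refine st_mul s t X k o m _ (u : ZMod 5) (u_ne hu) (fun j hj => ?_) (h.2 m hm)
  rw [sck_dg hu hj]
  exact (scd_facts hu (dg_lt m j)).2

theorem hasL_aut (s t : E → V) (X : Set V) (k i : ℕ) (o : ℕ → E) (hc : ClOK k i) (g : List ℕ)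
    (hg : AutOK k i g) (h : HasL s t X k o (rps k i)) :
    HasL s t X k (fun j => o (g.getD j 0)) (rps k i) := by
  refine ⟨ord_comp s t X k o h.1 (fun j => g.getD j 0) hg.1 hg.2.1, fun m hm => ?_⟩
  obtain ⟨n, hn, h1⟩ := hg.2.2 m hm
  obtain ⟨f, hf, hf2⟩ := (hasM_of_hasL s t X k i o hc h).2 n hn
  exact ⟨f, hf, fun j hj => by rw [hf2 _ (hg.1 j hj), h1 j hj]⟩

theorem hasM_word (s t : E → V) (X : Set V) (k : ℕ) (o0 : ℕ → E) :
    ∀ (W : List ℕ) (M : ℕ) (P : List ℕ) (o : ℕ → E), (∀ i ∈ W, i + 1 < k) → P.length = k →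
    HasM s t X k o M → (∀ j < k, o j = o0 (P.getD j 0)) →
    ∃ o', HasM s t X k o' (mwk W M) ∧ ∀ j < k, o' j = o0 ((plk W P).getD j 0) := by
  intro W
  induction W with
  | nil => exact fun M P o _ _ h h2 => ⟨o, h, h2⟩
  | cons i W ih =>
    intro M P o hW hP h h2
    have hi := hW i List.mem_cons_self
    rw [mwk_cons]
    refine ih (sw i M) (swl i P) (swo i o) (fun j hj => hW j (List.mem_cons_of_mem _ hj))
      (by rw [swl_len, hP]) (hasM_swo s t X k o M _ i hi h fun m hm => sw_bit hm) ?_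
    intro j hj
    rw [swl_get i P j (by omega)]
    unfold swo
    split_ifs
    · exact h2 _ hi
    · exact h2 _ (by omega)
    · exact h2 _ hj

/-- Words are admissible. -/
def WOK (k W : ℕ) : Prop := ∀ i ∈ wdl W, i + 1 < k

/-- The order of the ends after a word. -/
noncomputable def pw (k W : ℕ) : List ℕ := plk (wdl W) (List.range k)

/-- Any set of glued ends of the class can be brought to the front. -/
def XReach (k c i : ℕ) (WX : List ℕ) : Prop :=
  ∀ q : List ℕ, q.length = c → q.Pairwise (· < ·) → (∀ x ∈ q, x < k) →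
    ∃ g, AutOK k i g ∧ ∃ W ∈ WX, WOK k W ∧ (pw k W).length = k ∧ (∀ j < k, (pw k W).getD j 0 < k) ∧
      (∀ j < k, ∀ l < k, (pw k W).getD j 0 = (pw k W).getD l 0 → j = l) ∧
      (∀ y, y ∈ ((pw k W).take c).map (fun x => g.getD x 0) ↔ y ∈ q)

/-- Any sequence of glued ends of the class can be brought to the front. -/
def YReach (k c i : ℕ) (WY : List ℕ) : Prop :=
  ∀ q : List ℕ, q.length = c → q.Nodup → (∀ x ∈ q, x < k) →
    ∃ g, AutOK k i g ∧ ∃ W ∈ WY, WOK k W ∧ (pw k W).length = k ∧ (∀ j < k, (pw k W).getD j 0 < k) ∧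
      (∀ j < k, ∀ l < k, (pw k W).getD j 0 = (pw k W).getD l 0 → j = l) ∧
      ((pw k W).take c).map (fun x => g.getD x 0) = q

/-- Renumbering of the ends of a piece. -/
theorem renumber (s t : E → V) (X : Set V) (k i : ℕ) (o : ℕ → E) (hc : ClOK k i) (g : List ℕ)
    (hg : AutOK k i g) (W : ℕ) (hW : WOK k W)
    (h : HasL s t X k o (rps k i)) :
    ∃ o', HasM s t X k o' (mwk (wdl W) (msk k i)) ∧
      ∀ j < k, o' j = o (g.getD ((pw k W).getD j 0) 0) := by
  have h1 := hasM_of_hasL s t X k i _ hc (hasL_aut s t X k i o hc g hg h)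
  obtain ⟨o', h2, h3⟩ := hasM_word s t X k (fun j => o (g.getD j 0)) (wdl W) _ (List.range k)
    (fun j => o (g.getD j 0)) hW (by simp) h1 (fun j hj => by
      have e : (List.range k).getD j 0 = j := by
        rw [List.getD_eq_getElem?_getD, List.getElem?_range hj]
        rfl
      rw [e])
  exact ⟨o', h2, h3⟩

/-- The tables for a pair of classes. -/
def TabPair (a b c i j : ℕ) : Prop :=
  ∃ WX WY, XReach a c i WX ∧ YReach b c j WY ∧
    ∀ W ∈ WX, ∀ W' ∈ WY, LeafOK a b c (mwk (wdl W) (msk a i)) (mwk (wdl W') (msk b j))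

/-- The piece `X` with `k` ends contains a class. -/
def HasC (s t : E → V) (X : Set V) (k : ℕ) : Prop :=
  ∃ i < (Cl k).length, ∃ o, HasL s t X k o (rps k i)

theorem getD_mem_take {l : List ℕ} {j c : ℕ} (hj : j < l.length) (hc : j < c) :
    l.getD j 0 ∈ l.take c := by
  rw [List.mem_take_iff_getElem]
  exact ⟨j, by omega, by rw [List.getD_eq_getElem?_getD, List.getElem?_eq_getElem hj]; rfl⟩

theorem mem_take_getD {l : List ℕ} {x c : ℕ} (h : x ∈ l.take c) :
    ∃ j, j < c ∧ j < l.length ∧ l.getD j 0 = x := by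
  rw [List.mem_take_iff_getElem] at h
  obtain ⟨j, hj, rfl⟩ := h
  exact ⟨j, by omega, by omega, by
    rw [List.getD_eq_getElem?_getD, List.getElem?_eq_getElem (by omega)]; rfl⟩

open Classical in
theorem join_pair (s t : E → V) (X Y : Set V) (hd : Disjoint X Y) (a b c i j : ℕ)
    (hca : c ≤ a) (hcb : c ≤ b) (oX oY : ℕ → E)
    (hX : HasL s t X a oX (rps a i)) (hY : HasL s t Y b oY (rps b j)) (cX : ClOK a i)
    (cY : ClOK b j) (hc : (cut s t X ∩ cut s t Y).card = c) (hT : TabPair a b c i j) :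
    HasC s t (X ∪ Y) (a + b - 2 * c) := by
  obtain ⟨WX, WY, rX, rY, hL⟩ := hT
  -- the first piece
  obtain ⟨q, hq⟩ : ∃ q : List ℕ, q = (List.range a).filter (fun p => decide (oX p ∈ cut s t Y)) :=
    ⟨_, rfl⟩
  have hqm : ∀ p, p ∈ q ↔ p < a ∧ oX p ∈ cut s t Y := by
    intro p
    rw [hq, List.mem_filter, List.mem_range, decide_eq_true_iff]
  have hqs : q.Pairwise (· < ·) := by
    rw [hq]
    exact List.Pairwise.sublist List.filter_sublist List.pairwise_lt_range
  have hqn : q.Nodup := hqs.imp (fun h => ne_of_lt h)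
  have hql : q.length = c := by
    rw [← hc, ← List.toFinset_card_of_nodup hqn]
    refine Finset.card_bij (fun p _ => oX p) ?_ ?_ ?_
    · intro p hp
      have := (hqm p).1 (List.mem_toFinset.1 hp)
      exact Finset.mem_inter.2 ⟨(hX.1.2 _).2 ⟨p, this.1, rfl⟩, this.2⟩
    · intro p hp p' hp' h
      exact hX.1.1 p ((hqm p).1 (List.mem_toFinset.1 hp)).1 p'
        ((hqm p').1 (List.mem_toFinset.1 hp')).1 h
    · intro e he
      rw [Finset.mem_inter] at he
      obtain ⟨p, hp, rfl⟩ := (hX.1.2 e).1 he.1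
      exact ⟨p, List.mem_toFinset.2 ((hqm p).2 ⟨hp, he.2⟩), rfl⟩
  obtain ⟨g, hg, W, hW, hWo, pl, plt, pinj, hgW⟩ := rX q hql hqs (fun x hx => ((hqm x).1 hx).1)
  obtain ⟨o2, hM2, ho2⟩ := renumber s t X a i oX cX g hg W hWo hX
  have sh2 : ∀ p < a, (oX (g.getD ((pw a W).getD p 0) 0) ∈ cut s t Y ↔ p < c) := by
    intro p hp
    have h1 := plt p hp
    have h2 := hg.1 _ h1
    constructor
    · intro h
      have h3 := (hqm _).2 ⟨h2, h⟩
      rw [← hgW, List.mem_map] at h3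
      obtain ⟨y, hy, hy2⟩ := h3
      obtain ⟨p', h4, h5, rfl⟩ := mem_take_getD hy
      have h6 := hg.2.1 _ (plt p' (by omega)) _ h1 hy2
      have h7 := pinj p' (by omega) p hp h6
      omega
    · intro h
      have h3 := getD_mem_take (l := pw a W) (j := p) (c := c) (by omega) h
      have h4 := (hgW _).1 (List.mem_map.2 ⟨_, h3, rfl⟩)
      exact ((hqm _).1 h4).2
  have sh2' : ∀ p < a, (o2 p ∈ cut s t Y ↔ p < c) := by
    intro p hp
    rw [ho2 p hp]
    exact sh2 p hp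
  -- the second piece
  have hex : ∀ p, ∃ y, p < c → y < b ∧ oY y = o2 p := by
    intro p
    by_cases hp : p < c
    · obtain ⟨y, hy, h⟩ := (hY.1.2 _).1 ((sh2' p (by omega)).2 hp)
      exact ⟨y, fun _ => ⟨hy, h⟩⟩
    · exact ⟨0, fun h => absurd h hp⟩
  choose ρ hρ using hex
  obtain ⟨q', hq'⟩ : ∃ q' : List ℕ, q' = (List.range c).map ρ := ⟨_, rfl⟩
  have hq'n : q'.Nodup := by
    rw [hq']
    refine List.Nodup.map_on ?_ List.nodup_range
    intro x hx y hy hxy
    rw [List.mem_range] at hx hy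
    refine hM2.1.1 x (by omega) y (by omega) ?_
    rw [← (hρ x hx).2, ← (hρ y hy).2, hxy]
  obtain ⟨g', hg', W', hW', hWo', pl', plt', pinj', hgW'⟩ := rY q' (by rw [hq']; simp) hq'n
    (fun x hx => by
      rw [hq', List.mem_map] at hx
      obtain ⟨p, hp, rfl⟩ := hx
      exact (hρ p (List.mem_range.1 hp)).1)
  obtain ⟨o3, hM3, ho3⟩ := renumber s t Y b j oY cY g' hg' W' hWo' hY
  have hsh : ∀ p < c, o2 p = o3 p := by
    intro p hp
    rw [ho3 p (by omega), ← (hρ p hp).2]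
    congr 1
    have h1 : q'.getD p 0 = ρ p := by
      rw [hq', List.getD_eq_getElem?_getD, List.getElem?_map, List.getElem?_range hp]
      rfl
    have h2 : q'.getD p 0 = g'.getD ((pw b W').getD p 0) 0 := by
      rw [← hgW', List.getD_eq_getElem?_getD, List.getElem?_map, List.getElem?_take_of_lt hp,
        List.getD_eq_getElem?_getD (l := pw b W'), List.getElem?_eq_getElem (by omega)]
      rfl
    rw [← h1, h2]
  have hfX : ∀ p, c ≤ p → p < a → o2 p ∉ cut s t Y := fun p h1 h2 h3 => by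
    have := (sh2' p h2).1 h3
    omega
  have hfY : ∀ p, c ≤ p → p < b → o3 p ∉ cut s t X := by
    intro p h1 h2 h3
    obtain ⟨p', hp', h4⟩ := (hM2.1.2 _).1 h3
    have h5 : o2 p' ∈ cut s t Y := by rw [h4]; exact (hM3.1.2 _).2 ⟨p, h2, rfl⟩
    have h6 := (sh2' p' hp').1 h5
    rw [hsh p' h6] at h4
    have := hM3.1.1 p' (by omega) p h2 h4
    omega
  obtain ⟨o, ho⟩ : ∃ o : ℕ → E, o = fun p => if p < a - c then o2 (c + p)
    else o3 (c + (p - (a - c))) := ⟨_, rfl⟩
  have ho1 : ∀ p < a - c, o p = o2 (c + p) := by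
    intro p hp
    rw [ho]; simp only [if_pos hp]
  have ho2' : ∀ p < b - c, o (a - c + p) = o3 (c + p) := by
    intro p hp
    rw [ho]; simp only [if_neg (by omega : ¬ a - c + p < a - c), Nat.add_sub_cancel_left]
  obtain ⟨ordU, glue⟩ := join_std s t X Y hd a b c hca hcb o2 o3 hM2.1 hM3.1 hsh hfX hfY o ho1 ho2'
  obtain ⟨i3, hi3, τ, τl, τn, τlt, hm⟩ := hL W hW W' hW'
  have τinj : ∀ p < a + b - 2 * c, ∀ p' < a + b - 2 * c, τ.getD p 0 = τ.getD p' 0 → p = p' := by
    intro p hp p' hp' h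
    rw [List.getD_eq_getElem?_getD, List.getD_eq_getElem?_getD, List.getElem?_eq_getElem (by omega),
      List.getElem?_eq_getElem (by omega)] at h
    exact (List.Nodup.getElem_inj_iff τn).1 h
  have τlt' : ∀ p < a + b - 2 * c, τ.getD p 0 < a + b - 2 * c := by
    intro p hp
    rw [List.getD_eq_getElem?_getD, List.getElem?_eq_getElem (by omega)]
    exact τlt _ (List.getElem_mem _)
  have τsurj : ∀ p, ∃ p', p < a + b - 2 * c → p' < a + b - 2 * c ∧ τ.getD p' 0 = p := by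
    intro p
    by_cases hp : p < a + b - 2 * c
    · have hinj' : Function.Injective (fun i : Fin (a + b - 2 * c) =>
          (⟨τ.getD i 0, τlt' i i.2⟩ : Fin (a + b - 2 * c))) := by
        intro i j hij
        exact Fin.ext (τinj i i.2 j j.2 (Fin.mk.inj hij))
      obtain ⟨j, hj⟩ := (Finite.injective_iff_surjective.1 hinj') ⟨p, hp⟩
      exact ⟨j, fun _ => ⟨j.2, Fin.mk.inj hj⟩⟩
    · exact ⟨0, fun h => absurd h hp⟩
  choose σ hσ using τsurj
  refine ⟨i3, hi3, fun p => o (σ p), ord_comp s t _ _ o ordU σ (fun p hp => (hσ p hp).1)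
    (fun p hp p' hp' h => by rw [← (hσ p hp).2, ← (hσ p' hp').2, h]), fun m hmm => ?_⟩
  obtain ⟨x, y, hx, hy, hxy, u, hu, hu1, hu2⟩ := hm m hmm
  obtain ⟨fX, gX, vX⟩ := hM2.2 x hx
  obtain ⟨fY, gY, vY⟩ := hM3.2 y hy
  obtain ⟨f, gf, v1, v2⟩ := glue fX (fun e => (-1 : ZMod 5) * fY e) gX
    (good_mul s t fY Y (-1) (by decide) gY) (by
    intro p hp
    have h1 : ov s Y (fun e => (-1 : ZMod 5) * fY e) (o3 p) = - ov s Y fY (o3 p) := by
      unfold ov
      split_ifs <;> ring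
    rw [h1, neg_neg, vX p (by omega), vY p (by omega), hxy p hp])
  have : Fact (Nat.Prime 5) := ⟨by norm_num⟩
  have hval : ∀ p < a + b - 2 * c, ov s (X ∪ Y) f (o p) = u * vl (dg m (τ.getD p 0)) := by
    intro p hp
    by_cases h : p < a - c
    · rw [v1 p h, vX _ (by omega), ← hu1 p h]
    · obtain ⟨p', rfl⟩ : ∃ p', p = a - c + p' := ⟨p - (a - c), by omega⟩
      rw [v2 p' (by omega), hu2 p' (by omega), vl_neg (dg_lt _ _), ← vY _ (by omega)]
      unfold ov
      split_ifs <;> ring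
  refine ⟨fun e => u⁻¹ * f e, good_mul s t f _ _ (inv_ne_zero hu) gf, fun p hp => ?_⟩
  obtain ⟨h1, h2⟩ := hσ p hp
  have h3 : ov s (X ∪ Y) (fun e => u⁻¹ * f e) (o (σ p)) = u⁻¹ * ov s (X ∪ Y) f (o (σ p)) := by
    unfold ov
    split_ifs <;> ring
  rw [h3, hval _ h1, h2, ← mul_assoc, inv_mul_cancel₀ hu, one_mul]

end Pool.Agent.TH405.CW
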